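import Mathlib

-- merged part: Pool.Agent.Work.MP_f4b807_an.Unique
section
-- merged part: Pool.Agent.Work.MP_f4b807_an.Alg
section
set_option autoImplicit false

open Set Filter Topology Metric

namespace Pool.Agent.NonPeak

/-- The algebra of rational functions, bounded at infinity, whose poles lie in `G`. -/
noncomputable def Alg (G : Set ℂ) : Subalgebra ℂ (ℂ → ℂ) :=
  Algebra.adjoin ℂ {f | ∃ p ∈ G, f = fun ζ => (ζ - p)⁻¹}

/-- `f ζ = a + b / ζ + o(1 / ζ)` at infinity. -/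
def Asym (f : ℂ → ℂ) (a b : ℂ) : Prop :=
  Tendsto (fun ζ => ζ * (f ζ - a)) (cocompact ℂ) (𝓝 b)

/-- The capacity of `G` (with rational test functions) is at least `t`. -/
def Cap (G : Set ℂ) (t : ℝ) : Prop :=
  ∀ t' < t, ∃ f ∈ Alg G, ∃ a b : ℂ, Asym f a b ∧ (∀ ζ, ζ ∉ G → ‖f ζ‖ ≤ 1) ∧ t' < ‖b‖

theorem Alg_mono {G H : Set ℂ} (h : G ⊆ H) : Alg G ≤ Alg H :=
  Algebra.adjoin_mono fun _ ⟨p, hp, hf⟩ => ⟨p, h hp, hf⟩

theorem inv_mem_Alg {G : Set ℂ} {p : ℂ} (hp : p ∈ G) : (fun ζ => (ζ - p)⁻¹) ∈ Alg G :=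
  Algebra.subset_adjoin ⟨p, hp, rfl⟩

theorem const_mem_Alg (G : Set ℂ) (c : ℂ) : (fun _ => c) ∈ Alg G :=
  (Alg G).algebraMap_mem c

theorem Alg.add {G : Set ℂ} {f g : ℂ → ℂ} (hf : f ∈ Alg G) (hg : g ∈ Alg G) :
    (fun ζ => f ζ + g ζ) ∈ Alg G := (Alg G).add_mem hf hg

theorem Alg.sub {G : Set ℂ} {f g : ℂ → ℂ} (hf : f ∈ Alg G) (hg : g ∈ Alg G) :
    (fun ζ => f ζ - g ζ) ∈ Alg G := (Alg G).sub_mem hf hg

theorem Alg.mul {G : Set ℂ} {f g : ℂ → ℂ} (hf : f ∈ Alg G) (hg : g ∈ Alg G) :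
    (fun ζ => f ζ * g ζ) ∈ Alg G := (Alg G).mul_mem hf hg

theorem Alg.pow {G : Set ℂ} {f : ℂ → ℂ} (hf : f ∈ Alg G) (n : ℕ) :
    (fun ζ => f ζ ^ n) ∈ Alg G := (Alg G).pow_mem hf n

theorem Alg.const_mul {G : Set ℂ} {f : ℂ → ℂ} (hf : f ∈ Alg G) (c : ℂ) :
    (fun ζ => c * f ζ) ∈ Alg G := Alg.mul (const_mem_Alg G c) hf

theorem Alg.sum {G : Set ℂ} {ι : Type*} (s : Finset ι) {f : ι → ℂ → ℂ}
    (hf : ∀ i ∈ s, f i ∈ Alg G) : (fun ζ => ∑ i ∈ s, f i ζ) ∈ Alg G := by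
  have := (Alg G).sum_mem hf
  convert this using 1
  ext ζ; simp

theorem Alg.induction {G : Set ℂ} {P : (ℂ → ℂ) → Prop}
    (h1 : ∀ p ∈ G, P fun ζ => (ζ - p)⁻¹) (h2 : ∀ c : ℂ, P fun _ => c)
    (h3 : ∀ f g, f ∈ Alg G → g ∈ Alg G → P f → P g → P fun ζ => f ζ + g ζ)
    (h4 : ∀ f g, f ∈ Alg G → g ∈ Alg G → P f → P g → P fun ζ => f ζ * g ζ)
    {f : ℂ → ℂ} (hf : f ∈ Alg G) : P f := by
  induction hf using Algebra.adjoin_induction with
  | mem x hx => obtain ⟨p, hp, rfl⟩ := hx; exact h1 p hp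
  | algebraMap r => exact h2 r
  | add x y hx hy px py => exact h3 x y hx hy px py
  | mul x y hx hy px py => exact h4 x y hx hy px py

theorem Alg.differentiableAt {G : Set ℂ} {f : ℂ → ℂ} (hf : f ∈ Alg G) {z : ℂ} (hz : z ∉ G) :
    DifferentiableAt ℂ f z := by
  refine Alg.induction (P := fun f => DifferentiableAt ℂ f z) ?_ ?_ ?_ ?_ hf
  · intro p hp
    have : z - p ≠ 0 := sub_ne_zero.2 (by rintro rfl; exact hz hp)
    exact (differentiableAt_id.sub_const p).inv this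
  · intro c; exact differentiableAt_const c
  · intro f g _ _ hf hg; exact hf.add hg
  · intro f g _ _ hf hg; exact hf.mul hg

theorem Alg.continuousAt {G : Set ℂ} {f : ℂ → ℂ} (hf : f ∈ Alg G) {z : ℂ} (hz : z ∉ G) :
    ContinuousAt f z := (Alg.differentiableAt hf hz).continuousAt

theorem Alg.measurable {G : Set ℂ} {f : ℂ → ℂ} (hf : f ∈ Alg G) : Measurable f := by
  refine Alg.induction (P := fun f => Measurable f) ?_ ?_ ?_ ?_ hf
  · intro p _; exact (measurable_id.sub_const p).inv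
  · intro c; exact measurable_const
  · intro f g _ _ hf hg; exact hf.add hg
  · intro f g _ _ hf hg; exact hf.mul hg

theorem Alg.exists_poly {G : Set ℂ} {f : ℂ → ℂ} (hf : f ∈ Alg G) :
    ∃ p q : Polynomial ℂ, (∀ z, z ∉ G → q.eval z ≠ 0) ∧
      ∀ z, z ∉ G → f z = p.eval z / q.eval z := by
  refine Alg.induction (P := fun f => ∃ p q : Polynomial ℂ, (∀ z, z ∉ G → q.eval z ≠ 0) ∧
      ∀ z, z ∉ G → f z = p.eval z / q.eval z) ?_ ?_ ?_ ?_ hf
  · intro p hp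
    refine ⟨1, Polynomial.X - Polynomial.C p, ?_, ?_⟩
    · intro z hz
      simpa using sub_ne_zero.2 (by rintro rfl; exact hz hp)
    · intro z _; simp
  · intro c; exact ⟨Polynomial.C c, 1, by simp, by simp⟩
  · rintro f g _ _ ⟨p, q, hq, h⟩ ⟨p', q', hq', h'⟩
    refine ⟨p * q' + q * p', q * q', ?_, ?_⟩
    · intro z hz; simpa using ⟨hq z hz, hq' z hz⟩
    · intro z hz
      beta_reduce
      rw [h z hz, h' z hz, div_add_div _ _ (hq z hz) (hq' z hz)]; simp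
  · rintro f g _ _ ⟨p, q, hq, h⟩ ⟨p', q', hq', h'⟩
    refine ⟨p * p', q * q', ?_, ?_⟩
    · intro z hz; simpa using ⟨hq z hz, hq' z hz⟩
    · intro z hz
      beta_reduce
      rw [h z hz, h' z hz, div_mul_div_comm]; simp

theorem Alg.exists_quot {G : Set ℂ} {f : ℂ → ℂ} (hf : f ∈ Alg G) {z : ℂ} (hz : z ∉ G) :
    ∃ g ∈ Alg G, ∀ ζ, ζ ∉ G → f ζ - f z = (ζ - z) * g ζ := by
  refine Alg.induction (P := fun f => ∃ g ∈ Alg G, ∀ ζ, ζ ∉ G → f ζ - f z = (ζ - z) * g ζ)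
    ?_ ?_ ?_ ?_ hf
  · intro p hp
    refine ⟨fun ζ => -(z - p)⁻¹ * (ζ - p)⁻¹, Alg.const_mul (inv_mem_Alg hp) _, ?_⟩
    intro ζ hζ
    have h1 : z - p ≠ 0 := sub_ne_zero.2 (by rintro rfl; exact hz hp)
    have h2 : ζ - p ≠ 0 := sub_ne_zero.2 (by rintro rfl; exact hζ hp)
    field_simp
    ring
  · intro c; exact ⟨fun _ => 0, const_mem_Alg G 0, by simp⟩
  · rintro f g _ _ ⟨f', hf', h⟩ ⟨g', hg', h'⟩
    refine ⟨fun ζ => f' ζ + g' ζ, Alg.add hf' hg', fun ζ hζ => ?_⟩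
    linear_combination h ζ hζ + h' ζ hζ
  · rintro f g _ hg ⟨f', hf', h⟩ ⟨g', hg', h'⟩
    refine ⟨fun ζ => f' ζ * g ζ + f z * g' ζ, Alg.add (Alg.mul hf' hg) (Alg.const_mul hg' _),
      fun ζ hζ => ?_⟩
    linear_combination g ζ * h ζ hζ + f z * h' ζ hζ

theorem tendsto_inv_sub (p : ℂ) : Tendsto (fun ζ : ℂ => (ζ - p)⁻¹) (cocompact ℂ) (𝓝 0) := by
  rw [← Metric.cobounded_eq_cocompact]
  exact tendsto_inv₀_cobounded.comp (tendsto_sub_const_cobounded p)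

theorem eventually_ne_cocompact (p : ℂ) : ∀ᶠ ζ in cocompact ℂ, ζ ≠ p :=
  isCompact_singleton.compl_mem_cocompact

theorem tendsto_mul_inv_sub (p : ℂ) :
    Tendsto (fun ζ : ℂ => ζ * (ζ - p)⁻¹) (cocompact ℂ) (𝓝 1) := by
  have h := ((tendsto_inv_sub p).const_mul p).const_add 1
  simp only [mul_zero, add_zero] at h
  refine h.congr' ?_
  filter_upwards [eventually_ne_cocompact p] with ζ hζ
  have : ζ - p ≠ 0 := sub_ne_zero.2 hζ
  field_simp
  ring

theorem Asym.tendsto {f : ℂ → ℂ} {a b : ℂ} (h : Asym f a b) :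
    Tendsto f (cocompact ℂ) (𝓝 a) := by
  have h1 := (h.mul (tendsto_inv_sub 0)).const_add a
  simp only [mul_zero, add_zero, sub_zero] at h1
  refine h1.congr' ?_
  filter_upwards [eventually_ne_cocompact 0] with ζ hζ
  field_simp
  ring

theorem Asym.unique {f : ℂ → ℂ} {a b a' b' : ℂ} (h : Asym f a b) (h' : Asym f a' b') :
    a = a' ∧ b = b' := by
  have ha : a = a' := tendsto_nhds_unique h.tendsto h'.tendsto
  subst ha
  exact ⟨rfl, tendsto_nhds_unique h h'⟩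

theorem Asym.const (c : ℂ) : Asym (fun _ => c) c 0 := by
  simp [Asym]

theorem Asym.inv (p : ℂ) : Asym (fun ζ => (ζ - p)⁻¹) 0 1 := by
  simpa [Asym] using tendsto_mul_inv_sub p

theorem Asym.add {f g : ℂ → ℂ} {a b a' b' : ℂ} (h : Asym f a b) (h' : Asym g a' b') :
    Asym (fun ζ => f ζ + g ζ) (a + a') (b + b') := by
  refine (Tendsto.add h h').congr fun ζ => ?_
  ring

theorem Asym.sub {f g : ℂ → ℂ} {a b a' b' : ℂ} (h : Asym f a b) (h' : Asym g a' b') :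
    Asym (fun ζ => f ζ - g ζ) (a - a') (b - b') := by
  refine (Tendsto.sub h h').congr fun ζ => ?_
  ring

theorem Asym.mul {f g : ℂ → ℂ} {a b a' b' : ℂ} (h : Asym f a b) (h' : Asym g a' b') :
    Asym (fun ζ => f ζ * g ζ) (a * a') (b * a' + a * b') := by
  refine ((Tendsto.mul h h'.tendsto).add (Tendsto.const_mul a h')).congr fun ζ => ?_
  ring

theorem Asym.const_mul {f : ℂ → ℂ} {a b : ℂ} (h : Asym f a b) (c : ℂ) :
    Asym (fun ζ => c * f ζ) (c * a) (c * b) := by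
  simpa using (Asym.const c).mul h

theorem Asym.congr' {f g : ℂ → ℂ} {a b : ℂ} (h : Asym f a b) (hfg : f =ᶠ[cocompact ℂ] g) :
    Asym g a b := by
  refine Tendsto.congr' ?_ h
  filter_upwards [hfg] with ζ hζ
  rw [hζ]

theorem Alg.exists_asym {G : Set ℂ} {f : ℂ → ℂ} (hf : f ∈ Alg G) :
    ∃ a b : ℂ, Asym f a b ∧ ∃ g ∈ Alg G, ∀ ζ, ζ ∉ G → g ζ = ζ * (f ζ - a) := by
  refine Alg.induction (P := fun f => ∃ a b : ℂ, Asym f a b ∧
    ∃ g ∈ Alg G, ∀ ζ, ζ ∉ G → g ζ = ζ * (f ζ - a)) ?_ ?_ ?_ ?_ hf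
  · intro p hp
    refine ⟨0, 1, Asym.inv p, fun ζ => 1 + p * (ζ - p)⁻¹,
      Alg.add (const_mem_Alg G 1) (Alg.const_mul (inv_mem_Alg hp) p), fun ζ hζ => ?_⟩
    have h2 : ζ - p ≠ 0 := sub_ne_zero.2 (by rintro rfl; exact hζ hp)
    field_simp
    ring
  · intro c; exact ⟨c, 0, Asym.const c, fun _ => 0, const_mem_Alg G 0, by simp⟩
  · rintro f g _ _ ⟨a, b, h, f', hf', e⟩ ⟨a', b', h', g', hg', e'⟩
    refine ⟨_, _, h.add h', fun ζ => f' ζ + g' ζ, Alg.add hf' hg', fun ζ hζ => ?_⟩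
    simp only [e ζ hζ, e' ζ hζ]; ring
  · rintro f g _ hg ⟨a, b, h, f', hf', e⟩ ⟨a', b', h', g', hg', e'⟩
    refine ⟨_, _, h.mul h', fun ζ => f' ζ * g ζ + a * g' ζ,
      Alg.add (Alg.mul hf' hg) (Alg.const_mul hg' a), fun ζ hζ => ?_⟩
    simp only [e ζ hζ, e' ζ hζ]; ring

theorem Cap.mono {G H : Set ℂ} {t s : ℝ} (h : Cap G t) (hGH : G ⊆ H) (hs : s ≤ t) : Cap H s := by
  intro t' ht'
  obtain ⟨f, hf, a, b, h1, h2, h3⟩ := h t' (ht'.trans_le hs)
  exact ⟨f, Alg_mono hGH hf, a, b, h1, fun ζ hζ => h2 ζ fun h => hζ (hGH h), h3⟩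

theorem Cap.of_forall_lt {G : Set ℂ} {t : ℝ} (h : ∀ s < t, Cap G s) : Cap G t := by
  intro t' ht'
  exact h ((t' + t) / 2) (by linarith) t' (by linarith)

theorem cap_ball (p : ℂ) {r : ℝ} (hr : 0 < r) : Cap (ball p r) r := by
  intro t' ht'
  refine ⟨fun ζ => r * (ζ - p)⁻¹, Alg.const_mul (inv_mem_Alg (mem_ball_self hr)) _, _, _,
    (Asym.inv p).const_mul r, ?_, ?_⟩
  · intro ζ hζ
    rw [mem_ball, dist_eq_norm, not_lt] at hζ
    rw [norm_mul, norm_inv, Complex.norm_real, Real.norm_eq_abs, abs_of_pos hr,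
      ← div_eq_mul_inv, div_le_one (hr.trans_le hζ)]
    exact hζ
  · simpa [abs_of_pos hr] using ht'

end Pool.Agent.NonPeak
end

-- merged part: Pool.Agent.Work.MP_f4b807_an.Expand
section
set_option autoImplicit false

open Set Filter Topology Metric

namespace Pool.Agent.NonPeak

theorem tendsto_inv_punctured (p : ℂ) {r : ℝ} (hr : 0 < r) :
    Tendsto (fun w : ℂ => p + r / w) (𝓝[≠] 0) (cocompact ℂ) := by
  rw [← Metric.cobounded_eq_cocompact]
  have h1 : Tendsto (fun w : ℂ => w⁻¹) (𝓝[≠] 0) (Bornology.cobounded ℂ) :=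
    tendsto_inv₀_nhdsNE_zero
  have h2 : Tendsto (fun w : ℂ => (r : ℂ) * w) (Bornology.cobounded ℂ) (Bornology.cobounded ℂ) :=
    tendsto_mul_left_cobounded (by exact_mod_cast hr.ne')
  have h3 := (tendsto_const_add_cobounded p).comp (h2.comp h1)
  simpa [Function.comp_def, div_eq_mul_inv] using h3

theorem lt_norm_inv_aux {p w : ℂ} {r : ℝ} (hr : 0 < r) (hw : w ∈ ball (0 : ℂ) 1) (h0 : w ≠ 0) :
    r < ‖p + r / w - p‖ := by
  rw [mem_ball_zero_iff] at hw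
  rw [add_sub_cancel_left, norm_div, Complex.norm_real, Real.norm_eq_abs, abs_of_pos hr,
    lt_div_iff₀ (norm_pos_iff.2 h0)]
  nlinarith

theorem exterior_diff {f : ℂ → ℂ} {p a : ℂ} {r : ℝ} (hr : 0 < r)
    (hd : ∀ ζ, r < ‖ζ - p‖ → DifferentiableAt ℂ f ζ) (ha : Tendsto f (cocompact ℂ) (𝓝 a)) :
    DifferentiableOn ℂ (Function.update (fun w => f (p + r / w)) 0 a) (ball 0 1) := by
  rw [← Complex.differentiableOn_compl_singleton_and_continuousAt_iff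
    (ball_mem_nhds (0 : ℂ) one_pos)]
  refine ⟨?_, continuousAt_update_same.2 (ha.comp (tendsto_inv_punctured p hr))⟩
  rintro w ⟨hw, h0⟩
  have h0 : w ≠ 0 := h0
  have h1 : DifferentiableAt ℂ (fun w => f (p + r / w)) w :=
    (hd _ (lt_norm_inv_aux hr hw h0)).comp w
      (((differentiableAt_const _).div differentiableAt_id h0).const_add p)
  refine (h1.congr_of_eventuallyEq ?_).differentiableWithinAt
  filter_upwards [isOpen_ne.mem_nhds h0] with x hx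
  exact Function.update_of_ne hx _ _

theorem dslope_step {H : ℂ → ℂ} {C : ℝ} (hd : DifferentiableOn ℂ H (ball 0 1))
    (hb : ∀ w ∈ ball (0 : ℂ) 1, ‖H w‖ ≤ C) :
    DifferentiableOn ℂ (dslope H 0) (ball 0 1) ∧ (∀ w ∈ ball (0 : ℂ) 1, ‖dslope H 0 w‖ ≤ 2 * C) ∧
      ∀ w, H w = H 0 + w * dslope H 0 w := by
  refine ⟨(Complex.differentiableOn_dslope (ball_mem_nhds _ one_pos)).2 hd, ?_, ?_⟩
  · intro w hw
    have := Complex.norm_dslope_le_div_of_mapsTo_ball (R₂ := 2 * C) hd ?_ hw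
    · simpa using this
    · intro x hx
      rw [mem_closedBall, dist_eq_norm]
      have h1 := hb x hx
      have h2 := hb 0 (mem_ball_self one_pos)
      linarith [norm_sub_le (H x) (H 0)]
  · intro w
    have := sub_smul_dslope H 0 w
    simp only [sub_zero, smul_eq_mul] at this
    linear_combination -this

theorem expansion {f : ℂ → ℂ} {p a b : ℂ} {r C : ℝ} (hr : 0 < r)
    (hd : ∀ ζ, r < ‖ζ - p‖ → DifferentiableAt ℂ f ζ) (hb : ∀ ζ, r < ‖ζ - p‖ → ‖f ζ‖ ≤ C)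
    (h : Asym f a b) :
    ‖a‖ ≤ C ∧ ‖b‖ ≤ 2 * C * r ∧ ∃ d : ℂ, ‖d‖ ≤ 4 * C * r ^ 2 ∧ ∀ ζ, r < ‖ζ - p‖ →
      ‖f ζ - a‖ ≤ 2 * C * r / ‖ζ - p‖ ∧
      ‖f ζ - a - b / (ζ - p)‖ ≤ 4 * C * r ^ 2 / ‖ζ - p‖ ^ 2 ∧
      ‖f ζ - a - b / (ζ - p) - d / (ζ - p) ^ 2‖ ≤ 8 * C * r ^ 3 / ‖ζ - p‖ ^ 3 := by
  set H := Function.update (fun w => f (p + r / w)) 0 a with hH
  have hHd : DifferentiableOn ℂ H (ball 0 1) := exterior_diff hr hd h.tendsto
  have hev : ∀ᶠ ζ in cocompact ℂ, r < ‖ζ - p‖ := by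
    filter_upwards [(isCompact_closedBall p r).compl_mem_cocompact] with ζ hζ
    simpa [dist_eq_norm] using hζ
  have haC : ‖a‖ ≤ C := le_of_tendsto h.tendsto.norm (hev.mono fun ζ hζ => hb ζ hζ)
  have hH0 : H 0 = a := by simp [hH]
  have hHb : ∀ w ∈ ball (0 : ℂ) 1, ‖H w‖ ≤ C := by
    intro w hw
    rcases eq_or_ne w 0 with rfl | h0
    · rwa [hH0]
    · rw [hH, Function.update_of_ne h0]
      exact hb _ (lt_norm_inv_aux hr hw h0)
  obtain ⟨d1, b1, e1⟩ := dslope_step hHd hHb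
  obtain ⟨d2, b2, e2⟩ := dslope_step d1 b1
  obtain ⟨-, b3, e3⟩ := dslope_step d2 b2
  set H1 := dslope H 0
  set H2 := dslope H1 0
  set H3 := dslope H2 0
  have hrC : (r : ℂ) ≠ 0 := by exact_mod_cast hr.ne'
  have key : ∀ ζ, r < ‖ζ - p‖ → (r / (ζ - p) ∈ ball (0 : ℂ) 1 ∧ ζ - p ≠ 0 ∧
      f ζ = H (r / (ζ - p))) := by
    intro ζ hζ
    have h1 : ζ - p ≠ 0 := norm_pos_iff.1 (hr.trans hζ)
    refine ⟨?_, h1, ?_⟩
    · rw [mem_ball_zero_iff, norm_div, Complex.norm_real, Real.norm_eq_abs, abs_of_pos hr,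
        div_lt_one (hr.trans hζ)]
      exact hζ
    · rw [hH, Function.update_of_ne (div_ne_zero hrC h1)]
      congr 1
      field_simp
      ring
  have hb1 : b = r * H1 0 := by
    have t1 : Tendsto (fun ζ : ℂ => r / (ζ - p)) (cocompact ℂ) (𝓝 0) := by
      simpa [div_eq_mul_inv] using (tendsto_inv_sub p).const_mul (r : ℂ)
    have c1 : ContinuousAt H1 0 :=
      d1.continuousOn.continuousAt (ball_mem_nhds _ one_pos)
    have t2 := ((tendsto_mul_inv_sub p).const_mul (r : ℂ)).mul (c1.tendsto.comp t1)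
    rw [mul_one] at t2
    refine tendsto_nhds_unique h (t2.congr' ?_)
    filter_upwards [hev] with ζ hζ
    obtain ⟨-, k2, k3⟩ := key ζ hζ
    rw [k3, e1, hH0]
    simp only [Function.comp]
    field_simp
    ring
  have hnr : ‖(r : ℂ)‖ = r := by rw [Complex.norm_real, Real.norm_eq_abs, abs_of_pos hr]
  refine ⟨haC, ?_, (r : ℂ) ^ 2 * H2 0, ?_, ?_⟩
  · rw [hb1, norm_mul, hnr]
    have := b1 0 (mem_ball_self one_pos)
    nlinarith
  · rw [norm_mul, norm_pow, hnr]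
    have := b2 0 (mem_ball_self one_pos)
    nlinarith [sq_nonneg r]
  · intro ζ hζ
    obtain ⟨k1, k2, k3⟩ := key ζ hζ
    set w := (r : ℂ) / (ζ - p) with hw
    have hwn : ‖w‖ = r / ‖ζ - p‖ := by rw [hw, norm_div, hnr]
    have hpos : 0 < ‖ζ - p‖ := norm_pos_iff.2 k2
    have q1 : f ζ - a = w * H1 w := by rw [k3, e1 w, hH0]; ring
    have q2 : f ζ - a - b / (ζ - p) = w ^ 2 * H2 w := by
      rw [q1, e2 w, hb1, hw]; ring
    have q3 : f ζ - a - b / (ζ - p) - (r : ℂ) ^ 2 * H2 0 / (ζ - p) ^ 2 = w ^ 3 * H3 w := by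
      have : (r : ℂ) ^ 2 * H2 0 / (ζ - p) ^ 2 = w ^ 2 * H2 0 := by rw [hw, div_pow]; ring
      rw [q2, e3 w, this]; ring
    refine ⟨?_, ?_, ?_⟩
    · rw [q1, norm_mul, hwn]
      calc r / ‖ζ - p‖ * ‖H1 w‖ ≤ r / ‖ζ - p‖ * (2 * C) := by gcongr; exact b1 w k1
        _ = _ := by ring
    · rw [q2, norm_mul, norm_pow, hwn]
      calc (r / ‖ζ - p‖) ^ 2 * ‖H2 w‖ ≤ (r / ‖ζ - p‖) ^ 2 * (2 * (2 * C)) := by
            gcongr; exact b2 w k1
        _ = _ := by ring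
    · rw [q3, norm_mul, norm_pow, hwn]
      calc (r / ‖ζ - p‖) ^ 3 * ‖H3 w‖ ≤ (r / ‖ζ - p‖) ^ 3 * (2 * (2 * (2 * C))) := by
            gcongr; exact b3 w k1
        _ = _ := by ring

theorem norm_le_of_sphere {f : ℂ → ℂ} {a : ℂ} {R C : ℝ} (hR : 0 < R)
    (hd : ∀ ζ, R < ‖ζ‖ → DifferentiableAt ℂ f ζ) (ha : Tendsto f (cocompact ℂ) (𝓝 a))
    (hb : ∀ ζ, ‖ζ‖ = 2 * R → ‖f ζ‖ ≤ C) {ζ : ℂ} (hζ : 2 * R ≤ ‖ζ‖) : ‖f ζ‖ ≤ C := by
  have hHd := exterior_diff (p := 0) hR (by simpa using hd) ha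
  set H := Function.update (fun w => f (0 + R / w)) 0 a with hH
  have hRC : (R : ℂ) ≠ 0 := by exact_mod_cast hR.ne'
  have hnr : ‖(R : ℂ)‖ = R := by rw [Complex.norm_real, Real.norm_eq_abs, abs_of_pos hR]
  have hζ0 : ζ ≠ 0 := norm_pos_iff.1 (by linarith)
  have h1 : DiffContOnCl ℂ H (ball 0 (1 / 2)) := by
    refine DifferentiableOn.diffContOnCl (hHd.mono ?_)
    rw [closure_ball _ (by norm_num)]
    exact closedBall_subset_ball (by norm_num)
  have h2 : ‖H (R / ζ)‖ ≤ C := by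
    refine Complex.norm_le_of_forall_mem_frontier_norm_le isBounded_ball h1 ?_ ?_
    · intro w hw
      rw [frontier_ball _ (by norm_num), mem_sphere_zero_iff_norm] at hw
      have hw0 : w ≠ 0 := norm_pos_iff.1 (by rw [hw]; norm_num)
      rw [hH, Function.update_of_ne hw0]
      apply hb
      rw [zero_add, norm_div, hnr, hw]; ring
    · rw [closure_ball _ (by norm_num), mem_closedBall_zero_iff, norm_div, hnr,
        div_le_iff₀ (by linarith)]
      linarith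
  rw [hH, Function.update_of_ne (div_ne_zero hRC hζ0)] at h2
  have : (0 : ℂ) + R / (R / ζ) = ζ := by field_simp; ring
  rwa [this] at h2

theorem exists_normalized {U : Set ℂ} {p : ℂ} {r c : ℝ} (hr : 0 < r) (hc : 0 < c)
    (h : Cap (U ∩ ball p r) (c * r)) :
    ∃ g ∈ Alg (U ∩ ball p r), Asym g 0 1 ∧ (∀ ζ, ζ ∉ U ∩ ball p r → ‖g ζ‖ ≤ 4 / (c * r)) ∧
      ∃ d : ℂ, ‖d‖ ≤ 8 * r / c ∧ ∀ ζ, r < ‖ζ - p‖ →
        ‖g ζ‖ ≤ 4 / (c * ‖ζ - p‖) ∧
        ‖g ζ - (ζ - p)⁻¹‖ ≤ 8 * r / (c * ‖ζ - p‖ ^ 2) ∧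
        ‖g ζ - (ζ - p)⁻¹ - d / (ζ - p) ^ 2‖ ≤ 16 * r ^ 2 / (c * ‖ζ - p‖ ^ 3) := by
  have hcr : 0 < c * r := mul_pos hc hr
  obtain ⟨f, hf, a, b, h1, h2, h3⟩ := h (c * r / 2) (by linarith)
  have hout : ∀ ζ, r < ‖ζ - p‖ → ζ ∉ U ∩ ball p r := by
    rintro ζ hζ ⟨-, h⟩
    rw [mem_ball, dist_eq_norm] at h
    linarith
  obtain ⟨e1, -, d, e3, e4⟩ := expansion (C := 1) hr
    (fun ζ hζ => Alg.differentiableAt hf (hout ζ hζ)) (fun ζ hζ => h2 ζ (hout ζ hζ)) h1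
  have hbpos : 0 < ‖b‖ := by linarith
  have hb0 : b ≠ 0 := norm_pos_iff.1 hbpos
  have hbi : ‖b⁻¹‖ ≤ 2 / (c * r) := by
    rw [norm_inv, inv_le_comm₀ hbpos (by positivity), inv_div]
    exact h3.le
  refine ⟨fun ζ => b⁻¹ * (f ζ - a), Alg.const_mul (Alg.sub hf (const_mem_Alg _ a)) _, ?_, ?_,
    b⁻¹ * d, ?_, ?_⟩
  · have := (h1.sub (Asym.const a)).const_mul b⁻¹
    simpa [hb0] using this
  · intro ζ hζ
    rw [norm_mul]
    have : ‖f ζ - a‖ ≤ 2 := by linarith [norm_sub_le (f ζ) a, h2 ζ hζ]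
    calc ‖b⁻¹‖ * ‖f ζ - a‖ ≤ 2 / (c * r) * 2 := by gcongr
      _ = _ := by ring
  · rw [norm_mul]
    calc ‖b⁻¹‖ * ‖d‖ ≤ 2 / (c * r) * (4 * 1 * r ^ 2) := by gcongr
      _ = _ := by field_simp; ring
  · intro ζ hζ
    obtain ⟨k1, k2, k3⟩ := e4 ζ hζ
    have hpos : 0 < ‖ζ - p‖ := hr.trans hζ
    have hne : ζ - p ≠ 0 := norm_pos_iff.1 hpos
    refine ⟨?_, ?_, ?_⟩
    · rw [norm_mul]
      calc ‖b⁻¹‖ * ‖f ζ - a‖ ≤ 2 / (c * r) * (2 * 1 * r / ‖ζ - p‖) := by gcongr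
        _ = _ := by field_simp; ring
    · have : b⁻¹ * (f ζ - a) - (ζ - p)⁻¹ = b⁻¹ * (f ζ - a - b / (ζ - p)) := by
        field_simp
      rw [this, norm_mul]
      calc ‖b⁻¹‖ * ‖f ζ - a - b / (ζ - p)‖ ≤ 2 / (c * r) * (4 * 1 * r ^ 2 / ‖ζ - p‖ ^ 2) := by
            gcongr
        _ = _ := by field_simp; ring
    · have : b⁻¹ * (f ζ - a) - (ζ - p)⁻¹ - b⁻¹ * d / (ζ - p) ^ 2 =
          b⁻¹ * (f ζ - a - b / (ζ - p) - d / (ζ - p) ^ 2) := by
        field_simp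
      rw [this, norm_mul]
      calc ‖b⁻¹‖ * ‖f ζ - a - b / (ζ - p) - d / (ζ - p) ^ 2‖
          ≤ 2 / (c * r) * (8 * 1 * r ^ 3 / ‖ζ - p‖ ^ 3) := by gcongr
        _ = _ := by field_simp; ring

end Pool.Agent.NonPeak
end

-- merged part: Pool.Agent.Work.MP_f4b807_an.Pompeiu
section
set_option autoImplicit false

open Set Filter Topology Metric MeasureTheory Complex

namespace Pool.Agent.NonPeak

/-- Twice the d-bar derivative. -/
noncomputable def D2 (Φ : ℂ → ℂ) (ζ : ℂ) : ℂ := fderiv ℝ Φ ζ 1 + I * fderiv ℝ Φ ζ I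

theorem continuous_D2 {Φ : ℂ → ℂ} (hΦ : ContDiff ℝ 1 Φ) : Continuous (D2 Φ) := by
  have h := hΦ.continuous_fderiv one_ne_zero
  unfold D2
  fun_prop

theorem rot_identity (L : ℂ →L[ℝ] ℂ) (θ : ℝ) :
    (L 1 + I * L I) = exp (θ * I) * (L (exp (θ * I)) + I * L (I * exp (θ * I))) := by
  have h1 : exp (θ * I) = (Real.cos θ) • (1 : ℂ) + (Real.sin θ) • I := by
    rw [exp_mul_I]; simp
  have h2 : I * exp (θ * I) = (-Real.sin θ) • (1 : ℂ) + (Real.cos θ) • I := by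
    rw [exp_mul_I]; simp
    linear_combination (sin (θ : ℂ)) * I_mul_I
  have h3 : L (exp (θ * I)) = Real.cos θ * L 1 + Real.sin θ * L I := by
    rw [h1, map_add, map_smul, map_smul]; simp
  have h4 : L (I * exp (θ * I)) = -Real.sin θ * L 1 + Real.cos θ * L I := by
    rw [h2, map_add, map_smul, map_smul]; simp
  rw [h3, h4, exp_mul_I]
  simp only [ofReal_cos, ofReal_sin]
  have h5 := sin_sq_add_cos_sq (θ : ℂ)
  linear_combination (-(L 1 + I * L I)) * h5 +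
    (sin (θ : ℂ) ^ 2 * L 1 - sin (θ : ℂ) * cos (θ : ℂ) * L I) * I_mul_I

theorem pompeiu_trunc {Φ : ℂ → ℂ} (hΦ : ContDiff ℝ 1 Φ) {z : ℂ} {R : ℝ} (hR : 0 < R)
    (hs : ∀ w, R < ‖w‖ → D2 Φ (z + w) = 0) :
    ∫ w, D2 Φ (z + w) / w = ∫ θ in (-Real.pi)..Real.pi, (Φ (z + R * exp (θ * I)) - Φ z) := by
  have hc := hΦ.continuous_fderiv one_ne_zero
  have hd : ∀ x, HasFDerivAt Φ (fderiv ℝ Φ x) x := fun x =>
    (hΦ.differentiable one_ne_zero x).hasFDerivAt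
  set A : ℝ × ℝ → ℂ := fun p => fderiv ℝ Φ (z + p.1 * exp (p.2 * I)) (exp (p.2 * I)) with hA
  set B : ℝ × ℝ → ℂ := fun p => fderiv ℝ Φ (z + p.1 * exp (p.2 * I)) (I * exp (p.2 * I)) with hB
  have cA : Continuous A := by rw [hA]; fun_prop
  have cB : Continuous B := by rw [hB]; fun_prop
  have hint : ∀ F : ℝ × ℝ → ℂ, Continuous F →
      IntegrableOn F (Ioc 0 R ×ˢ Ioc (-Real.pi) Real.pi) (volume.prod volume) := by
    intro F hF
    refine (hF.continuousOn.integrableOn_compact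
      (isCompact_Icc.prod isCompact_Icc (s := Icc 0 R) (t := Icc (-Real.pi) Real.pi))).mono_set ?_
    exact prod_mono Ioc_subset_Icc_self Ioc_subset_Icc_self
  have hpi : -Real.pi ≤ Real.pi := by linarith [Real.pi_pos]
  rw [← Complex.integral_comp_polarCoord_symm, polarCoord_target]
  have e1 : ∫ p in Ioi (0 : ℝ) ×ˢ Ioo (-Real.pi) Real.pi,
      p.1 • (D2 Φ (z + Complex.polarCoord.symm p) / Complex.polarCoord.symm p) =
      ∫ p in Ioc (0 : ℝ) R ×ˢ Ioo (-Real.pi) Real.pi,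
      p.1 • (D2 Φ (z + Complex.polarCoord.symm p) / Complex.polarCoord.symm p) := by
    refine setIntegral_eq_of_subset_of_forall_sdiff_eq_zero
      (measurableSet_Ioi.prod measurableSet_Ioo) (prod_mono Ioc_subset_Ioi_self le_rfl) ?_
    rintro p ⟨⟨h1, h2⟩, h3⟩
    have : R < p.1 := by
      by_contra h
      exact h3 ⟨⟨h1, not_lt.1 h⟩, h2⟩
    rw [hs, zero_div, smul_zero]
    rw [Complex.norm_polarCoord_symm]
    exact this.trans_le (le_abs_self _)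
  have e2 : ∫ p in Ioc (0 : ℝ) R ×ˢ Ioo (-Real.pi) Real.pi,
      p.1 • (D2 Φ (z + Complex.polarCoord.symm p) / Complex.polarCoord.symm p) =
      ∫ p in Ioc (0 : ℝ) R ×ˢ Ioo (-Real.pi) Real.pi, (A p + I * B p) := by
    refine setIntegral_congr_fun (measurableSet_Ioc.prod measurableSet_Ioo) ?_
    rintro p ⟨⟨h1, -⟩, -⟩
    have h2 : Complex.polarCoord.symm p = p.1 * exp (p.2 * I) := by
      rw [Complex.polarCoord_symm_apply, exp_mul_I]; simp
    have h3 : (p.1 : ℂ) ≠ 0 := by exact_mod_cast h1.ne'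
    have h4 := exp_ne_zero (p.2 * I)
    simp only [h2, D2, hA, hB, real_smul]
    rw [rot_identity _ p.2]
    field_simp
  have e3 : ∫ p in Ioc (0 : ℝ) R ×ˢ Ioo (-Real.pi) Real.pi, (A p + I * B p) =
      ∫ p in Ioc (0 : ℝ) R ×ˢ Ioc (-Real.pi) Real.pi, (A p + I * B p) := by
    refine setIntegral_congr_set ?_
    rw [Measure.volume_eq_prod]
    exact Measure.set_prod_ae_eq (ae_eq_refl _) Ioo_ae_eq_Ioc
  rw [e1, e2, e3, Measure.volume_eq_prod,
    integral_add (hint A cA) ((hint B cB).const_mul I), integral_const_mul]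
  have eB : ∫ p in Ioc (0 : ℝ) R ×ˢ Ioc (-Real.pi) Real.pi, B p ∂(volume.prod volume) = 0 := by
    rw [setIntegral_prod _ (hint B cB)]
    refine setIntegral_eq_zero_of_forall_eq_zero fun ρ hρ => ?_
    have h3 : (ρ : ℂ) ≠ 0 := by exact_mod_cast hρ.1.ne'
    have hder : ∀ θ ∈ uIcc (-Real.pi) Real.pi,
        HasDerivAt (fun θ : ℝ => Φ (z + ρ * exp (θ * I))) (ρ * B (ρ, θ)) θ := by
      intro θ _
      have h1 : HasDerivAt (fun θ : ℝ => z + ρ * exp (θ * I)) (ρ * (exp (θ * I) * (1 * I))) θ :=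
        ((((hasDerivAt_id (θ : ℂ)).mul_const I).cexp.const_mul (ρ : ℂ)).const_add z).comp_ofReal
      refine ((hd _).comp_hasDerivAt θ h1).congr_deriv ?_
      have : (ρ : ℂ) * (exp (θ * I) * (1 * I)) = ρ • (I * exp (θ * I)) := by
        rw [real_smul]; ring
      rw [this, map_smul, real_smul]
    have h5 := intervalIntegral.integral_eq_sub_of_hasDerivAt hder
      (Continuous.intervalIntegrable (by fun_prop) _ _)
    have h6 : exp ((-Real.pi : ℝ) * I) = exp (Real.pi * I) := by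
      rw [exp_pi_mul_I]; push_cast; rw [neg_mul, exp_neg, exp_pi_mul_I]; norm_num
    rw [h6, sub_self, intervalIntegral.integral_const_mul,
      intervalIntegral.integral_of_le hpi] at h5
    exact (mul_eq_zero.1 h5).resolve_left h3
  have eA : ∫ p in Ioc (0 : ℝ) R ×ˢ Ioc (-Real.pi) Real.pi, A p ∂(volume.prod volume) =
      ∫ θ in (-Real.pi)..Real.pi, (Φ (z + R * exp (θ * I)) - Φ z) := by
    have h1 := hint A cA
    rw [IntegrableOn, ← Measure.prod_restrict] at h1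
    rw [← Measure.prod_restrict, integral_prod_symm _ h1, intervalIntegral.integral_of_le hpi]
    refine setIntegral_congr_fun measurableSet_Ioc fun θ _ => ?_
    have hder : ∀ ρ ∈ uIcc 0 R,
        HasDerivAt (fun ρ : ℝ => Φ (z + ρ * exp (θ * I))) (A (ρ, θ)) ρ := by
      intro ρ _
      have h1 : HasDerivAt (fun ρ : ℝ => z + ρ * exp (θ * I)) (1 * exp (θ * I)) ρ :=
        (((hasDerivAt_id (ρ : ℂ)).mul_const _).const_add z).comp_ofReal
      refine ((hd _).comp_hasDerivAt ρ h1).congr_deriv ?_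
      rw [one_mul]
    have h5 := intervalIntegral.integral_eq_sub_of_hasDerivAt hder
      (Continuous.intervalIntegrable (by fun_prop) _ _)
    rw [intervalIntegral.integral_of_le hR.le] at h5
    simpa using h5
  rw [eA, eB, mul_zero, add_zero]

theorem pompeiu {Φ : ℂ → ℂ} (hΦ : ContDiff ℝ 1 Φ) (h0 : Tendsto Φ (cocompact ℂ) (𝓝 0)) {R₀ : ℝ}
    (hs : ∀ ζ, R₀ < ‖ζ‖ → D2 Φ ζ = 0) (z : ℂ) :
    ∫ ζ, D2 Φ ζ / (ζ - z) = -(2 * Real.pi) * Φ z := by
  have e0 : ∫ ζ, D2 Φ ζ / (ζ - z) = ∫ w, D2 Φ (z + w) / w := by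
    rw [← integral_add_left_eq_self _ z]
    simp
  rw [e0]
  have hpi : -Real.pi ≤ Real.pi := by linarith [Real.pi_pos]
  refine eq_of_forall_dist_le fun ε hε => ?_
  have hε' : 0 < ε / (2 * Real.pi) := by have := Real.pi_pos; positivity
  obtain ⟨C, hC, hC'⟩ := mem_cocompact.1 (Metric.tendsto_nhds.1 h0 _ hε')
  obtain ⟨R₁, hR₁, hR₁'⟩ := hC.isBounded.exists_pos_norm_lt
  set R := |R₀| + R₁ + ‖z‖ with hR
  have hRpos : 0 < R := by positivity
  have hc := hΦ.continuous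
  rw [pompeiu_trunc hΦ hRpos, intervalIntegral.integral_sub
    (Continuous.intervalIntegrable (by fun_prop) _ _) (by simp), intervalIntegral.integral_const,
    dist_eq_norm]
  · have : (∫ θ in (-Real.pi)..Real.pi, Φ (z + R * exp (θ * I))) - (Real.pi - -Real.pi) • Φ z -
        -(2 * Real.pi) * Φ z = ∫ θ in (-Real.pi)..Real.pi, Φ (z + R * exp (θ * I)) := by
      rw [real_smul]; push_cast; ring
    rw [this]
    refine (intervalIntegral.norm_integral_le_of_norm_le_const (C := ε / (2 * Real.pi)) ?_).trans ?_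
    · intro θ _
      have h1 : z + R * exp (θ * I) ∈ Cᶜ := by
        intro h
        have h2 := hR₁' _ h
        have h3 : ‖(R : ℂ) * exp (θ * I)‖ = R := by
          rw [norm_mul, norm_exp_ofReal_mul_I, norm_real, Real.norm_eq_abs, abs_of_pos hRpos,
            mul_one]
        have h4 := norm_sub_le (z + R * exp (θ * I)) z
        rw [add_sub_cancel_left, h3] at h4
        linarith [abs_nonneg R₀]
      have := hC' h1
      simp only [mem_ofPred_eq, dist_zero_right] at this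
      exact this.le
    · rw [abs_of_nonneg (by linarith)]
      have := Real.pi_pos
      apply le_of_eq; field_simp; ring
  · intro w hw
    apply hs
    have h4 := norm_sub_le (z + w) z
    rw [add_sub_cancel_left] at h4
    linarith [le_abs_self R₀]

theorem integrableOn_inv_norm (R : ℝ) : IntegrableOn (fun w : ℂ => ‖w‖⁻¹) (ball 0 R) := by
  refine integrableOn_ball_of_norm_le_rpow (C := 1) (α := 1) (by simp) (by simp) ?_ ?_
  · refine Eventually.of_forall fun w => ?_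
    simp [Real.rpow_neg_one]
  · exact measurable_norm.inv.aestronglyMeasurable

end Pool.Agent.NonPeak
end

-- merged part: Pool.Agent.Work.MP_f4b807_an.Kernel
section
set_option autoImplicit false

open Set Filter Topology Metric MeasureTheory

namespace Pool.Agent.NonPeak

theorem exists_weights (t : Finset ℂ) (ρ : ℝ) : ∃ w : ℂ → ℂ → ℝ, (∀ p, Measurable (w p)) ∧
    (∀ p ζ, 0 ≤ w p ζ) ∧ (∀ p ∈ t, ∀ ζ, w p ζ ≤ 1) ∧ (∀ p ζ, ζ ∉ ball p ρ → w p ζ = 0) ∧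
    ∀ ζ, (∃ p ∈ t, ζ ∈ ball p ρ) → ∑ p ∈ t, w p ζ = 1 := by
  set u : ℂ → ℂ → ℝ := fun p => (ball p ρ).indicator 1 with hu
  have hum : ∀ p, Measurable (u p) := fun p => measurable_one.indicator measurableSet_ball
  have hu0 : ∀ p ζ, 0 ≤ u p ζ := fun p ζ => indicator_nonneg (fun _ _ => zero_le_one) ζ
  refine ⟨fun p ζ => u p ζ / ∑ q ∈ t, u q ζ, fun p => ?_, fun p ζ => ?_, fun p hp ζ => ?_,
    fun p ζ hζ => ?_, ?_⟩
  · exact (hum p).div (Finset.measurable_fun_sum _ fun q _ => hum q)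
  · exact div_nonneg (hu0 p ζ) (Finset.sum_nonneg fun q _ => hu0 q ζ)
  · exact div_le_one_of_le₀ (Finset.single_le_sum (fun q _ => hu0 q ζ) hp)
      (Finset.sum_nonneg fun q _ => hu0 q ζ)
  · simp [hu, hζ]
  · rintro ζ ⟨p, hp, hζ⟩
    rw [← Finset.sum_div, div_self]
    have h1 : u p ζ = 1 := by simp [hu, hζ]
    have := Finset.single_le_sum (f := fun q => u q ζ) (fun q _ => hu0 q ζ) hp
    linarith

theorem integrable_inv_norm_sub (z : ℂ) (R : ℝ) :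
    Integrable fun ζ : ℂ => (ball (0 : ℂ) R).indicator (fun w => ‖w‖⁻¹) (ζ - z) :=
  ((integrable_indicator_iff measurableSet_ball).2 (integrableOn_inv_norm R)).comp_sub_right z

theorem integrable_div_sub {φ : ℂ → ℂ} {C R : ℝ} (hm : AEStronglyMeasurable φ volume)
    (hb : ∀ ζ, ‖φ ζ‖ ≤ C) (hs : ∀ ζ, R < ‖ζ‖ → φ ζ = 0) (z : ℂ) :
    Integrable fun ζ => φ ζ / (ζ - z) := by
  refine ((integrable_inv_norm_sub z (R + ‖z‖ + 1)).const_mul C).mono' ?_
    (Eventually.of_forall fun ζ => ?_)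
  · exact hm.mul (measurable_id.sub_const z).inv.aestronglyMeasurable
  · by_cases h : ζ - z ∈ ball (0 : ℂ) (R + ‖z‖ + 1)
    · rw [indicator_of_mem h, norm_div, div_eq_mul_inv]
      gcongr
      exact hb ζ
    · rw [indicator_of_notMem h, hs, zero_div, norm_zero, mul_zero]
      rw [mem_ball_zero_iff, not_lt] at h
      linarith [norm_sub_le ζ z]

/-- The scale-free majorant of the kernel error. -/
noncomputable def maj (w : ℂ) : ℝ := if ‖w‖ < 8 then 1 + ‖w‖⁻¹ else 1 / ‖w‖ ^ 3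

theorem maj_nonneg (w : ℂ) : 0 ≤ maj w := by
  unfold maj; split_ifs <;> positivity

theorem integrable_maj : Integrable maj := by
  have h1 : Integrable fun w : ℂ => (ball (0 : ℂ) 8).indicator (fun w => 1 + ‖w‖⁻¹) w :=
    (integrable_indicator_iff measurableSet_ball).2
      ((integrableOn_const measure_ball_lt_top.ne).add (integrableOn_inv_norm 8))
  have h2 : Integrable fun w : ℂ => (1 + ‖w‖) ^ (-3 : ℝ) :=
    integrable_one_add_norm (by simp; norm_num)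
  refine (h1.add (h2.const_mul 8)).mono' ?_ (Eventually.of_forall fun w => ?_)
  · refine (Measurable.ite (measurableSet_lt measurable_norm measurable_const) ?_ ?_
      ).aestronglyMeasurable <;> fun_prop
  · rw [Real.norm_eq_abs, abs_of_nonneg (maj_nonneg w)]
    have h3 : (1 + ‖w‖) ^ (-3 : ℝ) = 1 / (1 + ‖w‖) ^ 3 := by
      rw [Real.rpow_neg (by positivity), one_div]
      congr 1
      exact_mod_cast Real.rpow_natCast (1 + ‖w‖) 3
    simp only [Pi.add_apply, h3]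
    unfold maj
    split_ifs with h
    · rw [indicator_of_mem (mem_ball_zero_iff.2 h)]
      have : 0 ≤ 8 * (1 / (1 + ‖w‖) ^ 3) := by positivity
      linarith
    · rw [indicator_of_notMem (by simpa using h), zero_add, mul_one_div,
        div_le_div_iff₀ (by push Not at h; positivity) (by positivity)]
      push Not at h
      have : (1 + ‖w‖) ^ 3 ≤ (2 * ‖w‖) ^ 3 := by gcongr; linarith
      linarith

theorem integral_maj_scale (z : ℂ) {s : ℝ} (hs : 0 < s) :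
    Integrable (fun ζ : ℂ => maj (s⁻¹ • (z - ζ))) ∧
      ∫ ζ : ℂ, maj (s⁻¹ • (z - ζ)) = s ^ 2 * ∫ w, maj w := by
  constructor
  · exact (integrable_maj.comp_smul (inv_ne_zero hs.ne')).comp_sub_left z
  · rw [integral_sub_left_eq_self (fun w => maj (s⁻¹ • w)) volume z, Measure.integral_comp_smul]
    simp

theorem kernel_far {c s : ℝ} (hc : 0 < c) (hs : 0 < s) {p d ζ z g : ℂ} (hd : ‖d‖ ≤ 8 * s / c)
    (hζ : ζ ∈ ball p (4 * s)) (hz : 8 * s ≤ ‖z - ζ‖)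
    (hg : s < ‖z - p‖ → ‖g‖ ≤ 4 / (c * ‖z - p‖) ∧
        ‖g - (z - p)⁻¹‖ ≤ 8 * s / (c * ‖z - p‖ ^ 2) ∧
        ‖g - (z - p)⁻¹ - d / (z - p) ^ 2‖ ≤ 16 * s ^ 2 / (c * ‖z - p‖ ^ 3)) :
    ‖g + (ζ - p - d) * g ^ 2 - (z - ζ)⁻¹‖ ≤
      (128 / c + 64 * (4 + 8 / c) * (4 / c + 1) / c + 64) * s ^ 2 / ‖z - ζ‖ ^ 3 := by
  rw [mem_ball, dist_eq_norm] at hζ
  set ρ := ‖z - ζ‖ with hρ
  set t := ‖z - p‖ with ht
  have h1 : ρ ≤ t + ‖ζ - p‖ := by
    have : z - ζ = (z - p) - (ζ - p) := by ring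
    rw [hρ, this]; exact norm_sub_le _ _
  have hρ0 : 0 < ρ := by linarith
  have ht1 : ρ / 2 ≤ t := by linarith
  have ht0 : 0 < t := by linarith
  obtain ⟨g1, g2, g3⟩ := hg (by linarith)
  have hzp : z - p ≠ 0 := norm_pos_iff.1 ht0
  have hzζ : z - ζ ≠ 0 := norm_pos_iff.1 hρ0
  have e : g + (ζ - p - d) * g ^ 2 - (z - ζ)⁻¹ = (g - (z - p)⁻¹ - d / (z - p) ^ 2) +
      (ζ - p - d) * ((g - (z - p)⁻¹) * (g + (z - p)⁻¹)) -
        (ζ - p) ^ 2 / ((z - p) ^ 2 * (z - ζ)) := by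
    field_simp
    ring
  have b1 : ‖ζ - p - d‖ ≤ 4 * s + 8 * s / c := by linarith [norm_sub_le (ζ - p) d]
  have b2 : ‖g + (z - p)⁻¹‖ ≤ 4 / (c * t) + t⁻¹ := by
    have := norm_add_le g (z - p)⁻¹
    rw [norm_inv] at this
    linarith
  have b3 : ‖(ζ - p - d) * ((g - (z - p)⁻¹) * (g + (z - p)⁻¹))‖ ≤
      (4 * s + 8 * s / c) * (8 * s / (c * t ^ 2) * (4 / (c * t) + t⁻¹)) := by
    rw [norm_mul, norm_mul]
    gcongr
  have b4 : ‖(ζ - p) ^ 2 / ((z - p) ^ 2 * (z - ζ))‖ ≤ (4 * s) ^ 2 / (t ^ 2 * ρ) := by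
    rw [norm_div, norm_mul, norm_pow, norm_pow]
    gcongr
  rw [e]
  calc _ ≤ 16 * s ^ 2 / (c * t ^ 3) +
        (4 * s + 8 * s / c) * (8 * s / (c * t ^ 2) * (4 / (c * t) + t⁻¹)) +
        (4 * s) ^ 2 / (t ^ 2 * ρ) := by
        refine (norm_sub_le _ _).trans (add_le_add ((norm_add_le _ _).trans ?_) b4)
        exact add_le_add g3 b3
    _ ≤ 16 * s ^ 2 / (c * (ρ / 2) ^ 3) +
        (4 * s + 8 * s / c) * (8 * s / (c * (ρ / 2) ^ 2) * (4 / (c * (ρ / 2)) + (ρ / 2)⁻¹)) +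
        (4 * s) ^ 2 / ((ρ / 2) ^ 2 * ρ) := by gcongr
    _ = _ := by field_simp; ring

theorem kernel_near {c s : ℝ} (hc : 0 < c) (hs : 0 < s) {p d ζ g : ℂ} (hd : ‖d‖ ≤ 8 * s / c)
    (hζ : ζ ∈ ball p (4 * s)) (hg : ‖g‖ ≤ 4 / (c * s)) :
    ‖g + (ζ - p - d) * g ^ 2‖ ≤ (4 / c + (4 + 8 / c) * 16 / c ^ 2) / s := by
  rw [mem_ball, dist_eq_norm] at hζ
  have b1 : ‖ζ - p - d‖ ≤ 4 * s + 8 * s / c := by linarith [norm_sub_le (ζ - p) d]
  calc _ ≤ ‖g‖ + ‖ζ - p - d‖ * ‖g‖ ^ 2 := by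
        refine (norm_add_le _ _).trans ?_
        rw [norm_mul, norm_pow]
    _ ≤ 4 / (c * s) + (4 * s + 8 * s / c) * (4 / (c * s)) ^ 2 := by gcongr
    _ = _ := by field_simp; ring

theorem kernel_bound {c : ℝ} (hc : 0 < c) : ∃ C : ℝ, 0 < C ∧ ∀ (s : ℝ) (p d ζ z g : ℂ), 0 < s →
    ‖d‖ ≤ 8 * s / c → ζ ∈ ball p (4 * s) → ‖g‖ ≤ 4 / (c * s) →
    (s < ‖z - p‖ → ‖g‖ ≤ 4 / (c * ‖z - p‖) ∧
        ‖g - (z - p)⁻¹‖ ≤ 8 * s / (c * ‖z - p‖ ^ 2) ∧
        ‖g - (z - p)⁻¹ - d / (z - p) ^ 2‖ ≤ 16 * s ^ 2 / (c * ‖z - p‖ ^ 3)) →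
    ‖g + (ζ - p - d) * g ^ 2 - (z - ζ)⁻¹‖ ≤ C / s * maj (s⁻¹ • (z - ζ)) := by
  set C₁ := 128 / c + 64 * (4 + 8 / c) * (4 / c + 1) / c + 64 with hC₁
  set C₂ := 4 / c + (4 + 8 / c) * 16 / c ^ 2 with hC₂
  have h1 : 0 < C₁ := by positivity
  have h2 : 0 < C₂ := by positivity
  refine ⟨C₁ + C₂ + 1, by positivity, fun s p d ζ z g hs hd hζ hg hg' => ?_⟩
  have hn : ‖s⁻¹ • (z - ζ)‖ = ‖z - ζ‖ / s := by
    rw [norm_smul, norm_inv, Real.norm_eq_abs, abs_of_pos hs]; ring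
  unfold maj
  rw [hn]
  split_ifs with h
  · have h3 := kernel_near hc hs hd hζ hg
    refine (norm_sub_le _ _).trans ?_
    rw [norm_inv, inv_div]
    have h4 : (C₁ + C₂ + 1) / s * (1 + s / ‖z - ζ‖) =
        (C₁ + C₂ + 1) / s + (C₁ + C₂ + 1) * ‖z - ζ‖⁻¹ := by field_simp
    rw [h4]
    refine add_le_add (h3.trans ?_) ?_
    · rw [← hC₂]; exact div_le_div_of_nonneg_right (by linarith) hs.le
    · exact le_mul_of_one_le_left (by positivity) (by linarith)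
  · rw [not_lt, le_div_iff₀ hs] at h
    have h3 := kernel_far hc hs hd hζ h hg'
    have h0 : 0 < ‖z - ζ‖ := by linarith
    refine h3.trans ?_
    have h4 : (C₁ + C₂ + 1) / s * (1 / (‖z - ζ‖ / s) ^ 3) =
        (C₁ + C₂ + 1) * s ^ 2 / ‖z - ζ‖ ^ 3 := by field_simp
    rw [h4, ← hC₁]
    exact div_le_div_of_nonneg_right (mul_le_mul_of_nonneg_right (by linarith) (by positivity))
      (by positivity)

theorem maj_le_of_far {s D : ℝ} (hs : 0 < s) (hD : 8 * s ≤ D) {w : ℂ} (hw : D ≤ ‖w‖) :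
    maj (s⁻¹ • w) ≤ s ^ 3 / D ^ 3 := by
  have hn : ‖s⁻¹ • w‖ = ‖w‖ / s := by
    rw [norm_smul, norm_inv, Real.norm_eq_abs, abs_of_pos hs]; ring
  have h0 : 0 < D := by linarith
  unfold maj
  rw [hn, if_neg (by rw [not_lt, le_div_iff₀ hs]; linarith), div_pow, one_div_div]
  gcongr

end Pool.Agent.NonPeak
end

-- merged part: Pool.Agent.Work.MP_f4b807_an.Duality
section
set_option autoImplicit false

open Set Filter Topology Metric MeasureTheory
open scoped CompactlySupported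

namespace Pool.Agent.NonPeak

theorem exists_measure_of_pos {Y : Type} [TopologicalSpace Y] [T2Space Y] [CompactSpace Y]
    [MeasurableSpace Y] [BorelSpace Y] (φ : C(Y, ℝ) →L[ℝ] ℝ) (h0 : ∀ h, 0 ≤ h → 0 ≤ φ h)
    (h1 : φ 1 = 1) : ∃ m : Measure Y, IsProbabilityMeasure m ∧ ∀ h : C(Y, ℝ), ∫ y, h y ∂m = φ h := by
  let L : C_c(Y, ℝ) →ₗ[ℝ] ℝ :=
    { toFun := fun g => φ g.toContinuousMap
      map_add' := fun g g' => by rw [← map_add]; rfl
      map_smul' := fun c g => by rw [RingHom.id_apply, ← map_smul]; rfl }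
  let Λ : C_c(Y, ℝ) →ₚ[ℝ] ℝ := PositiveLinearMap.mk₀ L fun g hg => h0 _ fun y => hg y
  have key : ∀ h : C(Y, ℝ), ∫ y, h y ∂(RealRMK.rieszMeasure Λ) = φ h := fun h =>
    RealRMK.integral_rieszMeasure Λ ⟨h, HasCompactSupport.of_compactSpace _⟩
  refine ⟨RealRMK.rieszMeasure Λ, ?_, key⟩
  have := key 1
  rw [h1] at this
  simp only [ContinuousMap.one_apply, integral_const, smul_eq_mul, mul_one] at this
  exact isProbabilityMeasure_iff_real.2 this

theorem exists_measure {Y : Set ℂ} (hY : IsCompact Y) (hne : Y.Nonempty)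
    (A : Submodule ℂ (ℂ → ℂ)) (hA : ∀ f ∈ A, ContinuousOn f Y) (hAm : ∀ f ∈ A, Measurable f)
    (L : A →ₗ[ℂ] ℂ) {N : ℝ}
    (hN : 0 < N) (hL : ∀ f : A, ∀ C : ℝ, (∀ y ∈ Y, ‖f.1 y‖ ≤ C) → ‖L f‖ ≤ N * C) :
    ∃ m : Measure ℂ, IsProbabilityMeasure m ∧ m Yᶜ = 0 ∧
      ∀ f : A, ‖L f‖ ≤ N * ∫ ζ, ‖f.1 ζ‖ ∂m := by
  have : CompactSpace Y := isCompact_iff_compactSpace.1 hY
  have : Nonempty Y := hne.to_subtype
  set O : Set C(Y, ℝ) := {h | ∀ y, h y < 0} with hO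
  set T : Set C(Y, ℝ) := {h | ∃ f : A, ∀ y : Y, N * ‖f.1 y‖ - (L f).re ≤ h y} with hT
  have hOc : Convex ℝ O := by
    intro h hh g hg a b ha hb hab y
    simp only [ContinuousMap.add_apply, ContinuousMap.smul_apply, smul_eq_mul]
    rcases ha.eq_or_lt with rfl | ha'
    · rw [zero_add] at hab; subst hab; simpa using hg y
    · nlinarith [hh y, hg y]
  have hOo : IsOpen O := by
    have : O = {h : C(Y, ℝ) | MapsTo h univ (Iio 0)} := by
      ext h; simp [hO, MapsTo]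
    rw [this]
    exact ContinuousMap.isOpen_setOfPred_mapsTo isCompact_univ isOpen_Iio
  have hTc : Convex ℝ T := by
    rintro h ⟨f, hf⟩ g ⟨f', hf'⟩ a b ha hb hab
    refine ⟨(a : ℂ) • f + (b : ℂ) • f', fun y => ?_⟩
    have h1 : ‖((a : ℂ) • f + (b : ℂ) • f').1 y‖ ≤ a * ‖f.1 y‖ + b * ‖f'.1 y‖ := by
      have : ((a : ℂ) • f + (b : ℂ) • f').1 y = a * f.1 y + b * f'.1 y := rfl
      rw [this]
      refine (norm_add_le _ _).trans ?_
      simp [abs_of_nonneg ha, abs_of_nonneg hb]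
    have h2 : (L ((a : ℂ) • f + (b : ℂ) • f')).re = a * (L f).re + b * (L f').re := by simp
    simp only [ContinuousMap.add_apply, ContinuousMap.smul_apply, smul_eq_mul]
    rw [h2]
    nlinarith [hf y, hf' y, mul_le_mul_of_nonneg_left (hf y) ha,
      mul_le_mul_of_nonneg_left (hf' y) hb]
  have hdisj : Disjoint O T := by
    rw [Set.disjoint_left]
    rintro h hh ⟨f, hf⟩
    obtain ⟨y, hy, hmax⟩ := hY.exists_isMaxOn hne (hA f f.2).norm
    have h1 := hL f ‖f.1 y‖ fun x hx => hmax hx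
    have h2 := hf ⟨y, hy⟩
    have h3 := hh ⟨y, hy⟩
    have h4 := Complex.re_le_norm (L f)
    simp only at h2
    linarith
  obtain ⟨φ, u, hφO, hφT⟩ := geometric_hahn_banach_open hOc hOo hTc hdisj
  have hpos : ∀ h : C(Y, ℝ), 0 ≤ h → h ∈ T := fun h hh => ⟨0, fun y => by simpa using hh y⟩
  have hu0 : u ≤ 0 := by simpa using hφT 0 (hpos 0 le_rfl)
  have hneg : ∀ ε : ℝ, 0 < ε → -(ε * φ 1) < u := by
    intro ε hε
    have := hφO (-(ε • (1 : C(Y, ℝ)))) fun y => by simpa using hε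
    simpa using this
  have hφ1 : 0 < φ 1 := by linarith [hneg 1 one_pos]
  have hu : 0 ≤ u := by
    by_contra h
    push Not at h
    have := hneg (-u / φ 1) (div_pos (by linarith) hφ1)
    rw [div_mul_cancel₀ _ hφ1.ne'] at this
    linarith
  obtain ⟨m, hm, hint⟩ := exists_measure_of_pos ((φ 1)⁻¹ • φ)
    (fun h hh => by
      simp only [smul_apply, smul_eq_mul]
      exact mul_nonneg (inv_nonneg.2 hφ1.le) (hu.trans (hφT h (hpos h hh))))
    (by simp [hφ1.ne'])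
  have hre : ∀ f : A, (L f).re ≤ N * ∫ y : Y, ‖f.1 y‖ ∂m := by
    intro f
    let g : C(Y, ℝ) := ⟨fun y => ‖f.1 y‖, (hA f f.2).domRestrict.norm⟩
    have h1 : N • g - (L f).re • (1 : C(Y, ℝ)) ∈ T := ⟨f, fun y => by simp [g]⟩
    have h2 := hu.trans (hφT _ h1)
    have h3 := hint g
    simp only [map_sub, map_smul, smul_eq_mul, smul_apply] at h2 h3
    have h4 : ∫ y : Y, ‖f.1 y‖ ∂m = (φ 1)⁻¹ * φ g := h3
    rw [h4, ← mul_assoc, mul_comm N, mul_assoc, ← div_eq_inv_mul, le_div_iff₀ hφ1]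
    linarith
  refine ⟨m.map Subtype.val, Measure.isProbabilityMeasure_map (by fun_prop), ?_, fun f => ?_⟩
  · rw [Measure.map_apply measurable_subtype_coe hY.measurableSet.compl]
    simp
  · rw [integral_map (by fun_prop) (hAm f f.2).norm.aestronglyMeasurable]
    obtain ⟨ω, hω1, hω⟩ := Complex.exists_norm_eq_mul_self (L f)
    have h1 := hre (ω • f)
    have h2 : ∀ y : ℂ, ‖(ω • f).1 y‖ = ‖f.1 y‖ := fun y => by
      have : (ω • f).1 y = ω * f.1 y := rfl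
      rw [this, norm_mul, hω1, one_mul]
    simp only [h2, map_smul, smul_eq_mul, ← hω, Complex.ofReal_re] at h1
    exact h1

theorem integral_norm_le_L2 {m : Measure ℂ} [IsProbabilityMeasure m] (F : Lp ℂ 2 m) :
    ∫ ζ, ‖F ζ‖ ∂m ≤ ‖F‖ := by
  rw [integral_norm_eq_lintegral_enorm (Lp.aestronglyMeasurable F), Lp.norm_def,
    ← eLpNorm_one_eq_lintegral_enorm]
  exact ENNReal.toReal_mono (Lp.eLpNorm_ne_top F)
    (eLpNorm_le_eLpNorm_of_exponent_le (by norm_num) (Lp.aestronglyMeasurable F))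

theorem exists_density {m : Measure ℂ} [IsProbabilityMeasure m]
    (A : Submodule ℂ (ℂ → ℂ)) (hA : ∀ f ∈ A, MemLp f 2 m) (L : A →ₗ[ℂ] ℂ) {N : ℝ}
    (hN : 0 < N) (hL : ∀ f : A, ‖L f‖ ≤ N * ∫ ζ, ‖f.1 ζ‖ ∂m) :
    ∃ u : ℂ → ℂ, Measurable u ∧ Integrable u m ∧ ∫ ζ, ‖u ζ‖ ∂m ≤ N ∧
      ∀ f : A, L f = ∫ ζ, f.1 ζ * u ζ ∂m := by
  let T : A →ₗ[ℂ] Lp ℂ 2 m :=
    { toFun := fun f => (hA f f.2).toLp f.1
      map_add' := fun f g => MemLp.toLp_add _ _
      map_smul' := fun c f => MemLp.toLp_const_smul _ _ }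
  have hT : ∀ f : A, T f =ᵐ[m] f.1 := fun f => (hA f f.2).coeFn_toLp
  have hLT : ∀ f : A, ‖L f‖ ≤ N * ‖T f‖ := by
    intro f
    refine (hL f).trans (mul_le_mul_of_nonneg_left ?_ hN.le)
    refine le_trans (le_of_eq (integral_congr_ae ?_)) (integral_norm_le_L2 (T f))
    filter_upwards [hT f] with ζ hζ
    rw [hζ]
  have hker : LinearMap.ker T ≤ LinearMap.ker L := by
    intro f hf
    have := hLT f
    rw [LinearMap.mem_ker.1 hf, norm_zero, mul_zero] at this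
    exact norm_le_zero_iff.1 this
  let L' : LinearMap.range T →ₗ[ℂ] ℂ :=
    ((LinearMap.ker T).liftQ L hker).comp T.quotKerEquivRange.symm.toLinearMap
  have hL' : ∀ f : A, L' ⟨T f, LinearMap.mem_range_self T f⟩ = L f := by
    intro f
    simp [L', LinearMap.quotKerEquivRange_symm_apply_image]
  obtain ⟨g, hg1, hg2⟩ := Module.Dual.exists_extension_of_le_seminorm (LinearMap.range T) L'
    (p := (NNReal.mk N hN.le) • normSeminorm ℂ (Lp ℂ 2 m)) (by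
      rintro ⟨_, f, rfl⟩
      rw [hL']
      exact hLT f)
  have hg3 : ∀ x, ‖g x‖ ≤ N * ‖x‖ := hg2
  let g' : StrongDual ℂ (Lp ℂ 2 m) := LinearMap.mkContinuous g N hg3
  let v : Lp ℂ 2 m := (InnerProductSpace.toDual ℂ (Lp ℂ 2 m)).symm g'
  have hv : ‖v‖ ≤ N := by
    rw [LinearIsometryEquiv.norm_map]
    exact LinearMap.mkContinuous_norm_le _ hN.le _
  refine ⟨fun ζ => (starRingEnd ℂ) (v ζ), ?_, ?_, ?_, fun f => ?_⟩
  · exact Complex.continuous_conj.measurable.comp (Lp.stronglyMeasurable v).measurable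
  · exact Complex.conjLIE.toLinearIsometry.toContinuousLinearMap.integrable_comp
      ((Lp.memLp v).integrable (by norm_num))
  · simpa using (integral_norm_le_L2 v).trans hv
  · rw [← hL', ← hg1]
    have : g (T f) = inner ℂ v (T f) := (InnerProductSpace.toDual_symm_apply (y := g')).symm
    rw [this, L2.inner_def]
    refine integral_congr_ae ?_
    filter_upwards [hT f] with ζ hζ
    rw [hζ]
    simp

theorem exists_Lam (G : Set ℂ) : ∃ L : (Subalgebra.toSubmodule (Alg G)) →ₗ[ℂ] ℂ,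
    ∀ f : Subalgebra.toSubmodule (Alg G), ∀ a b : ℂ, Asym f.1 a b → L f = b := by
  have h : ∀ f : Subalgebra.toSubmodule (Alg G), ∃ a b : ℂ, Asym f.1 a b := fun f => by
    obtain ⟨a, b, h, -⟩ := Alg.exists_asym (G := G) f.2
    exact ⟨a, b, h⟩
  choose a b hab using h
  refine ⟨⟨⟨b, fun f g => ?_⟩, fun c f => ?_⟩, fun f a' b' h => ((hab f).unique h).2⟩
  · exact ((hab (f + g)).unique ((hab f).add (hab g))).2
  · exact ((hab (c • f)).unique ((hab f).const_mul c)).2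

/-- Duality: a small capacity is witnessed by a measure of small variation. -/
theorem exists_dual {G : Set ℂ} (hGo : IsOpen G) (hGb : Bornology.IsBounded G) {N : ℝ}
    (hN : 0 < N) (hcap : ¬ Cap G N) :
    ∃ (m : Measure ℂ) (u : ℂ → ℂ) (R : ℝ), IsProbabilityMeasure m ∧
      (∀ᵐ ζ ∂m, ζ ∉ G ∧ ‖ζ‖ ≤ R) ∧ Measurable u ∧ Integrable u m ∧ ∫ ζ, ‖u ζ‖ ∂m ≤ N ∧
      ∀ f ∈ Alg G, ∀ a b : ℂ, Asym f a b → ∫ ζ, f ζ * u ζ ∂m = b := by
  obtain ⟨R, hR, hGR⟩ := hGb.exists_pos_norm_lt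
  obtain ⟨L, hL⟩ := exists_Lam G
  set Y : Set ℂ := Gᶜ ∩ closedBall 0 (2 * R) with hY
  have hYc : IsCompact Y := (isCompact_closedBall _ _).inter_left hGo.isClosed_compl
  have hout : ∀ ζ : ℂ, R ≤ ‖ζ‖ → ζ ∉ G := fun ζ hζ h => by linarith [hGR ζ h]
  have hne : Y.Nonempty := by
    refine ⟨R, hout _ ?_, ?_⟩
    · simp [abs_of_pos hR]
    · simp [abs_of_pos hR]; linarith
  have hcont : ∀ f ∈ Subalgebra.toSubmodule (Alg G), ContinuousOn f Y :=
    fun f hf z hz => (Alg.continuousAt (G := G) hf hz.1).continuousWithinAt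
  have hmeas : ∀ f ∈ Subalgebra.toSubmodule (Alg G), Measurable f :=
    fun f hf => Alg.measurable (G := G) hf
  have hb : ∀ f : Subalgebra.toSubmodule (Alg G), ∀ C : ℝ, (∀ y ∈ Y, ‖f.1 y‖ ≤ C) →
      ‖L f‖ ≤ N * C := by
    intro f C hC
    have hf : f.1 ∈ Alg G := f.2
    obtain ⟨a, b, hab, -⟩ := Alg.exists_asym hf
    rw [hL f a b hab]
    have hall : ∀ ζ, ζ ∉ G → ‖f.1 ζ‖ ≤ C := by
      intro ζ hζ
      by_cases h : ‖ζ‖ ≤ 2 * R
      · exact hC ζ ⟨hζ, mem_closedBall_zero_iff.2 h⟩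
      · refine norm_le_of_sphere hR (fun x hx => Alg.differentiableAt hf (hout x hx.le))
          hab.tendsto (fun x hx => hC x ⟨hout x (by linarith), ?_⟩) (not_le.1 h).le
        exact mem_closedBall_zero_iff.2 hx.le
    simp only [Cap, not_forall, not_exists, not_and, not_lt] at hcap
    obtain ⟨t, ht, hcap⟩ := hcap
    refine le_of_forall_pos_le_add fun ε hε => ?_
    obtain ⟨y, hy⟩ := hne
    have hC0 : 0 ≤ C := (norm_nonneg _).trans (hC y hy)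
    have hC' : 0 < C + ε / N := by positivity
    have h1 := hcap (fun ζ => ((C + ε / N : ℝ) : ℂ)⁻¹ * f.1 ζ) (Alg.const_mul hf _) _ _
      (hab.const_mul _) (fun ζ hζ => by
        rw [norm_mul, norm_inv, Complex.norm_real, Real.norm_eq_abs, abs_of_pos hC',
          ← div_eq_inv_mul, div_le_one hC']
        have : 0 < ε / N := by positivity
        linarith [hall ζ hζ])
    rw [norm_mul, norm_inv, Complex.norm_real, Real.norm_eq_abs, abs_of_pos hC',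
      ← div_eq_inv_mul, div_le_iff₀ hC'] at h1
    have h2 : N * (C + ε / N) = N * C + ε := by field_simp
    nlinarith
  obtain ⟨m, hm, hmY, hmL⟩ := exists_measure hYc hne _ hcont hmeas L hN hb
  have hae : ∀ᵐ ζ ∂m, ζ ∈ Y := hmY
  have hmem : ∀ f ∈ Subalgebra.toSubmodule (Alg G), MemLp f 2 m := by
    intro f hf
    obtain ⟨C, hC⟩ := hYc.exists_bound_of_continuousOn (hcont f hf)
    exact MemLp.of_bound (hmeas f hf).aestronglyMeasurable C (hae.mono hC)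
  obtain ⟨u, u1, u2, u3, u4⟩ := exists_density _ hmem L hN hmL
  refine ⟨m, u, 2 * R, hm, hae.mono fun ζ hζ => ⟨hζ.1, mem_closedBall_zero_iff.1 hζ.2⟩,
    u1, u2, u3, fun f hf a b hab => ?_⟩
  rw [← u4 ⟨f, hf⟩, hL ⟨f, hf⟩ a b hab]

end Pool.Agent.NonPeak
end

-- merged part: Pool.Agent.Work.MP_f4b807_an.Unique
section
set_option autoImplicit false

open Set Filter Topology Metric MeasureTheory

namespace Pool.Agent.NonPeak

theorem integrable_prod_kernel {m : Measure ℂ} [IsFiniteMeasure m] {R : ℝ}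
    (hR : ∀ᵐ ζ ∂m, ‖ζ‖ ≤ R) {w : ℂ → ℂ} (hw : Integrable w m) {φ : ℂ → ℂ} {C R' : ℝ}
    (hm : Measurable φ) (hb : ∀ z, ‖φ z‖ ≤ C) (hs : ∀ z, R' < ‖z‖ → φ z = 0) :
    Integrable (fun p : ℂ × ℂ => w p.1 * (φ p.2 / (p.2 - p.1))) (m.prod volume) := by
  have hmeas : AEStronglyMeasurable (fun p : ℂ × ℂ => w p.1 * (φ p.2 / (p.2 - p.1)))
      (m.prod volume) :=
    hw.aestronglyMeasurable.comp_fst.mul (Measurable.aestronglyMeasurable (by fun_prop))
  rw [integrable_prod_iff hmeas]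
  refine ⟨Eventually.of_forall fun ζ =>
    (integrable_div_sub hm.aestronglyMeasurable hb hs ζ).const_mul (w ζ), ?_⟩
  set J : ℝ := ∫ z : ℂ, (ball (0 : ℂ) (R' + R + 1)).indicator (fun w => ‖w‖⁻¹) z with hJ
  refine (hw.norm.mul_const (C * J)).mono' hmeas.norm.integral_prod_right' ?_
  filter_upwards [hR] with ζ hζ
  rw [Real.norm_eq_abs, abs_of_nonneg (integral_nonneg fun z => norm_nonneg _)]
  simp only [norm_mul]
  rw [integral_const_mul]
  refine mul_le_mul_of_nonneg_left ?_ (norm_nonneg _)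
  rw [hJ, ← integral_sub_right_eq_self
    ((ball (0 : ℂ) (R' + R + 1)).indicator fun w => ‖w‖⁻¹) ζ, ← integral_const_mul]
  refine integral_mono (integrable_div_sub hm.aestronglyMeasurable hb hs ζ).norm
    ((integrable_inv_norm_sub ζ _).const_mul C) fun z => ?_
  by_cases h : z - ζ ∈ ball (0 : ℂ) (R' + R + 1)
  · simp only [indicator_of_mem h, div_eq_mul_inv, norm_mul, norm_inv]
    gcongr
    exact hb z
  · simp only [indicator_of_notMem h]
    rw [hs, zero_div, norm_zero, mul_zero]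
    rw [mem_ball_zero_iff, not_lt] at h
    linarith [norm_sub_le z ζ]

theorem ae_integrable_cauchy {m : Measure ℂ} [IsFiniteMeasure m] {R : ℝ}
    (hR : ∀ᵐ ζ ∂m, ‖ζ‖ ≤ R) {w : ℂ → ℂ} (hw : Integrable w m) :
    ∀ᵐ z : ℂ, Integrable (fun ζ => w ζ * (ζ - z)⁻¹) m := by
  have h : ∀ n : ℕ, ∀ᵐ z : ℂ, Integrable
      (fun ζ => w ζ * ((closedBall (0 : ℂ) n).indicator 1 z / (z - ζ))) m := fun n =>
    (integrable_prod_kernel hR hw (φ := (closedBall (0 : ℂ) n).indicator 1) (C := 1) (R' := n)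
      (measurable_one.indicator measurableSet_closedBall)
      (fun z => by by_cases hz : z ∈ closedBall (0 : ℂ) n <;> simp [hz])
      (fun z hz => indicator_of_notMem (by simpa using hz) _)).prod_left_ae
  filter_upwards [ae_all_iff.2 h] with z hz
  obtain ⟨n, hn⟩ := exists_nat_ge ‖z‖
  refine (hz n).neg.congr (Eventually.of_forall fun ζ => ?_)
  simp only [Pi.neg_apply, indicator_of_mem (mem_closedBall_zero_iff.2 hn), Pi.one_apply]
  rw [← neg_sub ζ z, div_neg]; ring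

theorem ae_zero_of_cauchy {m : Measure ℂ} [IsFiniteMeasure m] {R : ℝ}
    (hR : ∀ᵐ ζ ∂m, ‖ζ‖ ≤ R) {w : ℂ → ℂ} (hw : Integrable w m)
    (h : ∀ᵐ z : ℂ, ∫ ζ, w ζ * (ζ - z)⁻¹ ∂m = 0) : ∀ᵐ ζ ∂m, w ζ = 0 := by
  refine ae_eq_zero_of_integral_contDiff_smul_eq_zero hw.locallyIntegrable fun g hg hgs => ?_
  set Φ : ℂ → ℂ := fun z => g z with hΦ
  have hΦd : ContDiff ℝ 1 Φ := Complex.ofRealCLM.contDiff.comp (hg.of_le (by simp))
  have hΦs : HasCompactSupport Φ := hgs.comp_left (g := fun x : ℝ => (x : ℂ)) (by simp)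
  have hDs : HasCompactSupport (D2 Φ) := by
    refine (hΦs.fderiv ℝ).comp_left (g := fun L : ℂ →L[ℝ] ℂ => L 1 + Complex.I * L Complex.I) ?_
    simp
  obtain ⟨R', hR'⟩ := hDs.isCompact.isBounded.exists_norm_le
  have hs : ∀ z, R' < ‖z‖ → D2 Φ z = 0 := fun z hz =>
    image_eq_zero_of_notMem_tsupport fun h => by linarith [hR' z h]
  obtain ⟨C, hC⟩ := (continuous_D2 hΦd).bounded_above_of_compact_support hDs
  have h0 : Tendsto Φ (cocompact ℂ) (𝓝 0) := by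
    refine tendsto_const_nhds.congr' ?_
    filter_upwards [hΦs.isCompact.compl_mem_cocompact] with z hz
    exact (image_eq_zero_of_notMem_tsupport hz).symm
  have hint := integrable_prod_kernel hR hw (continuous_D2 hΦd).measurable hC hs
  have hswap := integral_integral_swap (f := fun ζ z => w ζ * (D2 Φ z / (z - ζ))) hint
  have e1 : ∫ ζ, ∫ z, w ζ * (D2 Φ z / (z - ζ)) ∂volume ∂m =
      -(2 * Real.pi) * ∫ ζ, g ζ • w ζ ∂m := by
    rw [← integral_const_mul]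
    congr 1
    ext ζ
    rw [integral_const_mul, pompeiu hΦd h0 hs, Complex.real_smul]
    ring
  have e2 : ∫ z, ∫ ζ, w ζ * (D2 Φ z / (z - ζ)) ∂m ∂volume = 0 := by
    refine integral_eq_zero_of_ae ?_
    filter_upwards [h] with z hz
    have : ∀ ζ, w ζ * (D2 Φ z / (z - ζ)) = -D2 Φ z * (w ζ * (ζ - z)⁻¹) := fun ζ => by
      rw [← neg_sub ζ z, div_neg]; ring
    simp only [this, integral_const_mul, hz, mul_zero, Pi.zero_apply]
  rw [e1, e2] at hswap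
  have : -(2 * (Real.pi : ℂ)) ≠ 0 := by simp
  exact (mul_eq_zero.1 hswap).resolve_left this

theorem cauchy_eq_one {G : Set ℂ} {c δ : ℝ} (hc : 0 < c) (hδ : 0 < δ) {z : ℂ}
    (hcap : ∀ r, 0 < r → r ≤ δ → Cap (G ∩ ball z r) (c * r)) {m : Measure ℂ} {u : ℂ → ℂ}
    (hsupp : ∀ᵐ ζ ∂m, ζ ∉ G) (hz : ∀ᵐ ζ ∂m, ζ ≠ z) (hu : Measurable u)
    (hi : Integrable (fun ζ => u ζ * (ζ - z)⁻¹) m)
    (hrep : ∀ f ∈ Alg G, ∀ a b : ℂ, Asym f a b → ∫ ζ, f ζ * u ζ ∂m = b) :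
    ∫ ζ, u ζ * (ζ - z)⁻¹ ∂m = 1 := by
  have hr : ∀ j : ℕ, 0 < δ / ((j : ℝ) + 1) := fun j => by positivity
  have hr' : ∀ j : ℕ, δ / ((j : ℝ) + 1) ≤ δ := fun j =>
    div_le_self hδ.le (by linarith [Nat.cast_nonneg (α := ℝ) j])
  have hlim : Tendsto (fun j : ℕ => δ / ((j : ℝ) + 1)) atTop (𝓝 0) := by
    simpa [div_eq_mul_inv] using tendsto_one_div_add_atTop_nhds_zero_nat.const_mul δ
  choose g g1 g2 g3 d g4 g5 using fun j => exists_normalized (hr j) hc (hcap _ (hr j) (hr' j))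
  have hA : ∀ j, g j ∈ Alg G := fun j => Alg_mono inter_subset_left (g1 j)
  have h1 : Tendsto (fun j => ∫ ζ, g j ζ * u ζ ∂m) atTop (𝓝 (∫ ζ, u ζ * (ζ - z)⁻¹ ∂m)) := by
    refine tendsto_integral_of_dominated_convergence (fun ζ => 4 / c * ‖u ζ * (ζ - z)⁻¹‖)
      (fun j => ((Alg.measurable (hA j)).mul hu).aestronglyMeasurable) (hi.norm.const_mul _)
      (fun j => ?_) ?_
    · filter_upwards [hsupp, hz] with ζ h1 h2
      have hpos : 0 < ‖ζ - z‖ := norm_pos_iff.2 (sub_ne_zero.2 h2)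
      have : ‖g j ζ‖ ≤ 4 / (c * ‖ζ - z‖) := by
        rcases lt_or_ge (δ / ((j : ℝ) + 1)) ‖ζ - z‖ with h | h
        · exact (g5 j ζ h).1
        · refine (g3 j ζ fun h => h1 h.1).trans ?_
          gcongr
      rw [norm_mul, norm_mul, norm_inv]
      calc ‖g j ζ‖ * ‖u ζ‖ ≤ 4 / (c * ‖ζ - z‖) * ‖u ζ‖ := by gcongr
        _ = _ := by field_simp
    · filter_upwards [hz] with ζ h2
      have hpos : 0 < ‖ζ - z‖ := norm_pos_iff.2 (sub_ne_zero.2 h2)
      rw [mul_comm (u ζ)]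
      refine Tendsto.mul_const _ (tendsto_iff_norm_sub_tendsto_zero.2 ?_)
      refine squeeze_zero' (g := fun j : ℕ => 8 * (δ / ((j : ℝ) + 1)) / (c * ‖ζ - z‖ ^ 2))
        (Eventually.of_forall fun j => norm_nonneg _) ?_ ?_
      · filter_upwards [hlim.eventually (gt_mem_nhds hpos)] with j hj
        exact (g5 j ζ hj).2.1
      · simpa using (hlim.const_mul 8).div_const (c * ‖ζ - z‖ ^ 2)
  simp only [fun j => hrep _ (hA j) _ _ (g2 j)] at h1
  exact tendsto_nhds_unique h1 tendsto_const_nhds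

theorem Asym.of_quot {G : Set ℂ} (hG : Bornology.IsBounded G) {f g : ℂ → ℂ} {a z : ℂ}
    (hf : Tendsto f (cocompact ℂ) (𝓝 a)) (h : ∀ ζ, ζ ∉ G → f ζ - f z = (ζ - z) * g ζ) :
    Asym g 0 (a - f z) := by
  have h1 := (tendsto_mul_inv_sub z).mul (hf.sub_const (f z))
  rw [one_mul] at h1
  refine h1.congr' ?_
  filter_upwards [eventually_ne_cocompact z, hG.isCompact_closure.compl_mem_cocompact] with ζ h1 h2
  have h3 : ζ - z ≠ 0 := sub_ne_zero.2 h1
  rw [h ζ fun h => h2 (subset_closure h)]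
  field_simp
  ring

theorem unique_lemma {G W : Set ℂ} {c δ : ℝ} (hc : 0 < c) (hδ : 0 < δ)
    (hG : Bornology.IsBounded G) (hW : IsCompact W)
    (hcap : ∀ p ∈ W, ∀ r, 0 < r → r ≤ δ → Cap (G ∩ ball p r) (c * r))
    {m : Measure ℂ} [IsFiniteMeasure m] {u : ℂ → ℂ} {R : ℝ}
    (hsupp : ∀ᵐ ζ ∂m, ζ ∉ G ∧ ‖ζ‖ ≤ R) (hu : Measurable u) (hui : Integrable u m)
    (hrep : ∀ f ∈ Alg G, ∀ a b : ℂ, Asym f a b → ∫ ζ, f ζ * u ζ ∂m = b)
    {k : ℕ → ℂ → ℂ} {κ : ℂ → ℂ} {M : ℝ} (hk : ∀ n, k n ∈ Alg G)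
    (hkM : ∀ n z, z ∉ G → ‖k n z‖ ≤ M)
    (hlim : ∀ᵐ ζ ∂m, Tendsto (fun n => k n ζ) atTop (𝓝 (κ ζ)))
    (h0 : ∀ D ε : ℝ, 0 < D → 0 < ε →
      ∀ᶠ n in atTop, ∀ z, z ∉ G → z ∉ thickening D W → ‖k n z‖ ≤ ε) :
    ∀ᵐ ζ ∂m, κ ζ * u ζ = 0 := by
  have hR : ∀ᵐ ζ ∂m, ‖ζ‖ ≤ R := hsupp.mono fun ζ h => h.2
  have hG' : ∀ᵐ ζ ∂m, ζ ∉ G := hsupp.mono fun ζ h => h.1
  have hκm : AEStronglyMeasurable κ m := aestronglyMeasurable_of_tendsto_ae atTop
    (fun n => (Alg.measurable (hk n)).aestronglyMeasurable) hlim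
  have hκM : ∀ᵐ ζ ∂m, ‖κ ζ‖ ≤ M := by
    filter_upwards [hlim, hG'] with ζ h1 h2
    exact le_of_tendsto' h1.norm fun n => hkM n ζ h2
  refine ae_zero_of_cauchy hR (hui.bdd_mul hκm hκM) ?_
  have hatom : ∀ᵐ z : ℂ, ∀ᵐ ζ ∂m, ζ ≠ z := by
    have h1 := (Measure.countable_meas_level_set_pos (μ := m) (g := id) measurable_id).measure_zero
      (volume : Measure ℂ)
    filter_upwards [compl_mem_ae_iff.2 h1] with z hz
    simp only [mem_compl_iff, mem_ofPred_eq, not_lt, nonpos_iff_eq_zero, id] at hz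
    rw [ae_iff]
    simpa using hz
  choose a b hab using fun n => Alg.exists_asym (hk n)
  have ha : Tendsto a atTop (𝓝 0) := by
    refine Metric.tendsto_nhds.2 fun ε hε => ?_
    filter_upwards [h0 1 (ε / 2) one_pos (half_pos hε)] with n hn
    have : ‖a n‖ ≤ ε / 2 := by
      refine le_of_tendsto (hab n).1.tendsto.norm ?_
      filter_upwards [hG.isCompact_closure.compl_mem_cocompact,
        (hW.isBounded.thickening (δ := 1)).isCompact_closure.compl_mem_cocompact] with ζ h1 h2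
      exact hn ζ (fun h => h1 (subset_closure h)) (fun h => h2 (subset_closure h))
    rw [dist_zero_right]
    linarith
  filter_upwards [hatom, ae_integrable_cauchy hR hui] with z hz hi
  have h1 : Tendsto (fun n => ∫ ζ, k n ζ * u ζ * (ζ - z)⁻¹ ∂m) atTop
      (𝓝 (∫ ζ, κ ζ * u ζ * (ζ - z)⁻¹ ∂m)) := by
    refine tendsto_integral_of_dominated_convergence (fun ζ => M * ‖u ζ * (ζ - z)⁻¹‖)
      (fun n => (((Alg.measurable (hk n)).mul hu).mul
        (measurable_id.sub_const z).inv).aestronglyMeasurable) (hi.norm.const_mul _)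
      (fun n => ?_) ?_
    · filter_upwards [hG'] with ζ h1
      rw [mul_assoc, norm_mul]
      gcongr
      exact hkM n ζ h1
    · filter_upwards [hlim] with ζ h1
      exact (h1.mul_const _).mul_const _
  refine tendsto_nhds_unique h1 ?_
  by_cases hzG : z ∈ G
  · refine ha.congr fun n => ?_
    have := hrep _ (Alg.mul (hk n) (inv_mem_Alg hzG)) _ _ ((hab n).1.mul (Asym.inv z))
    simp only [mul_zero, mul_one, zero_add] at this
    rw [← this]
    congr 1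
    ext ζ
    ring
  · have key : ∀ n, ∫ ζ, k n ζ * u ζ * (ζ - z)⁻¹ ∂m =
        a n - k n z * (1 - ∫ ζ, u ζ * (ζ - z)⁻¹ ∂m) := by
      intro n
      obtain ⟨g, hg, hq⟩ := Alg.exists_quot (hk n) hzG
      have h2 := hrep g hg _ _ (Asym.of_quot hG (hab n).1.tendsto hq)
      have h3 : Integrable (fun ζ => k n ζ * (u ζ * (ζ - z)⁻¹)) m :=
        hi.bdd_mul (Alg.measurable (hk n)).aestronglyMeasurable (hG'.mono (hkM n))
      have h4 : ∫ ζ, g ζ * u ζ ∂m =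
          ∫ ζ, (k n ζ * (u ζ * (ζ - z)⁻¹) - k n z * (u ζ * (ζ - z)⁻¹)) ∂m := by
        refine integral_congr_ae ?_
        filter_upwards [hG', hz] with ζ h1 h2
        have h3 : ζ - z ≠ 0 := sub_ne_zero.2 h2
        rw [← sub_mul, hq ζ h1]
        field_simp
      rw [integral_sub h3 (hi.const_mul _), integral_const_mul, h2] at h4
      simp only [mul_assoc]
      linear_combination -h4
    simp only [key]
    by_cases hzW : z ∈ W
    · rw [cauchy_eq_one hc hδ (hcap z hzW) hG' hz hu hi hrep]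
      simpa using ha
    · have hk0 : Tendsto (fun n => k n z) atTop (𝓝 0) := by
        obtain ⟨D, hD, hDz⟩ := Metric.isOpen_iff.1 hW.isClosed.isOpen_compl z hzW
        refine Metric.tendsto_nhds.2 fun ε hε => ?_
        filter_upwards [h0 D (ε / 2) hD (half_pos hε)] with n hn
        have : ‖k n z‖ ≤ ε / 2 := by
          refine hn z hzG fun h => ?_
          obtain ⟨x, hx, hxz⟩ := mem_thickening_iff.1 h
          exact hDz (mem_ball'.2 hxz) hx
        rw [dist_zero_right]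
        linarith
      simpa using ha.sub (hk0.mul_const _)

end Pool.Agent.NonPeak
end
end

-- merged part: Pool.Agent.Work.MP_f4b807_an.Final
section
-- merged part: Pool.Agent.Work.MP_f4b807_an.Cutoff
section
set_option autoImplicit false

open Set Filter Topology Metric MeasureTheory
open scoped Convolution

namespace Pool.Agent.NonPeak

theorem exists_cutoff_one : ∃ C₀ : ℝ, 0 < C₀ ∧ ∀ E : Set ℂ, MeasurableSet E →
    ∃ ψ : ℂ → ℝ, ContDiff ℝ 1 ψ ∧ (∀ z, ball z (1 / 2) ⊆ E → ψ z = 1) ∧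
      (∀ z, ball z (1 / 2) ⊆ Eᶜ → ψ z = 0) ∧ (∀ z, |ψ z| ≤ 1) ∧ ∀ z, ‖fderiv ℝ ψ z‖ ≤ C₀ := by
  let φ : ContDiffBump (0 : ℂ) := ⟨1 / 4, 1 / 2, by norm_num, by norm_num⟩
  have hφ : ContDiff ℝ 1 (φ.normed volume) := φ.contDiff_normed
  have hi : Integrable (fun t => ‖fderiv ℝ (φ.normed volume) t‖) :=
    ((hφ.continuous_fderiv one_ne_zero).integrable_of_hasCompactSupport
      (φ.hasCompactSupport_normed.fderiv ℝ)).norm
  refine ⟨(∫ t, ‖fderiv ℝ (φ.normed volume) t‖) + 1, ?_, fun E hE => ?_⟩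
  · have : 0 ≤ ∫ t, ‖fderiv ℝ (φ.normed volume) t‖ := integral_nonneg fun t => norm_nonneg _
    linarith
  set g : ℂ → ℝ := E.indicator 1 with hg
  have hg1 : ∀ x, |g x| ≤ 1 := by
    intro x
    by_cases hx : x ∈ E <;> simp [hg, hx]
  have hgl : LocallyIntegrable g volume := (locallyIntegrable_const (1 : ℝ)).indicator hE
  refine ⟨φ.normed volume ⋆[ContinuousLinearMap.lsmul ℝ ℝ, volume] g,
    φ.hasCompactSupport_normed.contDiff_convolution_left _ hφ hgl, ?_, ?_, ?_, ?_⟩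
  · intro z hz
    have h0 : z ∈ E := hz (mem_ball_self (by norm_num))
    rw [φ.normed_convolution_eq_right]
    · simp [hg, h0]
    · intro x hx
      simp [hg, h0, hz hx]
  · intro z hz
    have h0 : z ∉ E := hz (mem_ball_self (by norm_num))
    rw [φ.normed_convolution_eq_right]
    · simp [hg, h0]
    · intro x hx
      have : x ∉ E := hz hx
      simp [hg, h0, this]
  · intro z
    rw [convolution_lsmul, ← Real.norm_eq_abs]
    refine (norm_integral_le_of_norm_le (φ.integrable_normed (μ := volume))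
      (Eventually.of_forall fun t => ?_)).trans (φ.integral_normed (μ := volume)).le
    rw [norm_smul, Real.norm_eq_abs, Real.norm_eq_abs, abs_of_nonneg (φ.nonneg_normed t)]
    exact mul_le_of_le_one_right (φ.nonneg_normed t) (hg1 _)
  · intro z
    rw [(φ.hasCompactSupport_normed.hasFDerivAt_convolution_left _ hφ hgl z).fderiv,
      convolution_def]
    refine (norm_integral_le_of_norm_le hi (Eventually.of_forall fun t => ?_)).trans (by linarith)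
    refine ContinuousLinearMap.opNorm_le_bound _ (norm_nonneg _) fun v => ?_
    rw [ContinuousLinearMap.precompL_apply, ContinuousLinearMap.lsmul_apply, norm_smul]
    calc ‖fderiv ℝ (φ.normed volume) t v‖ * ‖g (z - t)‖
        ≤ ‖fderiv ℝ (φ.normed volume) t‖ * ‖v‖ * 1 := by
          gcongr
          · exact ContinuousLinearMap.le_opNorm _ _
          · exact hg1 _
      _ = _ := mul_one _

theorem exists_cutoff : ∃ C₀ : ℝ, 0 < C₀ ∧ ∀ (W : Set ℂ) (s : ℝ), 0 < s →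
    ∃ ψ : ℂ → ℝ, ContDiff ℝ 1 ψ ∧ (∀ z ∈ thickening s W, ψ z = 1) ∧
      (∀ z, z ∉ thickening (3 * s) W → ψ =ᶠ[𝓝 z] 0) ∧ (∀ z, |ψ z| ≤ 1) ∧
      ∀ z, ‖fderiv ℝ ψ z‖ ≤ C₀ / s := by
  obtain ⟨C₀, hC₀, H⟩ := exists_cutoff_one
  refine ⟨C₀, hC₀, fun W s hs => ?_⟩
  obtain ⟨ψ, h1, h2, h3, h4, h5⟩ := H ((fun y : ℂ => s • y) ⁻¹' thickening (2 * s) W)
    (isOpen_thickening.preimage (by fun_prop)).measurableSet
  have hd : ∀ z y : ℂ, y ∈ ball (s⁻¹ • z) (1 / 2) → dist (s • y) z < s / 2 := by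
    intro z y hy
    have : z = s • (s⁻¹ • z) := by rw [smul_smul, mul_inv_cancel₀ hs.ne', one_smul]
    rw [this, dist_smul₀, Real.norm_eq_abs, abs_of_pos hs]
    rw [mem_ball] at hy
    nlinarith
  refine ⟨fun z => ψ (s⁻¹ • z), h1.comp (by fun_prop), ?_, ?_, fun z => h4 _, ?_⟩
  · intro z hz
    refine h2 _ fun y hy => ?_
    obtain ⟨w, hw, hzw⟩ := mem_thickening_iff.1 hz
    refine Set.mem_preimage.2 (mem_thickening_iff.2 ⟨w, hw, ?_⟩)
    linarith [dist_triangle (s • y) z w, hd z y hy]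
  · intro z hz
    filter_upwards [ball_mem_nhds z (half_pos hs)] with x hx
    refine h3 _ fun y hy h => hz ?_
    obtain ⟨w, hw, hzw⟩ := mem_thickening_iff.1 (Set.mem_preimage.1 h)
    refine mem_thickening_iff.2 ⟨w, hw, ?_⟩
    rw [mem_ball] at hx
    linarith [dist_triangle4 z x (s • y) w, hd x y hy, dist_comm z x, dist_comm x (s • y)]
  · intro z
    have hl : HasFDerivAt (fun z : ℂ => s⁻¹ • z) (s⁻¹ • ContinuousLinearMap.id ℝ ℂ) z :=
      (hasFDerivAt_id z).const_smul s⁻¹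
    have h6 := ((h1.differentiable one_ne_zero (s⁻¹ • z)).hasFDerivAt.comp z hl).fderiv
    have h7 : (fun z => ψ (s⁻¹ • z)) = ψ ∘ fun z : ℂ => s⁻¹ • z := rfl
    rw [h7, h6]
    refine (ContinuousLinearMap.opNorm_comp_le _ _).trans ?_
    rw [norm_smul, ContinuousLinearMap.norm_id, mul_one, norm_inv, Real.norm_eq_abs,
      abs_of_pos hs, div_eq_mul_inv]
    gcongr
    exact h5 _

end Pool.Agent.NonPeak
end

-- merged part: Pool.Agent.Work.MP_f4b807_an.StepV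
section
set_option autoImplicit false

open Set Filter Topology Metric MeasureTheory

namespace Pool.Agent.NonPeak

theorem exists_Phi : ∃ C₀ : ℝ, 0 < C₀ ∧ ∀ (W : Set ℂ) (s : ℝ) (F : ℂ → ℂ) (a : ℂ), 0 < s →
    IsCompact W → (∀ ζ, ζ ∉ W → DifferentiableAt ℂ F ζ) → (∀ ζ, ζ ∉ W → ‖F ζ‖ ≤ 1) →
    Tendsto F (cocompact ℂ) (𝓝 a) →
    ∃ Φ φ : ℂ → ℂ, Continuous φ ∧ (∀ ζ, ‖φ ζ‖ ≤ C₀ / s) ∧
      (∀ ζ, ζ ∉ thickening (3 * s) W → φ ζ = 0) ∧ (∀ z, ‖Φ z‖ ≤ 4) ∧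
      (∀ z, z ∉ thickening (3 * s) W → Φ z = F z - a) ∧ ∀ z, Φ z = ∫ ζ, φ ζ * (z - ζ)⁻¹ := by
  obtain ⟨C₀, hC₀, H⟩ := exists_cutoff
  refine ⟨4 * C₀, by positivity, fun W s F a hs hW hF hb ha => ?_⟩
  obtain ⟨ψ, h1, h2, h3, h4, h5⟩ := H W s hs
  have ha1 : ‖a‖ ≤ 1 :=
    le_of_tendsto ha.norm (Filter.mem_of_superset hW.compl_mem_cocompact fun ζ hζ => hb ζ hζ)
  have hFa : ∀ ζ, ζ ∉ W → ‖F ζ - a‖ ≤ 2 := fun ζ hζ => by
    linarith [norm_sub_le (F ζ) a, hb ζ hζ]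
  set Φ : ℂ → ℂ := fun ζ => (F ζ - a) * (1 - ψ ζ) with hΦ
  have hz : ∀ ζ ∈ W, Φ =ᶠ[𝓝 ζ] fun _ => 0 := by
    intro ζ hζ
    filter_upwards [isOpen_thickening.mem_nhds (self_subset_thickening hs W hζ)] with x hx
    simp [hΦ, h2 x hx]
  have hψC : ContDiff ℝ 1 fun ζ => (1 - ψ ζ : ℂ) :=
    contDiff_const.sub (Complex.ofRealCLM.contDiff.comp h1)
  have hΦd : ContDiff ℝ 1 Φ := by
    refine contDiff_iff_contDiffAt.2 fun ζ => ?_
    by_cases hζ : ζ ∈ W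
    · exact contDiffAt_const.congr_of_eventuallyEq (hz ζ hζ)
    · have hFd : DifferentiableOn ℂ F Wᶜ := fun x hx => (hF x hx).differentiableWithinAt
      have : ContDiffAt ℂ 1 F ζ :=
        (hFd.analyticAt (hW.isClosed.isOpen_compl.mem_nhds hζ)).contDiffAt
      exact ((this.restrict_scalars ℝ).sub contDiffAt_const).mul hψC.contDiffAt
  have hψ1 : ∀ ζ, ‖(1 - ψ ζ : ℂ)‖ ≤ 2 := fun ζ => by
    have := norm_sub_le (1 : ℂ) (ψ ζ)
    rw [norm_one, Complex.norm_real, Real.norm_eq_abs] at this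
    linarith [h4 ζ]
  have hD : ∀ ζ, ζ ∉ W → D2 Φ ζ =
      -(F ζ - a) * (fderiv ℝ ψ ζ 1 + Complex.I * fderiv ℝ ψ ζ Complex.I) := by
    intro ζ hζ
    have d1 : HasFDerivAt (fun ζ => F ζ - a) _ ζ :=
      ((hF ζ hζ).hasDerivAt.hasFDerivAt.restrictScalars ℝ).sub_const a
    have d2 : HasFDerivAt (fun ζ => (1 - ψ ζ : ℂ)) _ ζ :=
      (Complex.ofRealCLM.hasFDerivAt.comp ζ
        (h1.differentiable one_ne_zero ζ).hasFDerivAt).const_sub 1
    have d3 := (d1.mul d2).fderiv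
    have e : Φ = (fun ζ => F ζ - a) * fun ζ => (1 - ψ ζ : ℂ) := rfl
    rw [D2, e, d3]
    simp
    linear_combination ((1 - ψ ζ) * deriv F ζ) * Complex.I_mul_I
  have hDb : ∀ ζ, ‖D2 Φ ζ‖ ≤ 4 * C₀ / s := by
    intro ζ
    by_cases hζ : ζ ∈ W
    · rw [D2, (hz ζ hζ).fderiv_eq]
      simp
      positivity
    · rw [hD ζ hζ, norm_mul, norm_neg]
      have k1 : ∀ v : ℂ, ‖v‖ = 1 → ‖((fderiv ℝ ψ ζ v : ℝ) : ℂ)‖ ≤ C₀ / s := by
        intro v hv
        rw [Complex.norm_real]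
        have := (fderiv ℝ ψ ζ).le_opNorm v
        rw [hv, mul_one] at this
        exact this.trans (h5 ζ)
      have k2 : ‖(fderiv ℝ ψ ζ 1 + Complex.I * fderiv ℝ ψ ζ Complex.I : ℂ)‖ ≤ C₀ / s + C₀ / s := by
        refine (norm_add_le _ _).trans (add_le_add (k1 _ norm_one) ?_)
        rw [norm_mul, Complex.norm_I, one_mul]
        exact k1 _ Complex.norm_I
      calc _ ≤ 2 * (C₀ / s + C₀ / s) := by gcongr; exact hFa ζ hζ
        _ = _ := by ring
  have hD0 : ∀ ζ, ζ ∉ thickening (3 * s) W → D2 Φ ζ = 0 := by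
    intro ζ hζ
    rw [hD ζ fun h => hζ (self_subset_thickening (by positivity) W h), (h3 ζ hζ).fderiv_eq]
    simp
  have hpi := Real.pi_gt_three
  refine ⟨Φ, fun ζ => ((2 * Real.pi : ℝ) : ℂ)⁻¹ * D2 Φ ζ,
    continuous_const.mul (continuous_D2 hΦd), ?_, ?_, ?_, ?_, ?_⟩
  · intro ζ
    rw [norm_mul, norm_inv, Complex.norm_real, Real.norm_eq_abs, abs_of_pos (by positivity)]
    refine le_trans (mul_le_of_le_one_left (norm_nonneg _) ?_) (hDb ζ)
    exact inv_le_one_of_one_le₀ (by linarith)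
  · intro ζ hζ
    simp [hD0 ζ hζ]
  · intro z
    by_cases hζ : z ∈ W
    · rw [(hz z hζ).eq_of_nhds]; simp
    · simp only [hΦ, norm_mul]
      calc _ ≤ (2 : ℝ) * 2 := by gcongr; exacts [hFa z hζ, hψ1 z]
        _ = 4 := by norm_num
  · intro z hz
    simp [hΦ, (h3 z hz).eq_of_nhds]
  · intro z
    obtain ⟨R, hR⟩ := (hW.isBounded.thickening (δ := 3 * s)).exists_norm_le
    have h0 : Tendsto Φ (cocompact ℂ) (𝓝 0) := by
      refine squeeze_zero_norm (a := fun ζ => ‖F ζ - a‖ * 2) (fun ζ => ?_) ?_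
      · simp only [hΦ, norm_mul]
        gcongr
        exact hψ1 ζ
      · simpa using (ha.sub_const a).norm.mul_const 2
    have hp := pompeiu hΦd h0 (R₀ := R) (fun ζ hζ => hD0 ζ fun h => by linarith [hR ζ h]) z
    have : ∀ ζ, ((2 * Real.pi : ℝ) : ℂ)⁻¹ * D2 Φ ζ * (z - ζ)⁻¹ =
        -((2 * Real.pi : ℝ) : ℂ)⁻¹ * (D2 Φ ζ / (ζ - z)) := by
      intro ζ
      rw [← neg_sub ζ z, inv_neg]; ring
    simp_rw [this]
    rw [integral_const_mul, hp]
    have : (Real.pi : ℂ) ≠ 0 := by exact_mod_cast Real.pi_ne_zero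
    push_cast
    field_simp

theorem stepV {c : ℝ} (hc : 0 < c) : ∃ M : ℝ, 0 < M ∧ ∀ (G W : Set ℂ) (δ : ℝ) (F : ℂ → ℂ) (a : ℂ),
    0 < δ → IsCompact W → (∀ p ∈ W, ∀ r, 0 < r → r ≤ δ → Cap (G ∩ ball p r) (c * r)) →
    (∀ ζ, ζ ∉ W → DifferentiableAt ℂ F ζ) → (∀ ζ, ζ ∉ W → ‖F ζ‖ ≤ 1) →
    Tendsto F (cocompact ℂ) (𝓝 a) → ∀ D ε : ℝ, 0 < D → 0 < ε →
    ∃ f ∈ Alg G, (∀ z, z ∉ G → ‖f z‖ ≤ M) ∧
      ∀ z, z ∉ G → z ∉ thickening D W → ‖f z - F z‖ ≤ ε := by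
  obtain ⟨C₀, hC₀, H⟩ := exists_Phi
  obtain ⟨C, hC, HK⟩ := kernel_bound hc
  have hI : 0 ≤ ∫ w, maj w := integral_nonneg maj_nonneg
  refine ⟨5 + C₀ * C * ∫ w, maj w, by positivity, ?_⟩
  intro G W δ F a hδ hW hcap hF hb ha D ε hD hε
  have ha1 : ‖a‖ ≤ 1 :=
    le_of_tendsto ha.norm (Filter.mem_of_superset hW.compl_mem_cocompact fun ζ hζ => hb ζ hζ)
  set V : ℝ := (volume : Measure ℂ).real (thickening 1 W) with hV
  have hV0 : 0 ≤ V := measureReal_nonneg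
  obtain ⟨s, hs, hs1, hs2, hs3, hs4⟩ : ∃ s : ℝ, 0 < s ∧ s ≤ δ ∧ 16 * s ≤ D ∧ 3 * s ≤ 1 ∧
      s * (C₀ * C * V / (D / 2) ^ 3) ≤ ε := by
    have t1 : Tendsto (fun s : ℝ => s * (C₀ * C * V / (D / 2) ^ 3)) (𝓝[>] 0) (𝓝 0) := by
      have : Continuous fun s : ℝ => s * (C₀ * C * V / (D / 2) ^ 3) := by fun_prop
      simpa using (this.tendsto 0).mono_left nhdsWithin_le_nhds
    have e1 := t1.eventually (ge_mem_nhds hε)
    have e2 : ∀ᶠ s : ℝ in 𝓝[>] 0, s ≤ min δ (min (D / 16) (1 / 3)) :=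
      nhdsWithin_le_nhds (ge_mem_nhds (by positivity))
    obtain ⟨s, h1, h2, h3⟩ := (e1.and (e2.and self_mem_nhdsWithin)).exists
    simp only [le_min_iff] at h2
    exact ⟨s, h3, h2.1, by linarith [h2.2.1], by linarith [h2.2.2], h1⟩
  obtain ⟨Φ, φ, hφc, hφb, hφ0, hΦb, hΦF, hΦ⟩ := H W s F a hs hW hF hb ha
  obtain ⟨t₀, ht₀W, ht₀f, ht₀⟩ := finite_cover_balls_of_compact hW hs
  set t := ht₀f.toFinset with ht
  have hex : ∀ p : ℂ, ∃ g : ℂ → ℂ, ∃ d : ℂ, p ∈ t → g ∈ Alg G ∧ ∀ ζ ∈ ball p (4 * s), ∀ z, z ∉ G →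
      ‖g z + (ζ - p - d) * g z ^ 2 - (z - ζ)⁻¹‖ ≤ C / s * maj (s⁻¹ • (z - ζ)) := by
    intro p
    by_cases hp : p ∈ t
    · obtain ⟨g, g1, -, g3, d, g4, g5⟩ := exists_normalized hs hc
        (hcap p (ht₀W (ht₀f.mem_toFinset.1 hp)) s hs hs1)
      exact ⟨g, d, fun _ => ⟨Alg_mono inter_subset_left g1, fun ζ hζ z hz =>
        HK s p d ζ z (g z) hs g4 hζ (g3 z fun h => hz h.1) (g5 z)⟩⟩
    · exact ⟨0, 0, fun h => absurd h hp⟩
  choose g d hg using hex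
  obtain ⟨w, wm, w0, w1, w2, w3⟩ := exists_weights t (4 * s)
  obtain ⟨R, hR⟩ := (hW.isBounded.thickening (δ := 3 * s)).exists_norm_le
  have hφs : HasCompactSupport φ :=
    HasCompactSupport.intro (isCompact_closedBall 0 R) fun ζ hζ => hφ0 ζ fun h =>
      hζ (mem_closedBall_zero_iff.2 (hR ζ h))
  have hwi : ∀ p ∈ t, ∀ u : ℂ → ℂ, Continuous u → Integrable fun ζ => φ ζ * u ζ * w p ζ := by
    intro p hp u hu
    refine Integrable.mul_bdd (c := 1)
      ((hφc.mul hu).integrable_of_hasCompactSupport hφs.mul_right)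
      (Complex.measurable_ofReal.comp (wm p)).aestronglyMeasurable
      (Eventually.of_forall fun ζ => ?_)
    rw [Complex.norm_real, Real.norm_eq_abs, abs_of_nonneg (w0 p ζ)]
    exact w1 p hp ζ
  set f : ℂ → ℂ := fun z => a + ∑ p ∈ t, ((∫ ζ, φ ζ * 1 * w p ζ) * g p z +
    (∫ ζ, φ ζ * (ζ - p - d p) * w p ζ) * g p z ^ 2) with hf
  have hfA : f ∈ Alg G :=
    Alg.add (const_mem_Alg G a) (Alg.sum t fun p hp =>
      Alg.add (Alg.const_mul (hg p hp).1 _) (Alg.const_mul (Alg.pow (hg p hp).1 2) _))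
  have hrep : ∀ z, f z - a - Φ z = ∫ ζ, φ ζ *
      (∑ p ∈ t, w p ζ * (g p z + (ζ - p - d p) * g p z ^ 2) - (z - ζ)⁻¹) := by
    intro z
    have i1 : ∀ p ∈ t, Integrable fun ζ =>
        φ ζ * (g p z + (ζ - p - d p) * g p z ^ 2) * w p ζ :=
      fun p hp => hwi p hp _ (by fun_prop)
    have i2 : Integrable fun ζ => φ ζ * (z - ζ)⁻¹ := by
      have := (integrable_div_sub hφc.aestronglyMeasurable hφb (R := R)
        (fun ζ hζ => hφ0 ζ fun h => by linarith [hR ζ h]) z).neg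
      refine this.congr (Eventually.of_forall fun ζ => ?_)
      simp only [Pi.neg_apply]
      rw [← neg_sub ζ z, inv_neg]; ring
    have e1 : ∀ ζ, φ ζ * (∑ p ∈ t, w p ζ * (g p z + (ζ - p - d p) * g p z ^ 2) - (z - ζ)⁻¹) =
        ∑ p ∈ t, φ ζ * (g p z + (ζ - p - d p) * g p z ^ 2) * w p ζ - φ ζ * (z - ζ)⁻¹ := by
      intro ζ
      rw [mul_sub, Finset.mul_sum]
      congr 1
      exact Finset.sum_congr rfl fun p _ => by ring
    simp_rw [e1]
    rw [integral_sub (integrable_finsetSum _ i1) i2, integral_finsetSum _ i1, ← hΦ z, hf]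
    simp only [add_sub_cancel_left]
    congr 1
    refine Finset.sum_congr rfl fun p hp => ?_
    rw [← integral_mul_const, ← integral_mul_const, ← integral_add
      ((hwi p hp _ continuous_const).mul_const _) ((hwi p hp _ (by fun_prop)).mul_const _)]
    congr 1
    ext ζ
    ring
  have hpt : ∀ z, z ∉ G → ∀ ζ, ‖φ ζ *
      (∑ p ∈ t, w p ζ * (g p z + (ζ - p - d p) * g p z ^ 2) - (z - ζ)⁻¹)‖ ≤
      (thickening (3 * s) W).indicator (fun ζ => C₀ / s * (C / s * maj (s⁻¹ • (z - ζ)))) ζ := by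
    intro z hz ζ
    by_cases hζ : ζ ∈ thickening (3 * s) W
    · rw [indicator_of_mem hζ, norm_mul]
      refine mul_le_mul (hφb ζ) ?_ (norm_nonneg _) (by positivity)
      have hsum : ∑ p ∈ t, w p ζ = 1 := by
        apply w3
        obtain ⟨x, hx, hxζ⟩ := mem_thickening_iff.1 hζ
        obtain ⟨p, hp, hxp⟩ := mem_iUnion₂.1 (ht₀ hx)
        refine ⟨p, ht₀f.mem_toFinset.2 hp, ?_⟩
        rw [mem_ball] at hxp ⊢
        linarith [dist_triangle ζ x p]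
      have hsum' : ∑ p ∈ t, (w p ζ : ℂ) = 1 := by exact_mod_cast hsum
      have e : ∑ p ∈ t, w p ζ * (g p z + (ζ - p - d p) * g p z ^ 2) - (z - ζ)⁻¹ =
          ∑ p ∈ t, w p ζ * (g p z + (ζ - p - d p) * g p z ^ 2 - (z - ζ)⁻¹) := by
        simp_rw [mul_sub (w _ ζ : ℂ)]
        rw [Finset.sum_sub_distrib, ← Finset.sum_mul, hsum', one_mul]
      rw [e]
      refine (norm_sum_le _ _).trans ?_
      calc _ ≤ ∑ p ∈ t, w p ζ * (C / s * maj (s⁻¹ • (z - ζ))) := by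
            refine Finset.sum_le_sum fun p hp => ?_
            rw [norm_mul, Complex.norm_real, Real.norm_eq_abs, abs_of_nonneg (w0 p ζ)]
            by_cases hb : ζ ∈ ball p (4 * s)
            · exact mul_le_mul_of_nonneg_left ((hg p hp).2 ζ hb z hz) (w0 p ζ)
            · simp [w2 p ζ hb]
        _ = _ := by rw [← Finset.sum_mul, hsum, one_mul]
    · rw [indicator_of_notMem hζ, hφ0 ζ hζ, zero_mul, norm_zero]
  refine ⟨f, hfA, fun z hz => ?_, fun z hz hzD => ?_⟩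
  · obtain ⟨i1, i2⟩ := integral_maj_scale z hs
    have k1 : ‖f z - a - Φ z‖ ≤ C₀ * C * ∫ w, maj w := by
      rw [hrep z]
      refine (norm_integral_le_of_norm_le ((i1.const_mul (C / s)).const_mul (C₀ / s))
        (Eventually.of_forall fun ζ => (hpt z hz ζ).trans ?_)).trans ?_
      · exact indicator_le_self' (fun x _ => by have := maj_nonneg (s⁻¹ • (z - x)); positivity) ζ
      · rw [integral_const_mul, integral_const_mul, i2]
        apply le_of_eq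
        field_simp
    have : f z = (f z - a - Φ z) + a + Φ z := by ring
    rw [this]
    linarith [norm_add₃_le (a := f z - a - Φ z) (b := a) (c := Φ z), hΦb z]
  · have hz3 : z ∉ thickening (3 * s) W := fun h => hzD (thickening_mono (by linarith) W h)
    have : f z - F z = f z - a - Φ z := by rw [hΦF z hz3]; ring
    rw [this, hrep z]
    have i1 : Integrable ((thickening 1 W).indicator
        fun _ : ℂ => C₀ / s * (C / s * (s ^ 3 / (D / 2) ^ 3))) :=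
      (integrable_indicator_iff isOpen_thickening.measurableSet).2
        (integrableOn_const hW.isBounded.thickening.measure_lt_top.ne)
    refine (norm_integral_le_of_norm_le i1
      (Eventually.of_forall fun ζ => (hpt z hz ζ).trans ?_)).trans ?_
    · by_cases hζ : ζ ∈ thickening (3 * s) W
      · rw [indicator_of_mem hζ, indicator_of_mem (thickening_mono hs3 W hζ)]
        gcongr
        refine maj_le_of_far hs (by linarith) ?_
        obtain ⟨x, hx, hxζ⟩ := mem_thickening_iff.1 hζ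
        have h1 : D ≤ dist z x := by
          by_contra h
          exact hzD (mem_thickening_iff.2 ⟨x, hx, not_le.1 h⟩)
        rw [← dist_eq_norm]
        linarith [dist_triangle z ζ x]
      · rw [indicator_of_notMem hζ]
        exact indicator_nonneg (fun _ _ => by positivity) ζ
    · rw [integral_indicator_const _ isOpen_thickening.measurableSet, smul_eq_mul, ← hV]
      refine le_trans (le_of_eq ?_) hs4
      field_simp

end Pool.Agent.NonPeak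
end

-- merged part: Pool.Agent.Work.MP_f4b807_an.Select
section
set_option autoImplicit false

open Set Filter Topology Metric MeasureTheory

namespace Pool.Agent.NonPeak

theorem exists_cauchy_select {H : Type} [NormedAddCommGroup H] [InnerProductSpace ℂ H]
    (S : ℕ → Set H) (hne : ∀ j, (S j).Nonempty) (hanti : Antitone S)
    (hmid : ∀ j, ∀ x ∈ S j, ∀ y ∈ S j, (2 : ℂ)⁻¹ • (x + y) ∈ S j) {M : ℝ}
    (hM : ∀ j, ∀ x ∈ S j, ‖x‖ ≤ M) : ∃ x : ℕ → H, (∀ j, x j ∈ S j) ∧ CauchySeq x := by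
  set d : ℕ → ℝ := fun j => sInf ((fun x => ‖x‖ ^ 2) '' S j) with hd
  have hbdd : ∀ j, BddBelow ((fun x => ‖x‖ ^ 2) '' S j) := fun j =>
    ⟨0, by rintro _ ⟨x, -, rfl⟩; positivity⟩
  have hle : ∀ j, ∀ x ∈ S j, d j ≤ ‖x‖ ^ 2 := fun j x hx => csInf_le (hbdd j) ⟨x, hx, rfl⟩
  have hmono : Monotone d := fun i j hij =>
    csInf_le_csInf (hbdd i) ((hne j).image _) (image_mono (hanti hij))
  have hup : BddAbove (range d) := by
    refine ⟨M ^ 2, ?_⟩
    rintro _ ⟨j, rfl⟩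
    obtain ⟨x, hx⟩ := hne j
    exact (hle j x hx).trans (pow_le_pow_left₀ (norm_nonneg _) (hM j x hx) 2)
  have hlim := tendsto_atTop_ciSup hmono hup
  have hex : ∀ j : ℕ, ∃ x ∈ S j, ‖x‖ ^ 2 < d j + 1 / ((j : ℝ) + 1) := by
    intro j
    obtain ⟨_, ⟨x, hx, rfl⟩, h⟩ := exists_lt_of_csInf_lt ((hne j).image (fun x => ‖x‖ ^ 2))
      (lt_add_of_pos_right (d j) (Nat.one_div_pos_of_nat (n := j)))
    exact ⟨x, hx, h⟩
  choose x hx hx' using hex
  refine ⟨x, hx, cauchySeq_of_le_tendsto_0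
    (fun n => Real.sqrt (4 * ((⨆ j, d j) - d n + 1 / ((n : ℝ) + 1)))) ?_ ?_⟩
  · intro i j n hi hj
    rw [dist_eq_norm]
    refine Real.le_sqrt_of_sq_le ?_
    have h1 := hle n _ (hmid n _ (hanti hi (hx i)) _ (hanti hj (hx j)))
    rw [norm_smul, norm_inv, RCLike.norm_ofNat] at h1
    have h2 := parallelogram_law_with_norm ℂ (x i) (x j)
    have h3 : d i ≤ ⨆ j, d j := le_ciSup hup i
    have h4 : d j ≤ ⨆ j, d j := le_ciSup hup j
    have h5 : 1 / ((i : ℝ) + 1) ≤ 1 / ((n : ℝ) + 1) := Nat.one_div_le_one_div hi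
    have h6 : 1 / ((j : ℝ) + 1) ≤ 1 / ((n : ℝ) + 1) := Nat.one_div_le_one_div hj
    nlinarith [hx' i, hx' j]
  · have := (((tendsto_const_nhds (x := ⨆ j, d j)).sub hlim).add
      tendsto_one_div_add_atTop_nhds_zero_nat).const_mul 4
    simpa using this.sqrt

theorem exists_ae_select {m : Measure ℂ} [IsProbabilityMeasure m] (C : ℕ → Set (ℂ → ℂ))
    (hne : ∀ j, (C j).Nonempty) (hanti : Antitone C)
    (hmid : ∀ j, ∀ f ∈ C j, ∀ g ∈ C j, (fun ζ => (2 : ℂ)⁻¹ * (f ζ + g ζ)) ∈ C j) {M : ℝ}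
    (hm : ∀ j, ∀ f ∈ C j, Measurable f ∧ ∀ᵐ ζ ∂m, ‖f ζ‖ ≤ M) :
    ∃ (f : ℕ → ℂ → ℂ) (g : ℂ → ℂ), (∀ j, f j ∈ C j) ∧
      ∀ᵐ ζ ∂m, Tendsto (fun j => f j ζ) atTop (𝓝 (g ζ)) := by
  have hmem : ∀ j, ∀ f ∈ C j, MemLp f 2 m := fun j f hf =>
    MemLp.of_bound (hm j f hf).1.aestronglyMeasurable M (hm j f hf).2
  set S : ℕ → Set (Lp ℂ 2 m) := fun j => {x | ∃ f ∈ C j, x =ᵐ[m] f} with hS
  obtain ⟨x, hx, hc⟩ := exists_cauchy_select S (M := (measureUnivNNReal m : ℝ) ^ (2 : ENNReal).toReal⁻¹ * |M|)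
    (fun j => by
      obtain ⟨f, hf⟩ := hne j
      exact ⟨(hmem j f hf).toLp f, f, hf, (hmem j f hf).coeFn_toLp⟩)
    (fun i j hij x ⟨f, hf, hx⟩ => ⟨f, hanti hij hf, hx⟩)
    (by
      rintro j x ⟨f, hf, hx⟩ y ⟨g, hg, hy⟩
      refine ⟨_, hmid j f hf g hg, ?_⟩
      filter_upwards [Lp.coeFn_smul (2 : ℂ)⁻¹ (x + y), Lp.coeFn_add x y, hx, hy] with ζ h1 h2 h3 h4
      rw [h1, Pi.smul_apply, h2, Pi.add_apply, h3, h4, smul_eq_mul])
    (by
      rintro j x ⟨f, hf, hx⟩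
      refine Lp.norm_le_of_ae_bound (abs_nonneg M) ?_
      filter_upwards [hx, (hm j f hf).2] with ζ h1 h2
      rw [h1]
      exact h2.trans (le_abs_self M))
  obtain ⟨g, hg⟩ := cauchySeq_tendsto_of_complete hc
  obtain ⟨ns, hns, hae⟩ := (tendstoInMeasure_of_tendsto_Lp hg).exists_seq_tendsto_ae
  choose f hf hxf using hx
  refine ⟨fun j => f (ns j), g, fun j => hanti (hns.id_le j) (hf _), ?_⟩
  filter_upwards [hae, ae_all_iff.2 hxf] with ζ h1 h2
  simpa only [h2] using h1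

end Pool.Agent.NonPeak
end

-- merged part: Pool.Agent.Work.MP_f4b807_an.SI
section
set_option autoImplicit false

open Set Filter Topology Metric MeasureTheory

namespace Pool.Agent.NonPeak

theorem cap_of_nonpos (G : Set ℂ) {t : ℝ} (ht : t ≤ 0) : Cap G t := fun t' ht' =>
  ⟨fun _ => 0, const_mem_Alg G 0, 0, 0, Asym.const 0, by simp, by simpa using ht'.trans_le ht⟩

theorem norm_pow_sub_pow_le' {x y : ℂ} {B : ℝ} (hB : 1 ≤ B) (hx : ‖x‖ ≤ B) (hy : ‖y‖ ≤ B)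
    (n : ℕ) : ‖x ^ n - y ^ n‖ ≤ n * B ^ n * ‖x - y‖ := by
  induction n with
  | zero => simp
  | succ n ih =>
    have e : x ^ (n + 1) - y ^ (n + 1) = x * (x ^ n - y ^ n) + y ^ n * (x - y) := by ring
    have h1 : ‖y‖ ^ n ≤ B ^ (n + 1) :=
      (pow_le_pow_left₀ (norm_nonneg _) hy n).trans (pow_le_pow_right₀ hB n.le_succ)
    rw [e]
    refine (norm_add_le _ _).trans ?_
    rw [norm_mul, norm_mul, norm_pow]
    calc _ ≤ B * (n * B ^ n * ‖x - y‖) + B ^ (n + 1) * ‖x - y‖ := by gcongr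
      _ = _ := by push_cast; ring

theorem select_approx {G W : Set ℂ} {M : ℝ} {H : ℂ → ℂ} {m : Measure ℂ} [IsProbabilityMeasure m]
    (hsupp : ∀ᵐ ζ ∂m, ζ ∉ G)
    (h : ∀ D ε : ℝ, 0 < D → 0 < ε → ∃ f ∈ Alg G, (∀ z, z ∉ G → ‖f z‖ ≤ M) ∧
      ∀ z, z ∉ G → z ∉ thickening D W → ‖f z - H z‖ ≤ ε) :
    ∃ (f : ℕ → ℂ → ℂ) (g : ℂ → ℂ), (∀ j, f j ∈ Alg G) ∧ (∀ j z, z ∉ G → ‖f j z‖ ≤ M) ∧
      (∀ D ε : ℝ, 0 < D → 0 < ε →
        ∀ᶠ j in atTop, ∀ z, z ∉ G → z ∉ thickening D W → ‖f j z - H z‖ ≤ ε) ∧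
      ∀ᵐ ζ ∂m, Tendsto (fun j => f j ζ) atTop (𝓝 (g ζ)) := by
  obtain ⟨f, g, hf, hg⟩ := exists_ae_select (m := m) (M := M)
    (fun j : ℕ => {f | f ∈ Alg G ∧ (∀ z, z ∉ G → ‖f z‖ ≤ M) ∧
      ∀ z, z ∉ G → z ∉ thickening (1 / ((j : ℝ) + 1)) W → ‖f z - H z‖ ≤ 1 / ((j : ℝ) + 1)})
    (fun j => h _ _ Nat.one_div_pos_of_nat Nat.one_div_pos_of_nat)
    (fun i j hij f ⟨h1, h2, h3⟩ => ⟨h1, h2, fun z hz hz' =>
      (h3 z hz fun h => hz' (thickening_mono (Nat.one_div_le_one_div hij) W h)).trans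
        (Nat.one_div_le_one_div hij)⟩)
    (by
      rintro j f ⟨f1, f2, f3⟩ g ⟨g1, g2, g3⟩
      refine ⟨Alg.const_mul (Alg.add f1 g1) _, fun z hz => ?_, fun z hz hz' => ?_⟩
      · rw [norm_mul, norm_inv, Complex.norm_ofNat]
        linarith [norm_add_le (f z) (g z), f2 z hz, g2 z hz]
      · have : 2⁻¹ * (f z + g z) - H z = 2⁻¹ * ((f z - H z) + (g z - H z)) := by ring
        rw [this, norm_mul, norm_inv, Complex.norm_ofNat]
        linarith [norm_add_le (f z - H z) (g z - H z), f3 z hz hz', g3 z hz hz'])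
    (fun j f hf => ⟨Alg.measurable hf.1, hsupp.mono hf.2.1⟩)
  refine ⟨f, g, fun j => (hf j).1, fun j => (hf j).2.1, fun D ε hD hε => ?_, hg⟩
  filter_upwards [tendsto_one_div_add_atTop_nhds_zero_nat.eventually (ge_mem_nhds hD),
    tendsto_one_div_add_atTop_nhds_zero_nat.eventually (ge_mem_nhds hε)] with j h1 h2 z hz hz'
  exact ((hf j).2.2 z hz fun h => hz' (thickening_mono h1 W h)).trans h2

/-- Self-improvement: a compact set along which `G` has positive capacity density at all small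
scales carries no more bounded analytic functions than `G` itself. -/
theorem cap_of_bounded {G W : Set ℂ} {c δ : ℝ} (hc : 0 < c) (hδ : 0 < δ) (hGo : IsOpen G)
    (hGb : Bornology.IsBounded G) (hW : IsCompact W)
    (hcap : ∀ p ∈ W, ∀ r, 0 < r → r ≤ δ → Cap (G ∩ ball p r) (c * r))
    {F : ℂ → ℂ} {a β : ℂ} (hF : ∀ ζ, ζ ∉ W → DifferentiableAt ℂ F ζ)
    (hb : ∀ ζ, ζ ∉ W → ‖F ζ‖ ≤ 1) (hA : Asym F a β) : Cap G (‖β‖ / 2) := by
  refine Cap.of_forall_lt fun N hN => ?_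
  rcases le_or_gt N 0 with hN0 | hN0
  · exact cap_of_nonpos G hN0
  by_contra hcon
  obtain ⟨m, u, R, hm, hsupp, hu, hui, huN, hrep⟩ := exists_dual hGo hGb hN0 hcon
  have hG' : ∀ᵐ ζ ∂m, ζ ∉ G := hsupp.mono fun ζ h => h.1
  obtain ⟨M, hM, HV⟩ := stepV hc
  obtain ⟨n, hn⟩ := pow_unbounded_of_one_lt M (one_lt_two (α := ℝ))
  obtain ⟨f, g, f1, f2, f3, f4⟩ := select_approx hG' (HV G W δ F a hδ hW hcap hF hb hA.tendsto)
  obtain ⟨f', g', f1', f2', f3', f4'⟩ := select_approx hG'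
    (HV G W δ (fun ζ => F ζ ^ (n + 1)) (a ^ (n + 1)) hδ hW hcap (fun ζ hζ => (hF ζ hζ).pow _)
      (fun ζ hζ => by rw [norm_pow]; exact pow_le_one₀ (norm_nonneg _) (hb ζ hζ))
      (hA.tendsto.pow _))
  have hU := unique_lemma hc hδ hGb hW hcap hsupp hu hui hrep
    (k := fun j ζ => f j ζ ^ (n + 1) - f' j ζ) (κ := fun ζ => g ζ ^ (n + 1) - g' ζ)
    (M := M ^ (n + 1) + M) (fun j => Alg.sub (Alg.pow (f1 j) _) (f1' j))
    (fun j z hz => by
      refine (norm_sub_le _ _).trans (add_le_add ?_ (f2' j z hz))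
      rw [norm_pow]
      exact pow_le_pow_left₀ (norm_nonneg _) (f2 j z hz) _)
    (by
      filter_upwards [f4, f4'] with ζ h1 h2
      exact (h1.pow _).sub h2)
    (by
      intro D ε hD hε
      set B : ℝ := ((n + 1 : ℕ) : ℝ) * (M + 1) ^ (n + 1) with hB
      have hB0 : 0 < B := by positivity
      filter_upwards [f3 D (ε / 2 / B) hD (by positivity), f3' D (ε / 2) hD (half_pos hε)]
        with j h1 h2 z hz hz'
      have hzW : z ∉ W := fun h => hz' (self_subset_thickening hD W h)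
      have h3 := norm_pow_sub_pow_le' (B := M + 1) (x := f j z) (y := F z) (by linarith)
        (by linarith [f2 j z hz]) (by linarith [hb z hzW]) (n + 1)
      have h4 : B * ‖f j z - F z‖ ≤ ε / 2 := by
        have := h1 z hz hz'
        rwa [le_div_iff₀ hB0, mul_comm] at this
      have e : f j z ^ (n + 1) - f' j z =
          (f j z ^ (n + 1) - F z ^ (n + 1)) - (f' j z - F z ^ (n + 1)) := by ring
      rw [e]
      linarith [norm_sub_le (f j z ^ (n + 1) - F z ^ (n + 1)) (f' j z - F z ^ (n + 1)),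
        h2 z hz hz'])
  have hg2 : ∀ᵐ ζ ∂m, ‖g ζ * u ζ‖ ≤ 2 * ‖u ζ‖ := by
    filter_upwards [hU, f4', hG'] with ζ h1 h2 h3
    rcases mul_eq_zero.1 h1 with h | h
    · rw [norm_mul]
      refine mul_le_mul_of_nonneg_right ?_ (norm_nonneg _)
      have h4 : ‖g' ζ‖ ≤ M := le_of_tendsto' h2.norm fun j => f2' j ζ h3
      rw [← sub_eq_zero.1 h, norm_pow] at h4
      refine le_of_pow_le_pow_left₀ n.succ_ne_zero zero_le_two (h4.trans (hn.le.trans ?_))
      exact pow_le_pow_right₀ one_le_two n.le_succ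
    · simp [h]
  have h1 : Tendsto (fun j => ∫ ζ, f j ζ * u ζ ∂m) atTop (𝓝 (∫ ζ, g ζ * u ζ ∂m)) := by
    refine tendsto_integral_of_dominated_convergence (fun ζ => M * ‖u ζ‖)
      (fun j => ((Alg.measurable (f1 j)).mul hu).aestronglyMeasurable) (hui.norm.const_mul _)
      (fun j => ?_) ?_
    · filter_upwards [hG'] with ζ h1
      rw [norm_mul]
      gcongr
      exact f2 j ζ h1
    · filter_upwards [f4] with ζ h1
      exact h1.mul_const _
  have h2 : Tendsto (fun j => ∫ ζ, f j ζ * u ζ ∂m) atTop (𝓝 β) := by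
    obtain ⟨r, hr, hr'⟩ := (hGb.union (hW.isBounded.thickening (δ := 1))).exists_pos_norm_le
    have hout : ∀ ζ : ℂ, r < ‖ζ - 0‖ → ζ ∉ G ∧ ζ ∉ thickening 1 W := by
      intro ζ hζ
      rw [sub_zero] at hζ
      exact ⟨fun h => by linarith [hr' ζ (Or.inl h)], fun h => by linarith [hr' ζ (Or.inr h)]⟩
    refine Metric.tendsto_nhds.2 fun ε hε => ?_
    filter_upwards [f3 1 (ε / (4 * r)) one_pos (by positivity)] with j hj
    obtain ⟨a', b', hab, -⟩ := Alg.exists_asym (f1 j)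
    rw [hrep _ (f1 j) _ _ hab, dist_eq_norm]
    have := (expansion (p := 0) hr (fun ζ hζ => (Alg.differentiableAt (f1 j) (hout ζ hζ).1).sub
      (hF ζ fun h => (hout ζ hζ).2 (self_subset_thickening one_pos W h)))
      (fun ζ hζ => hj ζ (hout ζ hζ).1 (hout ζ hζ).2) (hab.sub hA)).2.1
    have e : 2 * (ε / (4 * r)) * r = ε / 2 := by field_simp; ring
    linarith
  have h3 : ‖β‖ ≤ 2 * N := by
    rw [tendsto_nhds_unique h2 h1]
    refine (norm_integral_le_of_norm_le (hui.norm.const_mul 2) hg2).trans ?_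
    rw [integral_const_mul]
    linarith
  linarith

end Pool.Agent.NonPeak
end

-- merged part: Pool.Agent.Work.MP_f4b807_an.Ext
section
set_option autoImplicit false

open Set Filter Topology Metric

namespace Pool.Agent.NonPeak

theorem isPreconnected_norm_mem (p : ℂ) {I : Set ℝ} (hI : IsPreconnected I)
    (h0 : ∀ x ∈ I, 0 ≤ x) : IsPreconnected {ζ : ℂ | ‖ζ - p‖ ∈ I} := by
  have h := (hI.prod (isPreconnected_univ (α := ℝ))).image
    (fun x : ℝ × ℝ => p + x.1 * Complex.exp (x.2 * Complex.I)) (by fun_prop)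
  convert h using 1
  ext ζ
  constructor
  · intro hζ
    refine ⟨(‖ζ - p‖, (ζ - p).arg), ⟨hζ, trivial⟩, ?_⟩
    simp only [Complex.norm_mul_exp_arg_mul_I]
    ring
  · rintro ⟨x, ⟨hx, -⟩, rfl⟩
    simpa [Complex.norm_exp_ofReal_mul_I, abs_of_nonneg (h0 _ hx)] using hx

theorem isPreconnected_ext (p : ℂ) {r : ℝ} (hr : 0 ≤ r) :
    IsPreconnected {ζ : ℂ | r < ‖ζ - p‖} :=
  isPreconnected_norm_mem p isPreconnected_Ioi fun _ hx => hr.trans (le_of_lt hx)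

theorem isPreconnected_compl_ball (p : ℂ) {r : ℝ} (hr : 0 ≤ r) :
    IsPreconnected (ball p r)ᶜ := by
  convert isPreconnected_norm_mem p isPreconnected_Ici fun _ hx => hr.trans hx using 1
  ext ζ
  simp [dist_eq_norm]

theorem eventually_lt_norm_sub (p : ℂ) (r : ℝ) : ∀ᶠ ζ in cocompact ℂ, r < ‖ζ - p‖ := by
  filter_upwards [(isCompact_closedBall p r).compl_mem_cocompact] with ζ hζ
  simpa [dist_eq_norm] using hζ

end Pool.Agent.NonPeak
end

-- merged part: Pool.Agent.Work.MP_f4b807_an.Sqrt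
section
set_option autoImplicit false

open Set Filter Topology Metric

namespace Pool.Agent.NonPeak

/-- The principal square root of `(ζ - p) / (ζ - q)`. -/
noncomputable def psq (p q ζ : ℂ) : ℂ := (1 + (q - p) * (ζ - q)⁻¹) ^ (2⁻¹ : ℂ)

theorem psq_spec {p q ζ : ℂ} (h : ‖p - q‖ < ‖ζ - q‖) :
    DifferentiableAt ℂ (psq p q) ζ ∧ psq p q ζ ^ 2 * (ζ - q) = ζ - p := by
  have hpos : 0 < ‖ζ - q‖ := (norm_nonneg _).trans_lt h
  have hne : ζ - q ≠ 0 := norm_pos_iff.1 hpos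
  constructor
  · refine DifferentiableAt.cpow ((((differentiableAt_id.sub_const q).inv hne).const_mul _
      ).const_add 1) (differentiableAt_const _) (Complex.mem_slitPlane_of_norm_lt_one ?_)
    rw [norm_mul, norm_inv, norm_sub_rev, ← div_eq_mul_inv, div_lt_one hpos]
    exact h
  · rw [psq, Complex.cpow_ofNat_inv_pow]
    field_simp
    ring

theorem psq_re (p q ζ : ℂ) : 0 ≤ (psq p q ζ).re := by
  rw [psq, Complex.cpow_inv_two_re]
  exact Real.sqrt_nonneg _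

theorem psq_tendsto (p q : ℂ) : Tendsto (psq p q) (cocompact ℂ) (𝓝 1) := by
  have h1 := ((tendsto_inv_sub q).const_mul (q - p)).const_add 1
  rw [mul_zero, add_zero] at h1
  have h2 : ContinuousAt (fun w : ℂ => w ^ (2⁻¹ : ℂ)) 1 :=
    continuousAt_cpow_const Complex.one_mem_slitPlane
  have h3 := h2.tendsto.comp h1
  rw [Complex.one_cpow] at h3
  exact h3

theorem exists_sqrt_eps {W : Set ℂ} (hc : IsPreconnected W) {a b : ℂ} (ha : a ∈ W) (hb : b ∈ W)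
    {ε : ℝ} (hε : 0 < ε) : ∃ s : ℂ → ℂ, (∀ ζ, ζ ∉ thickening ε W →
      DifferentiableAt ℂ s ζ ∧ s ζ ^ 2 * (ζ - b) = ζ - a) ∧ Tendsto s (cocompact ℂ) (𝓝 1) := by
  refine hc.induction₂' (fun p q => ∃ s : ℂ → ℂ, (∀ ζ, ζ ∉ thickening ε W →
      DifferentiableAt ℂ s ζ ∧ s ζ ^ 2 * (ζ - q) = ζ - p) ∧ Tendsto s (cocompact ℂ) (𝓝 1))
    ?_ ?_ ha hb
  · have key : ∀ p q : ℂ, q ∈ W → dist p q < ε → ∃ s : ℂ → ℂ, (∀ ζ, ζ ∉ thickening ε W →
        DifferentiableAt ℂ s ζ ∧ s ζ ^ 2 * (ζ - q) = ζ - p) ∧ Tendsto s (cocompact ℂ) (𝓝 1) := by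
      intro p q hq hpq
      refine ⟨psq p q, fun ζ hζ => psq_spec ?_, psq_tendsto p q⟩
      rw [← dist_eq_norm, ← dist_eq_norm]
      refine hpq.trans_le (not_lt.1 fun h => hζ (mem_thickening_iff.2 ⟨q, hq, h⟩))
    intro x hx
    filter_upwards [self_mem_nhdsWithin, nhdsWithin_le_nhds (ball_mem_nhds x hε)] with y hy hxy
    exact ⟨key x y hy (mem_ball'.1 hxy), key y x hx hxy⟩
  · rintro x y z - - - ⟨s, h1, h2⟩ ⟨s', h1', h2'⟩
    refine ⟨fun ζ => s ζ * s' ζ, fun ζ hζ => ⟨(h1 ζ hζ).1.mul (h1' ζ hζ).1, ?_⟩,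
      by simpa using h2.mul h2'⟩
    linear_combination s ζ ^ 2 * (h1' ζ hζ).2 + (h1 ζ hζ).2

theorem eq_of_sq_rel {S : Set ℂ} (hS : IsPreconnected S) {a b : ℂ} {s s' : ℂ → ℂ}
    (hab : ∀ ζ ∈ S, ζ ≠ a ∧ ζ ≠ b)
    (h : ∀ ζ ∈ S, DifferentiableAt ℂ s ζ ∧ s ζ ^ 2 * (ζ - b) = ζ - a)
    (h' : ∀ ζ ∈ S, DifferentiableAt ℂ s' ζ ∧ s' ζ ^ 2 * (ζ - b) = ζ - a)
    {y : ℂ} (hy : y ∈ S) (hy' : s y = s' y) : EqOn s s' S := by
  refine hS.eq_of_sq_eq (fun ζ hζ => (h ζ hζ).1.continuousAt.continuousWithinAt)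
    (fun ζ hζ => (h' ζ hζ).1.continuousAt.continuousWithinAt) (fun ζ hζ => ?_)
    (fun {ζ} hζ h0 => ?_) hy hy'
  · exact mul_right_cancel₀ (sub_ne_zero.2 (hab ζ hζ).2) ((h ζ hζ).2.trans (h' ζ hζ).2.symm)
  · have := (h' ζ hζ).2
    rw [h0] at this
    exact sub_ne_zero.2 (hab ζ hζ).1 (by simpa using this.symm)

theorem exists_sqrt {W : Set ℂ} (hW : IsClosed W) (hc : IsPreconnected W) {a b : ℂ} (ha : a ∈ W)
    (hb : b ∈ W) (hfar : ∀ w ∈ W, ‖w - b‖ ≤ ‖a - b‖) :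
    ∃ s : ℂ → ℂ, (∀ ζ, ζ ∉ W → DifferentiableAt ℂ s ζ ∧ s ζ ^ 2 * (ζ - b) = ζ - a) ∧
      ∀ ζ, ‖a - b‖ < ‖ζ - b‖ → s ζ = psq a b ζ := by
  choose σ h1 h2 using fun n : ℕ =>
    exists_sqrt_eps hc ha hb (Nat.one_div_pos_of_nat (α := ℝ) (n := n))
  have hsmall : ∀ ρ : ℝ, 0 < ρ → ∀ᶠ n : ℕ in hyperfilter ℕ, 1 / ((n : ℝ) + 1) ≤ ρ := fun ρ hρ =>
    Nat.hyperfilter_le_atTop
      (tendsto_one_div_add_atTop_nhds_zero_nat.eventually (ge_mem_nhds hρ))
  have hball : ∀ ζ, ζ ∉ W → ∃ ρ, 0 < ρ ∧ ∀ x ∈ ball ζ ρ, ∀ ε ≤ ρ, x ∉ thickening ε W := by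
    intro ζ hζ
    obtain ⟨ρ, hρ, h⟩ := Metric.isOpen_iff.1 hW.isOpen_compl ζ hζ
    refine ⟨ρ / 2, half_pos hρ, fun x hx ε hε hx' => ?_⟩
    obtain ⟨w, hw, hxw⟩ := mem_thickening_iff.1 hx'
    refine h (mem_ball'.2 ?_) hw
    rw [mem_ball'] at hx
    linarith [dist_triangle ζ x w]
  have hv : ∀ ζ, ∃ v : ℂ, ζ ∉ W → ∀ᶠ n in hyperfilter ℕ, σ n ζ = v := by
    intro ζ
    by_cases hζ : ζ ∈ W
    · exact ⟨0, fun h => absurd hζ h⟩
    obtain ⟨ρ, hρ, h⟩ := hball ζ hζ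
    have h3 : ∀ᶠ n in hyperfilter ℕ, σ n ζ ^ 2 * (ζ - b) = ζ - a :=
      (hsmall ρ hρ).mono fun n hn => (h1 n ζ (h ζ (mem_ball_self hρ) _ hn)).2
    obtain ⟨n₀, hn₀⟩ := h3.exists
    have h4 : ∀ᶠ n in hyperfilter ℕ, σ n ζ = σ n₀ ζ ∨ σ n ζ = -σ n₀ ζ :=
      h3.mono fun n hn => sq_eq_sq_iff_eq_or_eq_neg.1
        (mul_right_cancel₀ (sub_ne_zero.2 (by rintro rfl; exact hζ hb)) (hn.trans hn₀.symm))
    rcases Ultrafilter.eventually_or.1 h4 with h5 | h5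
    exacts [⟨_, fun _ => h5⟩, ⟨_, fun _ => h5⟩]
  choose s hs using hv
  refine ⟨s, fun ζ hζ => ?_, fun ζ hζ => ?_⟩
  · obtain ⟨ρ, hρ, h⟩ := hball ζ hζ
    have hnW : ∀ x ∈ ball ζ ρ, x ∉ W := fun x hx hxW =>
      h x hx ρ le_rfl (self_subset_thickening hρ W hxW)
    obtain ⟨n₀, hn₀, hn₀'⟩ := ((hsmall ρ hρ).and (hs ζ hζ)).exists
    have heq : ∀ x ∈ ball ζ ρ, s x = σ n₀ x := by
      intro x hx
      obtain ⟨n, hn, hn', hn''⟩ := ((hsmall ρ hρ).and ((hs ζ hζ).and (hs x (hnW x hx)))).exists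
      rw [← hn'']
      exact eq_of_sq_rel isPreconnected_ball
        (fun y hy => ⟨by rintro rfl; exact hnW _ hy ha, by rintro rfl; exact hnW _ hy hb⟩)
        (fun y hy => h1 n y (h y hy _ hn)) (fun y hy => h1 n₀ y (h y hy _ hn₀))
        (mem_ball_self hρ) (hn'.trans hn₀'.symm) hx
    obtain ⟨k1, k2⟩ := h1 n₀ ζ (h ζ (mem_ball_self hρ) _ hn₀)
    refine ⟨k1.congr_of_eventuallyEq ?_, by rw [← hn₀']; exact k2⟩
    filter_upwards [ball_mem_nhds ζ hρ] with x hx using heq x hx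
  · have hζW : ζ ∉ W := fun h => by linarith [hfar ζ h]
    obtain ⟨n, hn, hn'⟩ :=
      ((hsmall ((‖ζ - b‖ - ‖a - b‖) / 2) (by linarith)).and (hs ζ hζW)).exists
    have hpos : 0 < 1 / ((n : ℝ) + 1) := Nat.one_div_pos_of_nat
    set S := {x : ℂ | ‖a - b‖ + 1 / ((n : ℝ) + 1) < ‖x - b‖} with hS
    have hS1 : ∀ x ∈ S, ‖a - b‖ < ‖x - b‖ := fun x hx => by
      have : ‖a - b‖ + 1 / ((n : ℝ) + 1) < ‖x - b‖ := hx
      linarith
    have hS2 : ∀ x ∈ S, x ∉ thickening (1 / ((n : ℝ) + 1)) W := by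
      intro x hx hx'
      have h3 : ‖a - b‖ + 1 / ((n : ℝ) + 1) < ‖x - b‖ := hx
      obtain ⟨w, hw, hxw⟩ := mem_thickening_iff.1 hx'
      have h4 := hfar w hw
      rw [← dist_eq_norm] at h3 h4
      rw [← dist_eq_norm] at h3 h4
      linarith [dist_triangle x w b]
    have hne : ∀ x ∈ S, x ≠ a ∧ x ≠ b := fun x hx =>
      ⟨by rintro rfl; exact lt_irrefl _ (hS1 _ hx),
        by rintro rfl; have := hS1 _ hx; simp at this; linarith [norm_nonneg (a - x)]⟩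
    have hsum : ∀ᶠ x in cocompact ℂ, σ n x + psq a b x ≠ 0 :=
      ((h2 n).add (psq_tendsto a b)).eventually_ne (by norm_num)
    obtain ⟨y, hy, hy'⟩ := ((eventually_lt_norm_sub b (‖a - b‖ + 1 / ((n : ℝ) + 1))).and
      hsum).exists
    have hy2 : σ n y = psq a b y := by
      have := sq_eq_sq_iff_eq_or_eq_neg.1 (mul_right_cancel₀ (sub_ne_zero.2 (hne y hy).2)
        ((h1 n y (hS2 y hy)).2.trans (psq_spec (hS1 y hy)).2.symm))
      exact this.resolve_right fun h => hy' (by rw [h, neg_add_cancel])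
    rw [← hn']
    refine eq_of_sq_rel (isPreconnected_ext b (by positivity)) hne (fun x hx => h1 n x (hS2 x hx))
      (fun x hx => psq_spec (hS1 x hx)) hy hy2 ?_
    change ‖a - b‖ + 1 / ((n : ℝ) + 1) < ‖ζ - b‖
    linarith

theorem exists_F {W : Set ℂ} (hW : IsClosed W) (hc : IsPreconnected W) {a b : ℂ} (ha : a ∈ W)
    (hb : b ∈ W) (hfar : ∀ w ∈ W, ‖w - b‖ ≤ ‖a - b‖) :
    ∃ (F : ℂ → ℂ) (α β : ℂ), (∀ ζ, ζ ∉ W → DifferentiableAt ℂ F ζ) ∧ (∀ ζ, ζ ∉ W → ‖F ζ‖ ≤ 1) ∧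
      Asym F α β ∧ ‖β‖ = ‖a - b‖ / 40 := by
  obtain ⟨s, h1, h2⟩ := exists_sqrt hW hc ha hb hfar
  have hlow : ∀ ζ, ζ ∉ W → 1 / 5 ≤ ‖s ζ + 1‖ := by
    intro ζ hζ
    by_contra h
    push Not at h
    have h3 : ‖s ζ - 1‖ ≤ 11 / 5 := by
      have : s ζ - 1 = (s ζ + 1) - 2 := by ring
      rw [this]
      have := norm_sub_le (s ζ + 1) 2
      rw [Complex.norm_ofNat] at this
      linarith
    have h4 : a - b = -((s ζ + 1) * (s ζ - 1) * (ζ - b)) := by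
      linear_combination (h1 ζ hζ).2
    have hpos : 0 < ‖ζ - b‖ := norm_pos_iff.2 (sub_ne_zero.2 (by rintro rfl; exact hζ hb))
    have h5 : ‖a - b‖ < ‖ζ - b‖ := by
      rw [h4, norm_neg, norm_mul, norm_mul]
      have : ‖s ζ + 1‖ * ‖s ζ - 1‖ ≤ 1 / 5 * (11 / 5) := by gcongr
      nlinarith
    have h6 := psq_re a b ζ
    rw [← h2 ζ h5] at h6
    have h7 := Complex.re_le_norm (s ζ + 1)
    simp only [Complex.add_re, Complex.one_re] at h7
    linarith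
  have hne : ∀ ζ, ζ ∉ W → s ζ + 1 ≠ 0 := fun ζ hζ =>
    norm_pos_iff.1 (by linarith [hlow ζ hζ])
  have hev := eventually_lt_norm_sub b ‖a - b‖
  have hs1 : Tendsto s (cocompact ℂ) (𝓝 1) :=
    (psq_tendsto a b).congr' (hev.mono fun ζ hζ => (h2 ζ hζ).symm)
  refine ⟨fun ζ => 5⁻¹ * (s ζ + 1)⁻¹, 10⁻¹, (a - b) / 40, fun ζ hζ => ?_, fun ζ hζ => ?_, ?_,
    by simp⟩
  · exact (((h1 ζ hζ).1.add_const 1).inv (hne ζ hζ)).const_mul _
  · beta_reduce
    rw [← mul_inv, norm_inv, norm_mul, Complex.norm_ofNat]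
    exact inv_le_one_of_one_le₀ (by linarith [hlow ζ hζ])
  · have h3 := ((hs1.add_const 1).inv₀ (by norm_num)).pow 2
    have h4 := ((tendsto_mul_inv_sub b).mul h3).const_mul ((a - b) / 10)
    have e : (a - b) / 10 * (1 * ((1 : ℂ) + 1)⁻¹ ^ 2) = (a - b) / 40 := by ring
    rw [e] at h4
    refine h4.congr' ?_
    filter_upwards [hev] with ζ hζ
    have hζW : ζ ∉ W := fun h => by linarith [hfar ζ h]
    have h5 := hne ζ hζW
    have h6 : ζ - b ≠ 0 := norm_pos_iff.1 ((norm_nonneg _).trans_lt hζ)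
    have h7 : a - b = -((s ζ + 1) * (s ζ - 1) * (ζ - b)) := by
      linear_combination (h1 ζ hζW).2
    rw [h7]
    field_simp
    ring

/-- A continuum along which `G` is dense in capacity forces `G` to have large capacity. -/
theorem cap_of_continuum {G W : Set ℂ} {c δ : ℝ} (hc : 0 < c) (hδ : 0 < δ) (hGo : IsOpen G)
    (hGb : Bornology.IsBounded G) (hW : IsCompact W) (hWc : IsPreconnected W)
    (hcap : ∀ p ∈ W, ∀ r, 0 < r → r ≤ δ → Cap (G ∩ ball p r) (c * r))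
    {a b : ℂ} (ha : a ∈ W) (hb : b ∈ W) : Cap G (‖a - b‖ / 80) := by
  obtain ⟨a', ha', hmax⟩ := hW.exists_isMaxOn ⟨b, hb⟩
    (f := fun w => ‖w - b‖) (by fun_prop)
  obtain ⟨F, α, β, h1, h2, h3, h4⟩ := exists_F hW.isClosed hWc ha' hb hmax
  refine (cap_of_bounded hc hδ hGo hGb hW hcap h1 h2 h3).mono le_rfl ?_
  have : ‖a - b‖ ≤ ‖a' - b‖ := hmax ha
  rw [h4]
  linarith

end Pool.Agent.NonPeak
end

-- merged part: Pool.Agent.Work.MP_f4b807_an.Peak
section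
set_option autoImplicit false

open Set Filter Topology Metric

namespace Pool.Agent.NonPeak

theorem exists_bump {K : Set ℂ} {x₀ : ℂ} (hx : x₀ ∈ K) {c : ℝ} (hc : 0 < c)
    (h : ∀ r₀, 0 < r₀ → ∃ r, 0 < r ∧ r ≤ r₀ ∧ Cap (Kᶜ ∩ ball x₀ r) (c * r)) {D : ℝ} (hD : 0 < D) :
    ∃ φ ∈ Alg Kᶜ, φ x₀ = 1 ∧ (∀ z ∈ K, ‖φ z‖ ≤ 1 + 8 / c) ∧
      ∀ z ∈ K, D ≤ ‖z - x₀‖ → ‖φ z‖ ≤ 1 / 2 := by
  obtain ⟨r, hr, hr', hcap⟩ := h (min (D / 2) (c * D / 16)) (by positivity)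
  rw [le_min_iff] at hr'
  obtain ⟨g, g1, g2, g3, d, -, g5⟩ := exists_normalized hr hc hcap
  have g1' : g ∈ Alg Kᶜ := Alg_mono inter_subset_left g1
  obtain ⟨a, b, hab, g', hg', he⟩ := Alg.exists_asym g1'
  obtain ⟨rfl, -⟩ := hab.unique g2
  have hφ : ∀ z ∈ K, 1 - (g' z - x₀ * g z) = 1 - (z - x₀) * g z := fun z hz => by
    rw [he z (not_not.2 hz)]; ring
  have hfar : ∀ z, r < ‖z - x₀‖ → ‖1 - (z - x₀) * g z‖ ≤ 8 * r / (c * ‖z - x₀‖) := by
    intro z hz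
    have hpos : 0 < ‖z - x₀‖ := hr.trans hz
    have hne : z - x₀ ≠ 0 := norm_pos_iff.1 hpos
    have : 1 - (z - x₀) * g z = -((z - x₀) * (g z - (z - x₀)⁻¹)) := by field_simp; ring
    rw [this, norm_neg, norm_mul]
    calc _ ≤ ‖z - x₀‖ * (8 * r / (c * ‖z - x₀‖ ^ 2)) := by gcongr; exact (g5 z hz).2.1
      _ = _ := by field_simp
  refine ⟨fun ζ => 1 - (g' ζ - x₀ * g ζ),
    Alg.sub (const_mem_Alg _ 1) (Alg.sub hg' (Alg.const_mul g1' _)), ?_, fun z hz => ?_,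
    fun z hz hDz => ?_⟩
  · simp [hφ x₀ hx]
  · simp only [hφ z hz]
    rcases lt_or_ge r ‖z - x₀‖ with h1 | h1
    · refine (hfar z h1).trans ?_
      calc 8 * r / (c * ‖z - x₀‖) ≤ 8 * r / (c * r) := by gcongr
        _ = 8 / c := by field_simp
        _ ≤ _ := by linarith
    · refine (norm_sub_le _ _).trans ?_
      rw [norm_one, norm_mul]
      have h2 := g3 z fun h => h.1 hz
      calc 1 + ‖z - x₀‖ * ‖g z‖ ≤ 1 + r * (4 / (c * r)) := by gcongr
        _ = 1 + 4 / c := by field_simp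
        _ ≤ _ := by gcongr; norm_num
  · simp only [hφ z hz]
    refine (hfar z (by linarith [hr'.1])).trans ?_
    calc 8 * r / (c * ‖z - x₀‖) ≤ 8 * (c * D / 16) / (c * D) := by gcongr; exact hr'.2
      _ = _ := by field_simp; norm_num

theorem bishop {K : Set ℂ} {x₀ : ℂ} (hx : x₀ ∈ K) {M : ℝ} (hM : 1 ≤ M)
    (h : ∀ D, 0 < D → ∃ φ ∈ Alg Kᶜ, φ x₀ = 1 ∧ (∀ z ∈ K, ‖φ z‖ ≤ M) ∧
      ∀ z ∈ K, D ≤ ‖z - x₀‖ → ‖φ z‖ ≤ 1 / 2) :
    ∃ f : ℂ → ℂ, (∀ ε : ℝ, 0 < ε → ∃ g ∈ Alg Kᶜ, ∀ z ∈ K, ‖f z - g z‖ < ε) ∧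
      f x₀ = 1 ∧ ∀ x ∈ K, x ≠ x₀ → ‖f x‖ < 1 := by
  set θ : ℝ := (2 * M + 1) / (2 * M + 2) with hθ
  have hθ0 : 0 < θ := by positivity
  have hθ1 : θ < 1 := by rw [hθ, div_lt_one (by positivity)]; linarith
  have hθM : θ * (1 - θ)⁻¹ = 2 * M + 1 := by
    have : 1 - θ = 1 / (2 * M + 2) := by rw [hθ]; field_simp; ring
    rw [this, hθ]; field_simp
  let St := {p : (ℂ → ℂ) × ℝ // p.1 ∈ Alg Kᶜ ∧ 0 < p.2}
  have step : ∀ (k : ℕ) (p : St), ∃ q : St, ∃ φ ∈ Alg Kᶜ, φ x₀ = 1 ∧ (∀ z ∈ K, ‖φ z‖ ≤ M) ∧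
      (∀ z ∈ K, p.1.2 ≤ ‖z - x₀‖ → ‖φ z‖ ≤ 1 / 2) ∧
      (∀ z, q.1.1 z = p.1.1 z + (θ : ℂ) ^ k * φ z) ∧ q.1.2 ≤ p.1.2 / 2 ∧
      ∀ z, ‖z - x₀‖ < q.1.2 → ‖q.1.1 z - q.1.1 x₀‖ ≤ θ ^ (k + 1) := by
    rintro k ⟨⟨S, D⟩, hS, hD⟩
    obtain ⟨φ, h1, h2, h3, h4⟩ := h D hD
    have hA : (fun z => S z + (θ : ℂ) ^ k * φ z) ∈ Alg Kᶜ := Alg.add hS (Alg.const_mul h1 _)
    obtain ⟨ρ, hρ, hρ'⟩ := Metric.continuousAt_iff.1 (Alg.continuousAt hA (not_not.2 hx))
      (θ ^ (k + 1)) (by positivity)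
    refine ⟨⟨⟨_, min ρ (D / 2)⟩, hA, lt_min hρ (half_pos hD)⟩, φ, h1, h2, h3, h4, fun z => rfl,
      min_le_right _ _, fun z hz => ?_⟩
    have := hρ' (x := z) (by rw [dist_eq_norm]; exact hz.trans_le (min_le_left _ _))
    rw [dist_eq_norm] at this
    exact this.le
  choose nxt φ' s1 s2 s3 s4 s5 s6 s7 using step
  let seq : ℕ → St := fun n => Nat.rec ⟨⟨fun _ => 0, 1⟩, const_mem_Alg _ 0, one_pos⟩ nxt n
  set φ : ℕ → ℂ → ℂ := fun k => φ' k (seq k) with hφ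
  set D : ℕ → ℝ := fun k => (seq k).1.2 with hD
  have hS : ∀ n z, (seq n).1.1 z = ∑ j ∈ Finset.range n, (θ : ℂ) ^ j * φ j z := by
    intro n z
    induction n with
    | zero => rfl
    | succ n ih => rw [Finset.sum_range_succ, ← ih]; exact s5 n (seq n) z
  have hDs : ∀ n, D (n + 1) ≤ D n / 2 := fun n => s6 n (seq n)
  have hDp : ∀ n, 0 < D n := fun n => (seq n).2.2
  have hDa : Antitone D := antitone_nat_of_succ_le fun n => by linarith [hDs n, hDp n]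
  have hDl : ∀ n, D n ≤ (1 / 2) ^ n := by
    intro n
    induction n with
    | zero => exact le_of_eq (pow_zero _).symm
    | succ n ih => rw [pow_succ]; linarith [hDs n]
  have hcont : ∀ n z, ‖z - x₀‖ < D n → ‖(seq n).1.1 z - (seq n).1.1 x₀‖ ≤ θ ^ n := by
    intro n z hz
    cases n with
    | zero => simp [hS]
    | succ n => exact s7 n (seq n) z hz
  have hgeo := hasSum_geometric_of_lt_one hθ0.le hθ1
  have hnorm : ∀ j z, ‖(θ : ℂ) ^ j * φ j z‖ = θ ^ j * ‖φ j z‖ := fun j z => by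
    rw [norm_mul, norm_pow, Complex.norm_real, Real.norm_eq_abs, abs_of_pos hθ0]
  have hsum : ∀ z ∈ K, Summable fun j => (θ : ℂ) ^ j * φ j z := fun z hz =>
    Summable.of_norm_bounded (hgeo.summable.mul_right M) fun j => by
      rw [hnorm]; exact mul_le_mul_of_nonneg_left (s3 j _ z hz) (by positivity)
  have htail : ∀ z ∈ K, ∀ (n : ℕ) (B : ℝ), (∀ j, n ≤ j → ‖φ j z‖ ≤ B) →
      ‖∑' j, (θ : ℂ) ^ j * φ j z - (seq n).1.1 z‖ ≤ B * θ ^ n * (1 - θ)⁻¹ := by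
    intro z hz n B hB
    rw [hS, ← (hsum z hz).sum_add_tsum_nat_add n, add_sub_cancel_left]
    refine tsum_of_norm_bounded (hgeo.mul_left (B * θ ^ n)) fun j => ?_
    rw [hnorm, pow_add]
    calc θ ^ j * θ ^ n * ‖φ (j + n) z‖ ≤ θ ^ j * θ ^ n * B := by
          gcongr; exact hB _ (Nat.le_add_left n j)
      _ = _ := by ring
  have h1θ : 0 < 1 - θ := by linarith
  have hn1 : ‖((1 - θ : ℝ) : ℂ)‖ = 1 - θ := by
    rw [Complex.norm_real, Real.norm_eq_abs, abs_of_pos h1θ]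
  refine ⟨fun z => ((1 - θ : ℝ) : ℂ) * ∑' j, (θ : ℂ) ^ j * φ j z, fun ε hε => ?_, ?_,
    fun x hxK hne => ?_⟩
  · obtain ⟨n, hn⟩ := exists_pow_lt_of_lt_one (div_pos hε (by linarith : 0 < M)) hθ1
    refine ⟨fun z => ((1 - θ : ℝ) : ℂ) * (seq n).1.1 z, Alg.const_mul (seq n).2.1 _,
      fun z hz => ?_⟩
    rw [← mul_sub, norm_mul, hn1]
    have := htail z hz n M fun j _ => s3 j _ z hz
    rw [lt_div_iff₀ (by linarith)] at hn
    calc _ ≤ (1 - θ) * (M * θ ^ n * (1 - θ)⁻¹) := by gcongr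
      _ = θ ^ n * M := by field_simp
      _ < ε := hn
  · have : ∀ j, (θ : ℂ) ^ j * φ j x₀ = ((θ ^ j : ℝ) : ℂ) := fun j => by
      rw [show φ j x₀ = 1 from s2 j _]; simp
    simp only [this]
    rw [← Complex.ofReal_tsum, hgeo.tsum_eq, ← Complex.ofReal_mul, mul_inv_cancel₀ h1θ.ne']
    simp
  · have hpos : 0 < ‖x - x₀‖ := norm_pos_iff.2 (sub_ne_zero.2 hne)
    have hex : ∃ n, D n ≤ ‖x - x₀‖ := by
      obtain ⟨n, hn⟩ := exists_pow_lt_of_lt_one hpos (by norm_num : (1 / 2 : ℝ) < 1)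
      exact ⟨n, (hDl n).trans hn.le⟩
    have hn := Nat.find_spec hex
    have ht := htail x hxK (Nat.find hex) (1 / 2) fun j hj => s4 j _ x hxK ((hDa hj).trans hn)
    rw [norm_mul, hn1, ← lt_div_iff₀' h1θ, one_div]
    have hinv : 0 < (1 - θ)⁻¹ := inv_pos.2 h1θ
    rcases hf : Nat.find hex with _ | m
    · rw [hf, hS] at ht
      simp only [Finset.range_zero, Finset.sum_empty, sub_zero, pow_zero] at ht
      linarith
    · rw [hf] at ht
      have h2 : ‖x - x₀‖ < D m := not_le.1 (Nat.find_min hex (by omega))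
      have h3 := hcont m x h2
      have h4 : (seq m).1.1 x₀ = ((∑ j ∈ Finset.range m, θ ^ j : ℝ) : ℂ) := by
        rw [hS]; push_cast
        exact Finset.sum_congr rfl fun j _ => by rw [show φ j x₀ = 1 from s2 j _, mul_one]
      have h5 : ∑ j ∈ Finset.range m, θ ^ j = (1 - θ)⁻¹ - θ ^ m * (1 + θ * (1 - θ)⁻¹) := by
        rw [geom_sum_eq hθ1.ne]
        have : θ - 1 ≠ 0 := by linarith
        field_simp
        ring
      have h6 : ‖(seq m).1.1 x₀‖ = (1 - θ)⁻¹ - θ ^ m * (1 + θ * (1 - θ)⁻¹) := by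
        rw [h4, Complex.norm_real, Real.norm_eq_abs,
          abs_of_nonneg (Finset.sum_nonneg fun j _ => by positivity), h5]
      have h7 : (seq (m + 1)).1.1 x = (seq m).1.1 x + (θ : ℂ) ^ m * φ m x := s5 m (seq m) x
      have h8 : ‖(θ : ℂ) ^ m * φ m x‖ ≤ θ ^ m * M := by
        rw [hnorm]; exact mul_le_mul_of_nonneg_left (s3 m _ x hxK) (by positivity)
      have h9 : ∑' j, (θ : ℂ) ^ j * φ j x =
          (∑' j, (θ : ℂ) ^ j * φ j x - (seq (m + 1)).1.1 x) +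
          ((seq m).1.1 x - (seq m).1.1 x₀) + ((seq m).1.1 x₀ + (θ : ℂ) ^ m * φ m x) := by
        rw [h7]; ring
      have h10 : 1 / 2 * θ ^ (m + 1) * (1 - θ)⁻¹ = θ ^ m * (M + 1 / 2) := by
        rw [pow_succ]; linear_combination (1 / 2 * θ ^ m) * hθM
      have h11 : 0 < θ ^ m := by positivity
      rw [h9]
      rw [h10] at ht
      rw [hθM] at h6
      have h12 := norm_add₃_le (a := ∑' j, (θ : ℂ) ^ j * φ j x - (seq (m + 1)).1.1 x)
        (b := (seq m).1.1 x - (seq m).1.1 x₀) (c := (seq m).1.1 x₀ + (θ : ℂ) ^ m * φ m x)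
      have h13 := norm_add_le ((seq m).1.1 x₀) ((θ : ℂ) ^ m * φ m x)
      nlinarith

theorem exists_peak {K : Set ℂ} {x₀ : ℂ} (hx : x₀ ∈ K) {c : ℝ} (hc : 0 < c)
    (h : ∀ r₀, 0 < r₀ → ∃ r, 0 < r ∧ r ≤ r₀ ∧ Cap (Kᶜ ∩ ball x₀ r) (c * r)) :
    ∃ f : ℂ → ℂ, (∀ ε : ℝ, 0 < ε → ∃ p q : Polynomial ℂ, (∀ z ∈ K, q.eval z ≠ 0) ∧
      ∀ z ∈ K, ‖f z - p.eval z / q.eval z‖ < ε) ∧ f x₀ = 1 ∧ ∀ x ∈ K, x ≠ x₀ → ‖f x‖ < 1 := by
  obtain ⟨f, h1, h2, h3⟩ := bishop hx (M := 1 + 8 / c) (le_add_of_nonneg_right (by positivity))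
    fun D hD => exists_bump hx hc h hD
  refine ⟨f, fun ε hε => ?_, h2, h3⟩
  obtain ⟨g, hg, hfg⟩ := h1 ε hε
  obtain ⟨p, q, hq, hpq⟩ := Alg.exists_poly hg
  exact ⟨p, q, fun z hz => hq z (not_not.2 hz), fun z hz => hpq z (not_not.2 hz) ▸ hfg z hz⟩

end Pool.Agent.NonPeak
end

-- merged part: Pool.Agent.Work.MP_f4b807_an.Topo
section
set_option autoImplicit false

open Set Filter Topology Metric

namespace Pool.Agent.NonPeak

theorem unicoherent {V Ω : Set ℂ} (hV : IsOpen V) (hΩ : IsOpen Ω) (hVc : IsPreconnected V)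
    (hΩc : IsPreconnected Ω) (hcov : ∀ z, z ∈ V ∨ z ∈ Ω) : IsPreconnected (V ∩ Ω) := by
  classical
  intro D₁ D₂ hD₁ hD₂ hsub ⟨x₁, hx₁, hx₁'⟩ ⟨x₂, hx₂, hx₂'⟩
  by_contra hcon
  obtain ⟨u, hu0, hu1, -⟩ := exists_continuous_zero_one_of_isClosed hΩ.isClosed_compl
    hV.isClosed_compl (Set.disjoint_left.2 fun z h1 h2 => (hcov z).elim h2 h1)
  set E := V ∩ Ω ∩ D₂ with hE
  have hEo : IsOpen E := (hV.inter hΩ).inter hD₂
  have hfr : ∀ z ∈ frontier E, ¬ (z ∈ V ∧ z ∈ Ω) := by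
    intro z hz hz'
    rw [hEo.frontier_eq] at hz
    rcases hsub hz' with h | h
    · obtain ⟨y, hy1, hy2⟩ := mem_closure_iff.1 hz.1 D₁ hD₁ h
      exact hcon ⟨y, hy2.1, hy1, hy2.2⟩
    · exact hz.2 ⟨hz', h⟩
  set e : ℂ → ℂ := fun z => Complex.exp (Real.pi / 2 * Complex.I * u z) with he
  set e' : ℂ → ℂ := fun z => Complex.exp (-(Real.pi / 2 * Complex.I * u z)) with he'
  have hec : Continuous e := by rw [he]; fun_prop
  have hec' : Continuous e' := by rw [he']; fun_prop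
  set rV := E.piecewise e' e with hrV
  set rΩ := E.piecewise (-e') e with hrΩ
  have cV : ContinuousOn rV V := by
    refine ContinuousOn.piecewise ?_ hec'.continuousOn hec.continuousOn
    rintro z ⟨h1, h2⟩
    have : u z = 0 := hu0 fun h => hfr z h2 ⟨h1, h⟩
    simp [he, he', this]
  have cΩ : ContinuousOn rΩ Ω := by
    refine ContinuousOn.piecewise ?_ hec'.neg.continuousOn hec.continuousOn
    rintro z ⟨h1, h2⟩
    have : u z = 1 := hu1 fun h => hfr z h2 ⟨h, h1⟩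
    simp [he, he', this, Complex.exp_neg]
  have hsq : ∀ z, rV z ^ 2 = rΩ z ^ 2 := fun z => by
    by_cases hz : z ∈ E <;> simp [hrV, hrΩ, hz]
  have hne : ∀ z, rV z ≠ 0 := fun z => by
    by_cases hz : z ∈ E <;> simp [hrV, hz, he, he']
  have hne' : ∀ z, rΩ z ≠ 0 := fun z => by
    by_cases hz : z ∈ E <;> simp [hrΩ, hz, he, he']
  have hfc : ContinuousOn (fun z => rV z ^ 2) univ := by
    intro z _
    rcases hcov z with h | h
    · exact ((cV.continuousAt (hV.mem_nhds h)).pow 2).continuousWithinAt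
    · simp only [hsq]
      exact ((cΩ.continuousAt (hΩ.mem_nhds h)).pow 2).continuousWithinAt
  have hsc : IsSimplyConnected (univ : Set ℂ) := by
    have := (convex_univ (𝕜 := ℝ) (E := ℂ)).contractibleSpace univ_nonempty
    exact SimplyConnectedSpace.ofContractible _
  obtain ⟨r, hr, hr2⟩ := Complex.exists_continuousOn_pow_eq hsc isOpen_univ hfc
    (by rintro ⟨z, -, hz⟩; exact pow_ne_zero 2 (hne z) hz) two_ne_zero
  have h1 := hVc.eq_or_eq_neg_of_sq_eq (hr.mono (subset_univ _)) cV (fun z _ => hr2 z)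
    (fun {z} _ => hne z)
  have h2 := hΩc.eq_or_eq_neg_of_sq_eq (hr.mono (subset_univ _)) cΩ
    (fun z _ => (hr2 z).trans (hsq z)) (fun {z} _ => hne' z)
  have hx₁E : x₁ ∉ E := fun h => hcon ⟨x₁, hx₁, hx₁', h.2⟩
  have hx₂E : x₂ ∈ E := ⟨hx₂, hx₂'⟩
  have k1 : rV x₁ = rΩ x₁ := by simp [hrV, hrΩ, hx₁E]
  have k2 : rV x₂ = -rΩ x₂ := by simp [hrV, hrΩ, hx₂E]
  have n1 := hne' x₁
  have n2 := hne' x₂
  rcases h1 with h1 | h1 <;> rcases h2 with h2 | h2
  · have a := h1 hx₂.1; have b := h2 hx₂.2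
    exact n2 (by linear_combination (a - b + k2) / 2)
  · have a := h1 hx₁.1; have b := h2 hx₁.2
    simp only [Pi.neg_apply] at b
    exact n1 (by linear_combination (b - a - k1) / 2)
  · have a := h1 hx₁.1; have b := h2 hx₁.2
    simp only [Pi.neg_apply] at a
    exact n1 (by linear_combination (a - b - k1) / 2)
  · have a := h1 hx₂.1; have b := h2 hx₂.2
    simp only [Pi.neg_apply] at a b
    exact n2 (by linear_combination (b - a + k2) / 2)

/-- The unbounded component of the complement. -/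
def Out (A : Set ℂ) : Set ℂ := {z | ¬ Bornology.IsBounded (connectedComponentIn Aᶜ z)}

theorem Out_subset {A : Set ℂ} : Out A ⊆ Aᶜ := by
  intro z hz
  by_contra h
  exact hz (by rw [connectedComponentIn_eq_empty h]; exact Bornology.isBounded_empty)

theorem subset_Out {A E : Set ℂ} (hE : IsPreconnected E) (hEA : E ⊆ Aᶜ)
    (hb : ¬ Bornology.IsBounded E) : E ⊆ Out A := fun _ hz h =>
  hb (h.subset (hE.subset_connectedComponentIn hz hEA))

theorem subset_Out_of_mem {A E : Set ℂ} (hE : IsPreconnected E) (hEA : E ⊆ Aᶜ) {y : ℂ}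
    (hy : y ∈ E) (hy' : y ∈ Out A) : E ⊆ Out A := fun z hz h => by
  rw [← connectedComponentIn_eq (hE.subset_connectedComponentIn hy hEA hz)] at h
  exact hy' h

theorem Out_anti {A B : Set ℂ} (h : A ⊆ B) : Out B ⊆ Out A := fun z hz h' =>
  hz (h'.subset (connectedComponentIn_mono z (compl_subset_compl.2 h)))

theorem not_isBounded_compl {B : Set ℂ} (hB : Bornology.IsBounded B) :
    ¬ Bornology.IsBounded Bᶜ := fun h => by
  have := hB.union h
  rw [union_compl_self] at this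
  exact NormedSpace.unbounded_univ ℝ ℂ this

theorem compl_ball_subset_Out {A : Set ℂ} {p : ℂ} {r : ℝ} (hr : 0 ≤ r) (h : A ⊆ ball p r) :
    (ball p r)ᶜ ⊆ Out A :=
  subset_Out (isPreconnected_compl_ball p hr) (compl_subset_compl.2 h)
    (not_isBounded_compl isBounded_ball)

theorem isOpen_Out {A : Set ℂ} (hA : IsClosed A) : IsOpen (Out A) := by
  refine isOpen_iff_mem_nhds.2 fun z hz => ?_
  have hz' := mem_connectedComponentIn (Out_subset hz)
  exact mem_of_superset (hA.isOpen_compl.connectedComponentIn.mem_nhds hz')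
    (subset_Out_of_mem isPreconnected_connectedComponentIn (connectedComponentIn_subset _ _) hz' hz)

theorem isOpen_In {A : Set ℂ} (hA : IsClosed A) : IsOpen (Aᶜ \ Out A) := by
  refine isOpen_iff_mem_nhds.2 fun z hz => ?_
  have hz' := mem_connectedComponentIn hz.1
  refine mem_of_superset (hA.isOpen_compl.connectedComponentIn.mem_nhds hz') fun y hy =>
    ⟨connectedComponentIn_subset _ _ hy, fun h => hz.2 ?_⟩
  exact subset_Out_of_mem isPreconnected_connectedComponentIn (connectedComponentIn_subset _ _)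
    hy h hz'

theorem isPreconnected_Out {A : Set ℂ} (hA : Bornology.IsBounded A) : IsPreconnected (Out A) := by
  obtain ⟨R, hR, hAR⟩ := hA.subset_ball_lt 0 0
  have hext := compl_ball_subset_Out hR.le hAR
  refine isPreconnected_of_forall (R : ℂ) fun z hz => ?_
  have hz' := mem_connectedComponentIn (Out_subset hz)
  refine ⟨connectedComponentIn Aᶜ z ∪ (ball 0 R)ᶜ, union_subset
    (subset_Out_of_mem isPreconnected_connectedComponentIn (connectedComponentIn_subset _ _) hz' hz)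
    hext, Or.inr (by simp [abs_of_pos hR]), Or.inl hz', ?_⟩
  refine isPreconnected_connectedComponentIn.union' ?_ (isPreconnected_compl_ball 0 hR.le)
  by_contra h
  refine hz (isBounded_ball.subset (s := connectedComponentIn Aᶜ z) (t := ball 0 R) fun y hy => ?_)
  by_contra h'
  exact h ⟨y, hy, h'⟩

theorem exists_far_Out {A B : Set ℂ} (hA : Bornology.IsBounded A) (hB : Bornology.IsBounded B) :
    ¬ Bornology.IsBounded (Out A ∩ Out B) := by
  obtain ⟨R, hR, hAR⟩ := (hA.union hB).subset_ball_lt 0 0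
  exact fun h => not_isBounded_compl isBounded_ball (h.subset (subset_inter
    (compl_ball_subset_Out hR.le (subset_union_left.trans hAR))
    (compl_ball_subset_Out hR.le (subset_union_right.trans hAR))))

theorem inter_nonempty_of_open {A S C : Set ℂ} (hS : IsOpen S) (hAS : A ⊆ S) (hC : IsOpen C)
    (hne : C.Nonempty) (hne' : C ≠ univ) (hcl : ∀ x, x ∉ A → x ∈ closure C → x ∈ C) :
    (S ∩ C).Nonempty := by
  by_contra h
  refine hne' (IsClopen.eq_univ ⟨isClosed_of_closure_subset fun x hx => ?_, hC⟩ hne)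
  by_cases hxA : x ∈ A
  · exact absurd (mem_closure_iff.1 hx S hS (hAS hxA)) h
  · exact hcl x hxA hx

theorem isPreconnected_inter_Out {A S : Set ℂ} (hA : IsCompact A) (hS : IsOpen S)
    (hSc : IsPreconnected S) (hAS : A ⊆ S) : IsPreconnected (S ∩ Out A) := by
  rcases S.eq_empty_or_nonempty with rfl | ⟨x₀, hx₀⟩
  · simpa using isPreconnected_empty
  have h := unicoherent (V := S ∪ (Aᶜ \ Out A)) (hS.union (isOpen_In hA.isClosed))
    (isOpen_Out hA.isClosed) ?_ (isPreconnected_Out hA.isBounded) ?_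
  · convert h using 1
    ext z
    exact ⟨fun h => ⟨Or.inl h.1, h.2⟩, fun h => ⟨h.1.resolve_right fun h' => h'.2 h.2, h.2⟩⟩
  · refine isPreconnected_of_forall x₀ ?_
    rintro y (hy | hy)
    · exact ⟨S, subset_union_left, hx₀, hy, hSc⟩
    · have hy' := mem_connectedComponentIn hy.1
      refine ⟨S ∪ connectedComponentIn Aᶜ y, union_subset_union_right _ fun x hx =>
        ⟨connectedComponentIn_subset _ _ hx, fun h => hy.2 (subset_Out_of_mem
          isPreconnected_connectedComponentIn (connectedComponentIn_subset _ _) hx h hy')⟩,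
        Or.inl hx₀, Or.inr hy', hSc.union' ?_ isPreconnected_connectedComponentIn⟩
      refine inter_nonempty_of_open hS hAS hA.isClosed.isOpen_compl.connectedComponentIn ⟨y, hy'⟩
        (fun h => hy.2 ?_) fun x hx hx' => ?_
      · change ¬ Bornology.IsBounded _
        rw [h]
        exact NormedSpace.unbounded_univ ℝ ℂ
      · obtain ⟨w, hw1, hw2⟩ := mem_closure_iff.1 hx' _
          hA.isClosed.isOpen_compl.connectedComponentIn (mem_connectedComponentIn hx)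
        rw [connectedComponentIn_eq hw2, ← connectedComponentIn_eq hw1]
        exact mem_connectedComponentIn hx
  · intro z
    by_cases h1 : z ∈ A
    · exact Or.inl (Or.inl (hAS h1))
    · by_cases h2 : z ∈ Out A
      · exact Or.inr h2
      · exact Or.inl (Or.inr ⟨h1, h2⟩)

/-- Janiszewski's theorem for disjoint compact sets. -/
theorem janiszewski {C D : Set ℂ} (hC : IsCompact C) (hD : IsCompact D) (h : Disjoint C D) :
    Out C ∩ Out D ⊆ Out (C ∪ D) := by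
  have hC₁ : IsCompact (C ∩ Out D) := by
    have : C ∩ Out D = C \ (Dᶜ \ Out D) := by
      ext z
      exact ⟨fun hz => ⟨hz.1, fun h => h.2 hz.2⟩, fun hz => ⟨hz.1, by
        by_contra h'; exact hz.2 ⟨Set.disjoint_left.1 h hz.1, h'⟩⟩⟩
    rw [this]
    exact hC.diff (isOpen_In hD.isClosed)
  have h1 := isPreconnected_inter_Out hC₁ (isOpen_Out hD.isClosed)
    (isPreconnected_Out hD.isBounded) inter_subset_right
  have h2 := subset_Out (A := C ∪ D) h1 ?_ (exists_far_Out hD.isBounded hC₁.isBounded)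
  · exact fun z hz => h2 ⟨hz.2, Out_anti inter_subset_left hz.1⟩
  · rintro z ⟨hz1, hz2⟩ (hz | hz)
    · exact Out_subset hz2 ⟨hz, hz1⟩
    · exact Out_subset hz1 hz

theorem inter_Out_nonempty {A S : Set ℂ} (hA : IsCompact A) (hS : IsOpen S) (hAS : A ⊆ S)
    (hne : S.Nonempty) : (S ∩ Out A).Nonempty := by
  by_cases h : Out A = univ
  · simpa [h] using hne
  refine inter_nonempty_of_open hS hAS (isOpen_Out hA.isClosed) ?_ h fun x hx hx' => ?_
  · by_contra h'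
    rw [not_nonempty_iff_eq_empty] at h'
    exact exists_far_Out hA.isBounded hA.isBounded (by simp [h'])
  · by_contra h'
    obtain ⟨w, hw1, hw2⟩ := mem_closure_iff.1 hx' _ (isOpen_In hA.isClosed) ⟨hx, h'⟩
    exact hw1.2 hw2

end Pool.Agent.NonPeak
end

-- merged part: Pool.Agent.Work.MP_f4b807_an.Reroute
section
set_option autoImplicit false

open Set Filter Topology Metric

namespace Pool.Agent.NonPeak

/-- A compact, relatively open part of `Z`. -/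
def Piece (Z A : Set ℂ) : Prop := IsCompact A ∧ ∃ O, IsOpen O ∧ A = Z ∩ O

theorem Piece.subset {Z A : Set ℂ} (h : Piece Z A) : A ⊆ Z := by
  obtain ⟨-, O, -, rfl⟩ := h
  exact inter_subset_left

theorem Piece.biUnion {Z : Set ℂ} {J : Set ℂ} (hJ : J.Finite) {A : ℂ → Set ℂ}
    (h : ∀ b ∈ J, Piece Z (A b)) : Piece Z (⋃ b ∈ J, A b) := by
  refine ⟨hJ.isCompact_biUnion fun b hb => (h b hb).1, ?_⟩
  choose! O hO hA using fun b hb => (h b hb).2
  refine ⟨⋃ b ∈ J, O b, isOpen_biUnion hO, ?_⟩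
  rw [inter_iUnion₂]
  exact iUnion₂_congr hA

theorem Piece.isClosed_diff {Z A : Set ℂ} (hZ : IsClosed Z) (h : Piece Z A) :
    IsClosed (Z \ A) := by
  obtain ⟨-, O, hO, rfl⟩ := h
  rw [sdiff_self_inter]
  exact hZ.sdiff hO

theorem Piece.isCompact_diff {Z A B : Set ℂ} (h : Piece Z A) (hB : IsCompact B) (hBZ : B ⊆ Z) :
    IsCompact (B \ A) := by
  obtain ⟨-, O, hO, rfl⟩ := h
  convert hB.diff hO using 1
  ext z
  exact ⟨fun h => ⟨h.1, fun h' => h.2 ⟨hBZ h.1, h'⟩⟩, fun h => ⟨h.1, fun h' => h.2 h'.2⟩⟩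

theorem subset_Out_small {Z E : Set ℂ} (hE : IsPreconnected E) {A : ℂ → Set ℂ} {r : ℂ → ℝ}
    (J : Finset ℂ) (h : ∀ b ∈ J, Piece Z (A b) ∧ 0 ≤ r b ∧ A b ⊆ ball b (r b) ∧
      ¬ E ⊆ ball b (r b)) :
    ∀ B : Set ℂ, IsCompact B → B ⊆ ⋃ b ∈ J, A b → E ⊆ Bᶜ → E ⊆ Out B := by
  classical
  induction J using Finset.induction_on with
  | empty =>
    intro B _ hB _
    have : B = ∅ := by simpa using hB
    subst this
    exact (subset_univ E).trans (subset_Out isPreconnected_univ (by simp)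
      (NormedSpace.unbounded_univ ℝ ℂ))
  | insert b J hb ih =>
    intro B hB hBA hEB
    obtain ⟨h1, h2, h3, h4⟩ := h b (Finset.mem_insert_self b J)
    have hBZ : B ⊆ Z := hBA.trans (iUnion₂_subset fun x hx => (h x hx).1.subset)
    have k1 : E ⊆ Out (B ∩ A b) := by
      obtain ⟨y, hy, hy'⟩ := not_subset.1 h4
      exact subset_Out_of_mem hE (hEB.trans (compl_subset_compl.2 inter_subset_left)) hy
        (compl_ball_subset_Out h2 (inter_subset_right.trans h3) hy')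
    have k2 : E ⊆ Out (B \ A b) := by
      refine ih (fun x hx => h x (Finset.mem_insert_of_mem hx)) _ (h1.isCompact_diff hB hBZ) ?_
        (hEB.trans (compl_subset_compl.2 sdiff_subset))
      rintro z ⟨hz1, hz2⟩
      have := hBA hz1
      rw [Finset.set_biUnion_insert] at this
      exact this.resolve_left hz2
    have k3 := janiszewski (hB.inter_right h1.1.isClosed) (h1.isCompact_diff hB hBZ)
      (Set.disjoint_left.2 fun z h1 h2 => h2.2 h1.2)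
    rw [inter_union_sdiff] at k3
    exact (subset_inter k1 k2).trans k3

theorem isOpen_diff_component {O : Set ℂ} (hO : IsOpen O) (y : ℂ) :
    IsOpen (O \ connectedComponentIn O y) := by
  refine isOpen_iff_mem_nhds.2 fun z hz => ?_
  refine mem_of_superset (hO.connectedComponentIn.mem_nhds (mem_connectedComponentIn hz.1))
    fun x hx => ⟨connectedComponentIn_subset _ _ hx, fun h => hz.2 ?_⟩
  rw [connectedComponentIn_eq h, ← connectedComponentIn_eq hx]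
  exact mem_connectedComponentIn hz.1

theorem exists_regions {Z Γ : Set ℂ} (hZ : IsClosed Z) (hΓ : IsCompact Γ) (hΓc : IsPreconnected Γ)
    {x₀ : ℂ} (hx₀ : x₀ ∉ Z) {ρ : ℝ} (hρ : 0 < ρ) (hlong : ∀ y, ¬ Γ ⊆ closedBall y (2 * ρ))
    (hpiece : ∀ b ∈ Γ, b ∈ Z → ∃ (A : Set ℂ) (r : ℝ), Piece Z A ∧ b ∈ A ∧ 0 ≤ r ∧ r ≤ ρ ∧
      A ⊆ ball b r ∧ x₀ ∉ ball b r) :
    ∃ q : ℂ → ℂ, (x₀ ∈ Γ → q x₀ = x₀) ∧ (∀ y ∈ Γ, q y ∉ Z ∧ q y ∈ ball y (6 * ρ)) ∧
      ∀ y ∈ Γ, ∀ y' ∈ Γ, ∀ E ⊆ Γ ∩ ball y ρ, IsPreconnected E → y ∈ E → y' ∈ E →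
        JoinedIn (Zᶜ ∩ ball y (6 * ρ)) (q y) (q y') := by
  classical
  choose! A r hA using fun b (hb : b ∈ Γ ∩ Z) => hpiece b hb.1 hb.2
  obtain ⟨J, hJ, hcov⟩ : ∃ J : Finset ℂ, (∀ b ∈ J, b ∈ Γ ∩ Z) ∧ Γ ∩ Z ⊆ ⋃ b ∈ J, A b := by
    choose! O hO hAO using fun b (hb : b ∈ Γ ∩ Z) => (hA b hb).1.2
    obtain ⟨J, hJ, hcov⟩ := (hΓ.inter_right hZ).elim_nhds_subcover O fun b hb =>
      (hO b hb).mem_nhds (by have := (hA b hb).2.1; rw [hAO b hb] at this; exact this.2)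
    refine ⟨J, hJ, fun z hz => ?_⟩
    obtain ⟨b, hb, hzb⟩ := mem_iUnion₂.1 (hcov hz)
    exact mem_iUnion₂.2 ⟨b, hb, by rw [hAO b (hJ b hb)]; exact ⟨hz.2, hzb⟩⟩
  set Aall : Set ℂ := ⋃ b ∈ J, A b with hAall
  have hAallP : Piece Z Aall := Piece.biUnion J.finite_toSet fun b hb => (hA b (hJ b hb)).1
  set AL : ℂ → ℝ → Set ℂ := fun y R =>
    ⋃ b ∈ {b | b ∈ J ∧ (A b ∩ ball y R).Nonempty}, A b with hAL
  have hALP : ∀ y R, Piece Z (AL y R) := fun y R =>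
    Piece.biUnion (J.finite_toSet.subset fun b hb => hb.1) fun b hb => (hA b (hJ b hb.1)).1
  have hALall : ∀ y R, AL y R ⊆ Aall := fun y R =>
    iUnion₂_subset fun b hb => subset_biUnion_of_mem (u := A) hb.1
  have hALb : ∀ y R, AL y R ⊆ ball y (R + 2 * ρ) := by
    intro y R
    refine iUnion₂_subset ?_
    rintro b ⟨hb, x, hx1, hx2⟩ z hz
    obtain ⟨-, -, -, h4, h5, -⟩ := hA b (hJ b hb)
    have k1 := mem_ball.1 (h5 hz)
    have k2 := mem_ball'.1 (h5 hx1)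
    rw [mem_ball] at hx2 ⊢
    linarith [dist_triangle4 z b x y]
  set OL : ℂ → ℝ → Set ℂ := fun y R => ball y (R + 2 * ρ) \ (Z \ AL y R) with hOL
  have hOLo : ∀ y R, IsOpen (OL y R) := fun y R =>
    isOpen_ball.sdiff ((hALP y R).isClosed_diff hZ)
  have hΓO : ∀ y R, Γ ∩ ball y R ⊆ OL y R := by
    rintro y R z ⟨hz1, hz2⟩
    refine ⟨ball_subset_ball (by linarith) hz2, fun h => h.2 ?_⟩
    obtain ⟨b, hb, hzb⟩ := mem_iUnion₂.1 (hcov ⟨hz1, h.1⟩)
    exact mem_iUnion₂.2 ⟨b, ⟨hb, z, hzb, hz2⟩, hzb⟩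
  have hOZ : ∀ y R, ∀ z ∈ OL y R, z ∈ Z → z ∈ AL y R := fun y R z hz hzZ => by
    by_contra h
    exact hz.2 ⟨hzZ, h⟩
  have hmono : ∀ y y' R R', dist y y' + R ≤ R' → OL y R ⊆ OL y' R' := by
    intro y y' R R' h z hz
    refine ⟨ball_subset_ball' (by linarith) hz.1, fun h' => h'.2 ?_⟩
    obtain ⟨b, ⟨hb, x, hx1, hx2⟩, hzb⟩ := mem_iUnion₂.1 (hOZ y R z hz h'.1)
    exact mem_iUnion₂.2 ⟨b, ⟨hb, x, hx1, ball_subset_ball' (by linarith) hx2⟩, hzb⟩
  set S : ℂ → ℝ → Set ℂ := fun y R => connectedComponentIn (OL y R) y with hS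
  have hSo : ∀ y R, IsOpen (S y R) := fun y R => (hOLo y R).connectedComponentIn
  have hSc : ∀ y R, IsPreconnected (S y R) := fun y R => isPreconnected_connectedComponentIn
  have hSO : ∀ y R, S y R ⊆ OL y R := fun y R => connectedComponentIn_subset _ _
  have hSm : ∀ y ∈ Γ, ∀ R, 0 < R → y ∈ S y R := fun y hy R hR =>
    mem_connectedComponentIn (hΓO y R ⟨hy, mem_ball_self hR⟩)
  have hSZ : ∀ y R, IsCompact (S y R ∩ Z) := by
    intro y R
    convert (hALP y R).1.diff (isOpen_diff_component (hOLo y R) y) using 1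
    ext z
    refine ⟨fun h => ⟨hOZ y R z (hSO y R h.1) h.2, fun h' => h'.2 h.1⟩, fun h =>
      ⟨?_, (hALP y R).subset h.1⟩⟩
    by_contra h'
    exact h.2 ⟨⟨hALb y R h.1, fun h'' => h''.2 h.1⟩, h'⟩
  have hSA : ∀ y R, S y R ∩ Z ⊆ Aall := fun y R z hz => hALall y R (hOZ y R z (hSO y R hz.1) hz.2)
  have hSl : ∀ y ∈ Γ, ¬ S y (3 * ρ) ⊆ closedBall y (2 * ρ) := by
    intro y hy h
    refine hlong y (subset_trans ?_ h)
    refine hΓc.subset_left_of_subset_union (hSo y _)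
      ((isOpen_diff_component (hOLo y (3 * ρ)) y).union
        (isClosed_closedBall (x := y) (ε := 2 * ρ)).isOpen_compl)
      (Set.disjoint_left.2 fun z h1 h2 => h2.elim (fun h3 => h3.2 h1) fun h3 => h3 (h h1))
      (fun z hz => ?_) ⟨y, hy, hSm y hy _ (by positivity)⟩
    by_cases h1 : z ∈ closedBall y (2 * ρ)
    · by_cases h2 : z ∈ S y (3 * ρ)
      · exact Or.inl h2
      · exact Or.inr (Or.inl ⟨hΓO y _ ⟨hz, closedBall_subset_ball (by linarith) h1⟩, h2⟩)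
    · exact Or.inr (Or.inr h1)
  have hq : ∀ y, ∃ q, y ∈ Γ → q ∈ S y (3 * ρ) ∧ q ∈ Out Aall ∧ (y = x₀ → q = x₀) := by
    intro y
    by_cases hy : y ∈ Γ
    swap
    · exact ⟨y, fun h => absurd h hy⟩
    by_cases hyx : y = x₀
    · subst hyx
      refine ⟨y, fun _ => ⟨hSm y hy _ (by positivity), ?_, fun _ => rfl⟩⟩
      refine subset_Out_small isPreconnected_singleton (Z := Z) (A := A) (r := r) J
        (fun b hb => ?_) Aall hAallP.1 le_rfl
        (singleton_subset_iff.2 fun h => hx₀ (hAallP.subset h)) rfl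
      obtain ⟨h1, -, h3, -, h5, h6⟩ := hA b (hJ b hb)
      exact ⟨h1, h3, h5, fun h => h6 (h rfl)⟩
    have hSP : Piece Z (S y (3 * ρ) ∩ Z) := ⟨hSZ y _, _, hSo y _, inter_comm _ _⟩
    obtain ⟨q, hq1, hq2⟩ := inter_Out_nonempty (hSZ y (3 * ρ)) (hSo y _) inter_subset_left
      ⟨y, hSm y hy _ (by positivity)⟩
    have hB := hSP.isCompact_diff hAallP.1 hAallP.subset
    have hq3 : q ∈ Out (Aall \ (S y (3 * ρ) ∩ Z)) := by
      refine subset_Out_small (hSc y (3 * ρ)) (Z := Z) (A := A) (r := r) J (fun b hb => ?_) _ hB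
        sdiff_subset (fun z hz h => h.2 ⟨hz, hAallP.subset h.1⟩) hq1
      obtain ⟨h1, -, h3, h4, h5, -⟩ := hA b (hJ b hb)
      refine ⟨h1, h3, h5, fun h => hSl y hy fun z hz => ?_⟩
      have k1 := mem_ball.1 (h hz)
      have k2 := mem_ball'.1 (h (hSm y hy _ (by positivity)))
      rw [mem_closedBall]
      linarith [dist_triangle z b y]
    have := janiszewski (hSZ y (3 * ρ)) hB disjoint_sdiff_right ⟨hq2, hq3⟩
    rw [union_sdiff_cancel (hSA y _)] at this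
    exact ⟨q, fun _ => ⟨hq1, this, fun h => absurd h hyx⟩⟩
  choose q hq using hq
  refine ⟨q, fun h => (hq x₀ h).2.2 rfl, fun y hy => ⟨fun h => ?_, ?_⟩, ?_⟩
  · exact Out_subset (hq y hy).2.1 (hSA y _ ⟨(hq y hy).1, h⟩)
  · exact ball_subset_ball (by linarith) (hSO y _ (hq y hy).1).1
  · intro y hy y' hy' E hE hEc hyE hyE'
    have hsub : ∀ x ∈ E, S x (3 * ρ) ⊆ S y (4 * ρ) := by
      intro x hx
      have h1 : x ∈ S y (4 * ρ) := hEc.subset_connectedComponentIn hyE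
        (fun z hz => hΓO y _ ⟨(hE hz).1, ball_subset_ball (by linarith) (hE hz).2⟩) hx
      have h2 : S y (4 * ρ) = connectedComponentIn (OL y (4 * ρ)) x := connectedComponentIn_eq h1
      rw [h2]
      refine connectedComponentIn_mono x (hmono _ _ _ _ ?_)
      linarith [mem_ball.1 (hE hx).2]
    have hpc := isPreconnected_inter_Out (hSZ y (4 * ρ)) (hSo y _) (hSc y _) inter_subset_left
    have m1 : q y ∈ S y (4 * ρ) ∩ Out (S y (4 * ρ) ∩ Z) :=
      ⟨hsub y hyE (hq y hy).1, Out_anti (hSA y _) (hq y hy).2.1⟩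
    have m2 : q y' ∈ S y (4 * ρ) ∩ Out (S y (4 * ρ) ∩ Z) :=
      ⟨hsub y' hyE' (hq y' hy').1, Out_anti (hSA y _) (hq y' hy').2.1⟩
    have hpath := (((hSo y (4 * ρ)).inter
      (isOpen_Out (hSZ y (4 * ρ)).isClosed)).isConnected_iff_isPathConnected).1 ⟨⟨_, m1⟩, hpc⟩
    refine (hpath.joinedIn _ m1 _ m2).mono fun z hz => ⟨fun h => Out_subset hz.2 ⟨hz.1, h⟩, ?_⟩
    exact ball_subset_ball (by linarith) (hSO y _ hz.1).1

theorem reroute {Z : Set ℂ} (hZ : IsClosed Z) {P : ℝ → ℂ} (hP : Continuous P) {ρ : ℝ}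
    (hρ : 0 < ρ) (hlong : 4 * ρ < dist (P 0) (P 1)) (h1 : P 1 ∉ Z)
    (hpiece : ∀ t ∈ Icc (0 : ℝ) 1, P t ∈ Z → ∃ (A : Set ℂ) (r : ℝ), Piece Z A ∧ P t ∈ A ∧
      0 ≤ r ∧ r ≤ ρ ∧ A ⊆ ball (P t) r ∧ P 1 ∉ ball (P t) r) :
    ∃ Q : ℝ → ℂ, Continuous Q ∧ Q 1 = P 1 ∧
      ∀ t ∈ Icc (0 : ℝ) 1, Q t ∉ Z ∧ dist (Q t) (P t) ≤ 7 * ρ := by
  have hmem : ∀ t ∈ Icc (0 : ℝ) 1, P t ∈ P '' Icc 0 1 := fun t ht => mem_image_of_mem P ht
  obtain ⟨q, q1, q2, q3⟩ := exists_regions hZ (isCompact_Icc.image hP)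
    (isPreconnected_Icc.image P hP.continuousOn) h1 hρ
    (fun y h => by
      have k1 := mem_closedBall.1 (h (hmem 0 (left_mem_Icc.2 zero_le_one)))
      have k2 := mem_closedBall'.1 (h (hmem 1 (right_mem_Icc.2 zero_le_one)))
      linarith [dist_triangle (P 0) y (P 1)])
    (by rintro _ ⟨t, ht, rfl⟩ h; exact hpiece t ht h)
  obtain ⟨η, hη, hu⟩ := Metric.uniformContinuousOn_iff_le.1
    (isCompact_Icc.uniformContinuousOn_of_continuous
      (hP.continuousOn (s := Icc (0 : ℝ) 1))) (ρ / 2) (half_pos hρ)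
  let Good : ℝ → Prop := fun s => ∃ Q : ℝ → ℂ, Continuous Q ∧ Q s = q (P s) ∧
    ∀ t ∈ Icc (0 : ℝ) s, Q t ∉ Z ∧ dist (Q t) (P t) ≤ 7 * ρ
  have step : ∀ s s', 0 ≤ s → s < s' → s' ≤ 1 → s' ≤ s + η → Good s → Good s' := by
    rintro s s' h0 hs h1' hη' ⟨Q, Qc, Qs, Qg⟩
    have hclose : ∀ t ∈ Icc s s', P t ∈ ball (P s) ρ := by
      intro t ht
      have := hu t ⟨h0.trans ht.1, ht.2.trans h1'⟩ s ⟨h0, hs.le.trans h1'⟩ (by
        rw [Real.dist_eq, abs_of_nonneg (by linarith [ht.1])]; linarith [ht.2])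
      rw [mem_ball]; linarith
    obtain ⟨γ, hγ⟩ := q3 _ (hmem s ⟨h0, hs.le.trans h1'⟩) _ (hmem s' ⟨h0.trans hs.le, h1'⟩)
      (P '' Icc s s') (by
        rintro _ ⟨t, ht, rfl⟩
        exact ⟨hmem t ⟨h0.trans ht.1, ht.2.trans h1'⟩, hclose t ht⟩)
      (isPreconnected_Icc.image P hP.continuousOn) (mem_image_of_mem P (left_mem_Icc.2 hs.le))
      (mem_image_of_mem P (right_mem_Icc.2 hs.le))
    have hγ' : ∀ τ, γ.extend τ ∈ Zᶜ ∩ ball (P s) (6 * ρ) := fun τ => by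
      obtain ⟨x, hx⟩ : γ.extend τ ∈ range γ := γ.extend_range ▸ mem_range_self τ
      exact hx ▸ hγ x
    refine ⟨fun t => if t ≤ s then Q t else γ.extend ((t - s) / (s' - s)), ?_, ?_, ?_⟩
    · refine Continuous.if_le Qc (γ.continuous_extend.comp (by fun_prop)) continuous_id
        continuous_const ?_
      rintro t rfl
      simp [Qs]
    · simp [not_le.2 hs, div_self (sub_pos.2 hs).ne']
    · intro t ht
      by_cases hts : t ≤ s
      · simp only [if_pos hts]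
        exact Qg t ⟨ht.1, hts⟩
      · simp only [if_neg hts]
        refine ⟨(hγ' _).1, ?_⟩
        have k1 := mem_ball.1 (hγ' ((t - s) / (s' - s))).2
        have k2 := mem_ball'.1 (hclose t ⟨(not_le.1 hts).le, ht.2⟩)
        linarith [dist_triangle (γ.extend ((t - s) / (s' - s))) (P s) (P t)]
  have hall : ∀ n : ℕ, Good (min (n * η) 1) := by
    intro n
    induction n with
    | zero =>
      have : min (((0 : ℕ) : ℝ) * η) 1 = 0 := by simp
      rw [this]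
      obtain ⟨k1, k2⟩ := q2 _ (hmem 0 (left_mem_Icc.2 zero_le_one))
      refine ⟨fun _ => q (P 0), continuous_const, rfl, fun t ht => ⟨k1, ?_⟩⟩
      rw [le_antisymm ht.2 ht.1]
      linarith [mem_ball.1 k2]
    | succ n ih =>
      have hle : min ((n : ℝ) * η) 1 ≤ min (((n + 1 : ℕ) : ℝ) * η) 1 := by
        gcongr; exact_mod_cast n.le_succ
      rcases hle.eq_or_lt with h | h
      · rwa [← h]
      · refine step _ _ (by positivity) h (min_le_right _ _) ?_ ih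
        push_cast
        rcases le_total ((n : ℝ) * η) 1 with h' | h'
        · rw [min_eq_left h']; exact (min_le_left _ _).trans (by linarith)
        · rw [min_eq_right h']; exact (min_le_right _ _).trans (by linarith)
  obtain ⟨n, hn⟩ := exists_nat_ge (1 / η)
  have := hall n
  rw [min_eq_right ((div_le_iff₀ hη).1 hn)] at this
  obtain ⟨Q, Qc, Qs, Qg⟩ := this
  exact ⟨Q, Qc, Qs.trans (q1 (hmem 1 (right_mem_Icc.2 zero_le_one))), Qg⟩

end Pool.Agent.NonPeak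
end

-- merged part: Pool.Agent.Work.MP_f4b807_an.Final
section
set_option autoImplicit false

open Set Filter Topology Metric

namespace Pool.Agent.NonPeak

/-- Points where `U` has capacity density at least `c` at all scales up to `δ`. -/
def Zs (U : Set ℂ) (c δ : ℝ) : Set ℂ := {z | ∀ r, 0 < r → r ≤ δ → Cap (U ∩ ball z r) (c * r)}

theorem isClosed_Zs (U : Set ℂ) {c : ℝ} (hc : 0 < c) (δ : ℝ) : IsClosed (Zs U c δ) := by
  refine isClosed_of_closure_subset fun z hz r hr hrδ => Cap.of_forall_lt fun s hs => ?_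
  rcases le_or_gt s 0 with h0 | h0
  · exact cap_of_nonpos _ h0
  have h1 : s / c < r := by rwa [div_lt_iff₀' hc]
  obtain ⟨y, hy, hyz⟩ := Metric.mem_closure_iff.1 hz (r - s / c) (by linarith)
  refine (hy (s / c) (by positivity) (by linarith)).mono
    (inter_subset_inter_right _ (ball_subset_ball' ?_)) (le_of_eq (by field_simp))
  rw [dist_comm]; linarith

theorem exists_piece_of_component {Z : Set ℂ} (hZ : IsClosed Z) {b : ℂ} (hb : b ∈ Z) {r R : ℝ}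
    (hr : 0 ≤ r) (hrR : r ≤ R) (h : connectedComponentIn (Z ∩ closedBall b R) b ⊆ ball b r) :
    ∃ A, Piece Z A ∧ b ∈ A ∧ A ⊆ ball b r := by
  set C := Z ∩ closedBall b R with hC
  have hCc : IsCompact C := (isCompact_closedBall b R).inter_left hZ
  have : CompactSpace C := isCompact_iff_compactSpace.1 hCc
  have hbC : b ∈ C := ⟨hb, mem_closedBall_self (hr.trans hrR)⟩
  have : Nonempty {s : Set C // IsClopen s ∧ (⟨b, hbC⟩ : C) ∈ s} :=
    ⟨⟨univ, isClopen_univ, mem_univ _⟩⟩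
  obtain ⟨⟨s, hs, hbs⟩, hsub⟩ := exists_subset_nhds_of_compactSpace
    (V := fun s : {s : Set C // IsClopen s ∧ (⟨b, hbC⟩ : C) ∈ s} => s.1)
    (U := Subtype.val ⁻¹' ball b r)
    (fun s t => ⟨⟨s.1 ∩ t.1, s.2.1.inter t.2.1, s.2.2, t.2.2⟩, inter_subset_left,
      inter_subset_right⟩) (fun s => s.2.1.isClosed) (by
      intro x hx
      rw [← connectedComponent_eq_iInter_isClopen] at hx
      refine (isOpen_ball.preimage continuous_subtype_val).mem_nhds (h ?_)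
      rw [connectedComponentIn_eq_image hbC]
      exact mem_image_of_mem _ hx)
  obtain ⟨O, hO, hOs⟩ := isOpen_induced_iff.1 hs.isOpen
  refine ⟨Subtype.val '' s, ⟨hs.isClosed.isCompact.image continuous_subtype_val,
    O ∩ ball b r, hO.inter isOpen_ball, ?_⟩, ⟨_, hbs, rfl⟩, image_subset_iff.2 hsub⟩
  ext z
  constructor
  · rintro ⟨x, hx, rfl⟩
    exact ⟨x.2.1, by rw [← hOs] at hx; exact hx, hsub hx⟩
  · rintro ⟨h1, h2, h3⟩
    exact ⟨⟨z, h1, closedBall_subset_closedBall hrR (ball_subset_closedBall h3)⟩,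
      by rw [← hOs]; exact h2, rfl⟩

theorem exists_piece {U : Set ℂ} (hU : IsOpen U) {δ r : ℝ} (hδ : 0 < δ) (hr : 0 < r) {b : ℂ}
    (hb : b ∈ Zs U (1 / 8000) δ) (hgood : ¬ Cap (U ∩ ball b r) (1 / 8000 * r)) :
    ∃ A, Piece (Zs U (1 / 8000) δ) A ∧ b ∈ A ∧ A ⊆ ball b (r / 100) := by
  have hc : (0 : ℝ) < 1 / 8000 := by norm_num
  have hZ := isClosed_Zs U hc δ
  refine exists_piece_of_component hZ hb (R := r / 2) (by positivity) (by linarith) fun a ha => ?_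
  set C := Zs U (1 / 8000) δ ∩ closedBall b (r / 2) with hC
  have hCc : IsCompact C := (isCompact_closedBall b _).inter_left hZ
  have hbC : b ∈ C := ⟨hb, mem_closedBall_self (by positivity)⟩
  have hWc : IsCompact (connectedComponentIn C b) := by
    have : CompactSpace C := isCompact_iff_compactSpace.1 hCc
    rw [connectedComponentIn_eq_image hbC]
    exact isClosed_connectedComponent.isCompact.image continuous_subtype_val
  have hcap := cap_of_continuum (G := U ∩ ball b r) hc (lt_min hδ (half_pos hr))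
    (hU.inter isOpen_ball) (isBounded_ball.subset inter_subset_right) hWc
    isPreconnected_connectedComponentIn (fun p hp r' hr' hr'' => by
      have hpC := connectedComponentIn_subset _ _ hp
      rw [le_min_iff] at hr''
      refine (hpC.1 r' hr' hr''.1).mono (fun z hz => ⟨⟨hz.1, ball_subset_ball' ?_ hz.2⟩, hz.2⟩)
        le_rfl
      linarith [mem_closedBall.1 hpC.2, hr''.2]) ha (mem_connectedComponentIn hbC)
  rw [mem_ball, dist_eq_norm]
  by_contra h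
  exact hgood (hcap.mono le_rfl (by linarith))

theorem refine_path {U : Set ℂ} (hU : IsOpen U) {x₀ : ℂ} {δ₀ δ : ℝ} (hδ : 0 < δ) (hδ' : δ ≤ δ₀)
    (hgood : ∀ w t, 0 < t → dist w x₀ ≤ t → t ≤ δ₀ → ¬ Cap (U ∩ ball w t) (1 / 8000 * t))
    {P : ℝ → ℂ} (hP : Continuous P) (h1 : P 1 = x₀) (hlong : δ / 2 ≤ dist (P 0) x₀)
    (hZ : ∀ t ∈ Icc (0 : ℝ) 1, P t ∉ Zs U (1 / 8000) δ) :
    ∃ Q : ℝ → ℂ, Continuous Q ∧ Q 1 = x₀ ∧
      ∀ t ∈ Icc (0 : ℝ) 1, Q t ∉ Zs U (1 / 8000) (δ / 2) ∧ dist (Q t) (P t) ≤ δ / 4 := by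
  have hx₀ : x₀ ∉ Zs U (1 / 8000) (δ / 2) := fun h =>
    hgood x₀ (δ / 2) (half_pos hδ) (by simp; positivity) (by linarith) (h _ (half_pos hδ) le_rfl)
  obtain ⟨Q, Qc, Q1, Qg⟩ := reroute (isClosed_Zs U (by norm_num : (0 : ℝ) < 1 / 8000) (δ / 2)) hP
    (ρ := δ / 100) (by positivity) (by rw [h1]; linarith) (by rwa [h1]) (by
      intro t ht htZ
      have hne : P t ≠ x₀ := fun h => hx₀ (h ▸ htZ)
      have hd : 0 < dist (P t) x₀ := dist_pos.2 hne
      obtain ⟨r, hr, hrδ, hrd, hrc⟩ : ∃ r, 0 < r ∧ r ≤ δ ∧ r ≤ dist (P t) x₀ ∧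
          ¬ Cap (U ∩ ball (P t) r) (1 / 8000 * r) := by
        have := hZ t ht
        simp only [Zs, mem_ofPred_eq, not_forall] at this
        obtain ⟨r, hr, hrδ, hrc⟩ := this
        rcases le_total r (dist (P t) x₀) with h | h
        · exact ⟨r, hr, hrδ, h, hrc⟩
        · exact ⟨_, hd, h.trans hrδ, le_rfl, hgood _ _ hd le_rfl (by linarith)⟩
      obtain ⟨A, A1, A2, A3⟩ := exists_piece hU (half_pos hδ) hr htZ hrc
      refine ⟨A, r / 100, A1, A2, by positivity, by linarith, A3, ?_⟩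
      rw [h1, mem_ball', not_lt]
      linarith)
  exact ⟨Q, Qc, Q1.trans h1, fun t ht => ⟨(Qg t ht).1, by linarith [(Qg t ht).2]⟩⟩

theorem exists_limit_path {K : Set ℂ} (hK : IsClosed K) {x₀ : ℂ} {δ₀ : ℝ} (hδ₀ : 0 < δ₀)
    (hgood : ∀ w t, 0 < t → dist w x₀ ≤ t → t ≤ δ₀ → ¬ Cap (Kᶜ ∩ ball w t) (1 / 8000 * t)) :
    ∃ P : ℝ → ℂ, ContinuousOn P (Icc 0 1) ∧ (∀ t ∈ Icc (0 : ℝ) 1, P t ∈ K) ∧ P 1 = x₀ ∧
      P 0 ≠ x₀ := by
  let St : ℕ → Type := fun k => {P : ℝ → ℂ // Continuous P ∧ P 1 = x₀ ∧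
    δ₀ / 2 + δ₀ / 2 ^ k / 2 ≤ dist (P 0) x₀ ∧
    ∀ t ∈ Icc (0 : ℝ) 1, P t ∉ Zs Kᶜ (1 / 8000) (δ₀ / 2 ^ k)}
  have step : ∀ k (p : St k), ∃ q : St (k + 1),
      ∀ t ∈ Icc (0 : ℝ) 1, dist (p.1 t) (q.1 t) ≤ δ₀ / 2 / 2 / 2 ^ k := by
    rintro k ⟨P, h1, h2, h3, h4⟩
    have hpos : 0 < δ₀ / 2 ^ k := by positivity
    obtain ⟨Q, Qc, Q1, Qg⟩ := refine_path hK.isOpen_compl hpos
      (div_le_self hδ₀.le (one_le_pow₀ one_le_two)) hgood h1 h2 (by linarith) h4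
    have e : δ₀ / 2 ^ (k + 1) = δ₀ / 2 ^ k / 2 := by rw [pow_succ, div_div]
    refine ⟨⟨Q, Qc, Q1, ?_, fun t ht => e ▸ (Qg t ht).1⟩, fun t ht => ?_⟩
    · have := (Qg 0 (left_mem_Icc.2 zero_le_one)).2
      rw [e]
      linarith [dist_triangle_left (P 0) x₀ (Q 0)]
    · rw [dist_comm]
      refine (Qg t ht).2.trans (le_of_eq ?_)
      ring
  choose nxt hnxt using step
  have init : St 0 := by
    refine ⟨fun t => x₀ + ((1 - t) * δ₀ : ℝ), by fun_prop, by simp, ?_, fun t ht h => ?_⟩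
    · simp [abs_of_pos hδ₀]
    · refine hgood _ δ₀ hδ₀ ?_ le_rfl (h δ₀ hδ₀ (by simp))
      rw [dist_self_add_left, Complex.norm_real, Real.norm_eq_abs,
        abs_of_nonneg (mul_nonneg (by linarith [ht.2]) hδ₀.le)]
      nlinarith [ht.1]
  let seq : ∀ k, St k := fun k => Nat.rec init nxt k
  have hd : ∀ t ∈ Icc (0 : ℝ) 1, ∀ k,
      dist ((seq k).1 t) ((seq (k + 1)).1 t) ≤ δ₀ / 2 / 2 / 2 ^ k :=
    fun t ht k => hnxt k (seq k) t ht
  have hex : ∀ t, ∃ z, t ∈ Icc (0 : ℝ) 1 → Tendsto (fun k => (seq k).1 t) atTop (𝓝 z) := by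
    intro t
    by_cases ht : t ∈ Icc (0 : ℝ) 1
    · obtain ⟨z, hz⟩ := cauchySeq_tendsto_of_complete (cauchySeq_of_le_geometric_two (hd t ht))
      exact ⟨z, fun _ => hz⟩
    · exact ⟨0, fun h => absurd h ht⟩
  choose P hP using hex
  have hd' : ∀ t ∈ Icc (0 : ℝ) 1, ∀ k, dist ((seq k).1 t) (P t) ≤ δ₀ / 2 / 2 ^ k :=
    fun t ht k => dist_le_of_le_geometric_two_of_tendsto (hd t ht) (hP t ht) k
  have hsmall : ∀ ε : ℝ, 0 < ε → ∀ᶠ k : ℕ in atTop, δ₀ / 2 ^ k < ε := fun ε hε =>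
    (tendsto_const_nhds.div_atTop (tendsto_pow_atTop_atTop_of_one_lt one_lt_two)).eventually
      (gt_mem_nhds hε)
  have hhalf : ∀ k : ℕ, δ₀ / 2 / 2 ^ k ≤ δ₀ / 2 ^ k := fun k => by gcongr; linarith
  refine ⟨P, ?_, fun t ht => ?_, ?_, ?_⟩
  · refine TendstoUniformlyOn.continuousOn (F := fun k => (seq k).1) (p := atTop) ?_
      (Eventually.of_forall fun k => (seq k).2.1.continuousOn).frequently
    refine Metric.tendstoUniformlyOn_iff.2 fun ε hε => ?_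
    filter_upwards [hsmall ε hε] with k hk t ht
    rw [dist_comm]
    exact ((hd' t ht k).trans (hhalf k)).trans_lt hk
  · by_contra h
    obtain ⟨ε, hε, hb⟩ := Metric.isOpen_iff.1 hK.isOpen_compl _ h
    obtain ⟨k, hk⟩ := (hsmall (ε / 2) (half_pos hε)).exists
    refine (seq k).2.2.2.2 t ht fun r hr hr' => (cap_ball ((seq k).1 t) hr).mono
      (subset_inter (subset_trans (ball_subset_ball' ?_) hb) le_rfl) (by linarith)
    linarith [hd' t ht k, hhalf k]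
  · refine tendsto_nhds_unique (hP 1 (right_mem_Icc.2 zero_le_one)) ?_
    simp only [fun k => (seq k).2.2.1]
    exact tendsto_const_nhds
  · intro h
    have h1 := hd' 0 (left_mem_Icc.2 zero_le_one) 0
    have h2 := (seq 0).2.2.2.1
    rw [h] at h1
    simp only [pow_zero, div_one] at h1 h2
    linarith

theorem exists_cut {K : Set ℂ} {x₀ : ℂ} {P : ℝ → ℂ} (hP : ContinuousOn P (Icc 0 1))
    (hK : ∀ t ∈ Icc (0 : ℝ) 1, P t ∈ K) (h1 : P 1 = x₀) (h0 : P 0 ≠ x₀) :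
    ∃ γ : ℝ → ℂ, ContinuousOn γ (Icc (0 : ℝ) 1) ∧ (∀ t ∈ Icc (0 : ℝ) 1, γ t ∈ K) ∧ γ 1 = x₀ ∧
      ∀ t ∈ Ico (0 : ℝ) 1, γ t ≠ x₀ := by
  have hc : IsCompact (Icc (0 : ℝ) 1 ∩ P ⁻¹' {x₀}) :=
    isCompact_Icc.of_isClosed_subset (hP.preimage_isClosed_of_isClosed isClosed_Icc
      isClosed_singleton) inter_subset_left
  obtain ⟨s, ⟨hs1, hs2⟩, hmin⟩ := hc.exists_isLeast ⟨1, right_mem_Icc.2 zero_le_one, h1⟩
  have hs0 : 0 < s := lt_of_le_of_ne hs1.1 (by rintro rfl; exact h0 hs2)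
  have hm : ∀ t ∈ Icc (0 : ℝ) 1, s * t ∈ Icc (0 : ℝ) 1 := fun t ht =>
    ⟨mul_nonneg hs1.1 ht.1, mul_le_one₀ hs1.2 ht.1 ht.2⟩
  refine ⟨fun t => P (s * t), hP.comp (by fun_prop) hm, fun t ht => hK _ (hm t ht),
    by simpa using hs2, fun t ht h => ?_⟩
  have := hmin ⟨hm t (Ico_subset_Icc_self ht), h⟩
  nlinarith [ht.2]

theorem main {K : Set ℂ} (hK : IsCompact K) {x₀ : ℂ} (hx : x₀ ∈ K)
    (h : ¬ ∃ f : ℂ → ℂ, (∀ ε : ℝ, 0 < ε → ∃ p q : Polynomial ℂ, (∀ z ∈ K, q.eval z ≠ 0) ∧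
      ∀ z ∈ K, ‖f z - p.eval z / q.eval z‖ < ε) ∧ f x₀ = 1 ∧ ∀ x ∈ K, x ≠ x₀ → ‖f x‖ < 1) :
    ∃ γ : ℝ → ℂ, ContinuousOn γ (Icc (0 : ℝ) 1) ∧ (∀ t ∈ Icc (0 : ℝ) 1, γ t ∈ K) ∧ γ 1 = x₀ ∧
      ∀ t ∈ Ico (0 : ℝ) 1, γ t ≠ x₀ := by
  obtain ⟨r₀, hr₀, hr⟩ : ∃ r₀, 0 < r₀ ∧ ∀ r, 0 < r → r ≤ r₀ →
      ¬ Cap (Kᶜ ∩ ball x₀ r) (1 / 16000 * r) := by
    by_contra hcon
    push Not at hcon
    exact h (exists_peak hx (by norm_num) hcon)
  obtain ⟨P, P1, P2, P3, P4⟩ := exists_limit_path hK.isClosed (x₀ := x₀) (half_pos hr₀)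
    fun w t ht hw ht' hc => hr (2 * t) (by positivity) (by linarith)
      (hc.mono (inter_subset_inter_right _ (ball_subset_ball' (by linarith))) (by linarith))
  exact exists_cut P1 P2 P3 P4

end Pool.Agent.NonPeak
end
end
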