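import Pool.Agent.Work.MP_f4b807_an.Final

set_option autoImplicit false

open Set Filter Topology Metric

namespace Pool.Agent.NonPeak

theorem exists_shadow_path {K : Set ℂ} (hK : IsClosed K) {x₀ : ℂ} {δ₀ : ℝ} (hδ₀ : 0 < δ₀)
    (hgood : ∀ w t, 0 < t → dist w x₀ ≤ t → t ≤ δ₀ → ¬ Cap (Kᶜ ∩ ball w t) (1 / 8000 * t))
    {P₀ : ℝ → ℂ} (c0 : Continuous P₀) (c1 : P₀ 1 = x₀) (c2 : δ₀ ≤ dist (P₀ 0) x₀)
    (c3 : ∀ t ∈ Icc (0 : ℝ) 1, ¬ Cap (Kᶜ ∩ ball (P₀ t) δ₀) (1 / 8000 * δ₀)) :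
    ∃ P : ℝ → ℂ, ContinuousOn P (Icc 0 1) ∧ (∀ t ∈ Icc (0 : ℝ) 1, P t ∈ K) ∧ P 1 = x₀ ∧
      ∀ t ∈ Icc (0 : ℝ) 1, dist (P₀ t) (P t) ≤ δ₀ / 2 := by
  let St : ℕ → Type := fun k => {P : ℝ → ℂ // Continuous P ∧ P 1 = x₀ ∧
    δ₀ / 2 + δ₀ / 2 ^ k / 2 ≤ dist (P 0) x₀ ∧
    ∀ t ∈ Icc (0 : ℝ) 1, P t ∉ Zs Kᶜ (1 / 8000) (δ₀ / 2 ^ k)}
  have step : ∀ k (p : St k), ∃ q : St (k + 1),
      ∀ t ∈ Icc (0 : ℝ) 1, dist (p.1 t) (q.1 t) ≤ δ₀ / 2 / 2 / 2 ^ k := by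
    rintro k ⟨P, h1, h2, h3, h4⟩
    have hpos : 0 < δ₀ / 2 ^ k := by positivity
    obtain ⟨Q, Qc, Q1, Qg⟩ := refine_path hK.isOpen_compl hpos
      (div_le_self hδ₀.le (one_le_pow₀ one_le_two)) hgood h1 h2 (by linarith) h4
    have e : δ₀ / 2 ^ (k + 1) = δ₀ / 2 ^ k / 2 := by rw [pow_succ, div_div]
    refine ⟨⟨Q, Qc, Q1, ?_, fun t ht => e ▸ (Qg t ht).1⟩, fun t ht => ?_⟩
    · have := (Qg 0 (left_mem_Icc.2 zero_le_one)).2
      rw [e]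
      linarith [dist_triangle_left (P 0) x₀ (Q 0)]
    · rw [dist_comm]
      refine (Qg t ht).2.trans (le_of_eq ?_)
      ring
  choose nxt hnxt using step
  let init : St 0 := ⟨P₀, c0, c1, by simpa using c2, fun t ht h => c3 t ht (h δ₀ hδ₀ (by simp))⟩
  let seq : ∀ k, St k := fun k => Nat.rec init nxt k
  have hd : ∀ t ∈ Icc (0 : ℝ) 1, ∀ k,
      dist ((seq k).1 t) ((seq (k + 1)).1 t) ≤ δ₀ / 2 / 2 / 2 ^ k :=
    fun t ht k => hnxt k (seq k) t ht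
  have hex : ∀ t, ∃ z, t ∈ Icc (0 : ℝ) 1 → Tendsto (fun k => (seq k).1 t) atTop (𝓝 z) := by
    intro t
    by_cases ht : t ∈ Icc (0 : ℝ) 1
    · obtain ⟨z, hz⟩ := cauchySeq_tendsto_of_complete (cauchySeq_of_le_geometric_two (hd t ht))
      exact ⟨z, fun _ => hz⟩
    · exact ⟨0, fun h => absurd h ht⟩
  choose P hP using hex
  have hd' : ∀ t ∈ Icc (0 : ℝ) 1, ∀ k, dist ((seq k).1 t) (P t) ≤ δ₀ / 2 / 2 ^ k :=
    fun t ht k => dist_le_of_le_geometric_two_of_tendsto (hd t ht) (hP t ht) k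
  have hsmall : ∀ ε : ℝ, 0 < ε → ∀ᶠ k : ℕ in atTop, δ₀ / 2 ^ k < ε := fun ε hε =>
    (tendsto_const_nhds.div_atTop (tendsto_pow_atTop_atTop_of_one_lt one_lt_two)).eventually
      (gt_mem_nhds hε)
  have hhalf : ∀ k : ℕ, δ₀ / 2 / 2 ^ k ≤ δ₀ / 2 ^ k := fun k => by gcongr; linarith
  refine ⟨P, ?_, fun t ht => ?_, ?_, fun t ht => ?_⟩
  · refine TendstoUniformlyOn.continuousOn (F := fun k => (seq k).1) (p := atTop) ?_
      (Eventually.of_forall fun k => (seq k).2.1.continuousOn).frequently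
    refine Metric.tendstoUniformlyOn_iff.2 fun ε hε => ?_
    filter_upwards [hsmall ε hε] with k hk t ht
    rw [dist_comm]
    exact ((hd' t ht k).trans (hhalf k)).trans_lt hk
  · by_contra h
    obtain ⟨ε, hε, hb⟩ := Metric.isOpen_iff.1 hK.isOpen_compl _ h
    obtain ⟨k, hk⟩ := (hsmall (ε / 2) (half_pos hε)).exists
    refine (seq k).2.2.2.2 t ht fun r hr hr' => (cap_ball ((seq k).1 t) hr).mono
      (subset_inter (subset_trans (ball_subset_ball' ?_) hb) le_rfl) (by linarith)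
    linarith [hd' t ht k, hhalf k]
  · refine tendsto_nhds_unique (hP 1 (right_mem_Icc.2 zero_le_one)) ?_
    simp only [fun k => (seq k).2.2.1]
    exact tendsto_const_nhds
  · exact (hd' t ht 0).trans (by simp)

theorem shadow {K : Set ℂ} (hK : IsCompact K) {x₀ : ℂ} (hx : x₀ ∈ K)
    (h : ¬ ∃ f : ℂ → ℂ, (∀ ε : ℝ, 0 < ε → ∃ p q : Polynomial ℂ, (∀ z ∈ K, q.eval z ≠ 0) ∧
      ∀ z ∈ K, ‖f z - p.eval z / q.eval z‖ < ε) ∧ f x₀ = 1 ∧ ∀ x ∈ K, x ≠ x₀ → ‖f x‖ < 1)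
    {ε : ℝ} (hε : 0 < ε) : ∃ δ₀, 0 < δ₀ ∧ ∀ δ, 0 < δ → δ ≤ δ₀ → ∀ P₀ : ℝ → ℂ, Continuous P₀ →
      P₀ 1 = x₀ → (∀ t ∈ Icc (0 : ℝ) 1, dist (P₀ t) x₀ ≤ δ) →
      ∃ P : ℝ → ℂ, ContinuousOn P (Icc 0 1) ∧ (∀ t ∈ Icc (0 : ℝ) 1, P t ∈ K) ∧ P 1 = x₀ ∧
        P 0 ≠ x₀ ∧ ∀ t ∈ Icc (0 : ℝ) 1, dist (P t) (P₀ t) ≤ ε * δ := by
  set η := min ε 1 / 3 with hη
  have η0 : 0 < η := by positivity
  have η1 : 3 * η ≤ 1 := by linarith [min_le_right ε 1]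
  have η2 : 3 * η ≤ ε := by linarith [min_le_left ε 1]
  obtain ⟨r₀, hr₀, hr⟩ : ∃ r₀, 0 < r₀ ∧ ∀ r, 0 < r → r ≤ r₀ →
      ¬ Cap (Kᶜ ∩ ball x₀ r) (η / 16000 * r) := by
    by_contra hcon
    push Not at hcon
    exact h (exists_peak hx (by positivity) hcon)
  refine ⟨r₀ / 2, half_pos hr₀, fun δ hδ hδ' P₀ c0 c1 c2 => ?_⟩
  have d0 : 0 < η * δ := by positivity
  have d1 : 3 * (η * δ) ≤ δ := by nlinarith
  obtain ⟨v, v1, v2⟩ : ∃ v : ℝ, |v| ≤ 2 * (η * δ) ∧ η * δ ≤ dist (P₀ 0 + v) x₀ := by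
    rcases le_total (η * δ) (dist (P₀ 0) x₀) with h1 | h1
    · exact ⟨0, by simpa using d0.le, by simpa using h1⟩
    · refine ⟨2 * (η * δ), (abs_of_pos (by positivity)).le, ?_⟩
      have := dist_triangle (P₀ 0 + (2 * (η * δ) : ℝ)) x₀ (P₀ 0)
      rw [dist_self_add_left, Complex.norm_real, Real.norm_of_nonneg (by positivity),
        dist_comm x₀] at this
      linarith
  have v3 : ∀ t ∈ Icc (0 : ℝ) 1, dist (P₀ t + ((1 - t) * v : ℝ)) (P₀ t) ≤ 2 * (η * δ) := by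
    intro t ht
    rw [dist_self_add_left, Complex.norm_real, Real.norm_eq_abs, abs_mul,
      abs_of_nonneg (by linarith [ht.2])]
    nlinarith [ht.1, ht.2, abs_nonneg v]
  obtain ⟨P, P1, P2, P3, P4⟩ := exists_shadow_path hK.isClosed (x₀ := x₀) d0
    (fun w t ht hw ht' hc => hr (2 * t) (by positivity) (by linarith)
      (hc.mono (inter_subset_inter_right _ (ball_subset_ball' (by linarith))) (by nlinarith)))
    (P₀ := fun t => P₀ t + ((1 - t) * v : ℝ)) (by fun_prop) (by simpa using c1)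
    (by simpa using v2) fun t ht hc => hr (2 * δ) (by positivity) (by linarith)
      (hc.mono (inter_subset_inter_right _ (ball_subset_ball' (by
        linarith [dist_triangle (P₀ t + ((1 - t) * v : ℝ)) (P₀ t) x₀, v3 t ht, c2 t ht])))
        (le_of_eq (by ring)))
  refine ⟨P, P1, P2, P3, fun h0 => ?_, fun t ht => ?_⟩
  · have := P4 0 (left_mem_Icc.2 zero_le_one)
    simp only [h0, sub_zero, one_mul] at this
    linarith
  · have := dist_triangle_left (P t) (P₀ t) (P₀ t + ((1 - t) * v : ℝ))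
    nlinarith [P4 t ht, v3 t ht]

end Pool.Agent.NonPeak
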